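import Pool.Agent.H.MP_86f3ed_an.Am.Mass

/-!
# Am/Minimax: simultaneous control of finitely many column sums

Let `x : R → I → A` be finitely many finite families, `‖∑_i x_ri x_ri*‖ ≤ p_r`, `K_r > 0`,
`∑ 1/K_r ≤ 1`, `δ > 0`. Then there is a family `z` with `∑ z_l* z_l = 1` and
`‖Ψ_z(∑_i x_ri* x_ri)‖ ≤ K_r (p_r + δ)` for all `r`.

Proof. Note `p_r ≥ 0`. Let `q_r = (K_r (p_r+δ))⁻¹ ∑_i x_ri* x_ri ≥ 0`; we need `z` with
`‖Ψ_z(q_r)‖ ≤ 1` for all `r`. Work in the real normed space `R → A`. Let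
`U = {y : ∀ r, ‖y r‖ < 1}` (open, convex) and
`C = {y : ∃ z, Zf z ∧ ∀ r, Ψ_z(q_r) ≤ y r}` (convex by `Psi_join`).
If `U ∩ C ≠ ∅`: `0 ≤ Ψ_z(q_r) ≤ y r`, so `‖Ψ_z(q_r)‖ ≤ ‖y r‖ < 1`
(`CStarAlgebra.norm_le_norm_of_nonneg_of_le`), done. Suppose `U ∩ C = ∅`. By
`geometric_hahn_banach_open` there are a continuous real-linear `f` on `R → A` and `u ∈ ℝ` with
`f y < u` on `U` and `u ≤ f y` on `C`. Let `f_r(a) = f (Pi.single r a)`, so `f y = ∑ f_r (y r)`.
* `f_r(a) ≥ 0` for `a ≥ 0`: `C` is stable under adding `n • Pi.single r a`; if `f_r(a) < 0`, then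
  `f` is unbounded below on `C` (nonempty: `z = {1}`, `y r = q_r`).
* `∑ f_r(1) ≤ u`: for `0 < θ < 1` the point `y r = θ 1` is in `U` (`‖1‖ ≤ 1`), so
  `θ ∑ f_r(1) < u`; let `θ → 1`.
* `u > 0` because `0 ∈ U`.
Let `χ = ∑ f_r : A →ₗ[ℝ] ℝ`, nonnegative on nonnegative elements. `χ 1 > 0`: otherwise
`f_r(1) = 0` for all `r`, so `f_r(a) = 0` for all `a ≥ 0` (`a ≤ ‖a‖ 1`), so with `z = {1}`:
`u ≤ ∑ f_r(q_r) = 0`, a contradiction.
Let `δ' > 0` be small (below) and take `z` from `min_mass χ δ'`. With `χ' = χ ∘ Ψ_z`, for each `r`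
`f_r(Ψ_z(q_r)) ≤ χ'(q_r) = (K_r(p_r+δ))⁻¹ ∑_i χ'(x_ri* x_ri)
  ≤ (K_r(p_r+δ))⁻¹ (χ'(∑_i x_ri x_ri*) + δ' ∑_i ‖x_ri‖²)
  ≤ (K_r(p_r+δ))⁻¹ (p_r χ 1 + δ' N_r)`, `N_r = ∑_i ‖x_ri‖²`
(`∑ x x* ≤ p_r 1` and `χ'(1) ≤ χ 1`). Let `θ = max_r p_r/(p_r+δ) < 1` (or use
`p_r/(p_r+δ) ≤ P/(P+δ)` with `P = ∑ p_r`). Summing over `r` and using `u ≤ f(y)` for
`y r = Ψ_z(q_r)` in `C`, `χ 1 ≤ u`:
`χ 1 ≤ ∑_r f_r(Ψ_z(q_r)) ≤ θ (∑ 1/K_r) χ 1 + δ' M ≤ θ χ 1 + δ' M`, `M = ∑ N_r/(K_r(p_r+δ))`.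
With `δ'` such that `δ' M < (1-θ) χ 1` this is a contradiction.
-/

open scoped InnerProductSpace ComplexConjugate

namespace Pool.Agent.MP_86f3ed.Am

universe u

variable {A : Type u} [CStarAlgebra A] [PartialOrder A] [StarOrderedRing A]

omit [PartialOrder A] [StarOrderedRing A] in
theorem Minimax_sum_single {R : Type} [Fintype R] [DecidableEq R] (f : (R → A) →ₗ[ℝ] ℝ)
    (y : R → A) : f y = ∑ r, f (Pi.single r (y r)) := by
  rw [← map_sum]
  congr 1
  exact (Finset.univ_sum_single y).symm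

omit [PartialOrder A] [StarOrderedRing A] in
theorem Minimax_one_family : Zf (fun _ : Unit => (1 : A)) ∧
    ∀ c : A, Psi (fun _ : Unit => (1 : A)) c = c := by
  constructor
  · simp [Zf]
  · intro c
    simp [Psi]

omit [PartialOrder A] [StarOrderedRing A] in
theorem Minimax_norm_one_le : ‖(1 : A)‖ ≤ 1 := by
  rcases subsingleton_or_nontrivial A with h | h
  · have : (1 : A) = 0 := Subsingleton.elim _ _
    rw [this, norm_zero]
    exact zero_le_one
  · exact CStarRing.norm_one.le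

theorem Minimax_le_norm_smul {a : A} (ha : 0 ≤ a) {t : ℝ} (ht : ‖a‖ ≤ t) : a ≤ t • (1 : A) := by
  have h1 : a ≤ algebraMap ℝ A ‖a‖ := IsSelfAdjoint.le_algebraMap_norm_self (.of_nonneg ha)
  rw [Algebra.algebraMap_eq_smul_one] at h1
  refine h1.trans ?_
  have : (0 : A) ≤ (t - ‖a‖) • (1 : A) := smul_nonneg (sub_nonneg.2 ht) zero_le_one
  rw [sub_smul] at this
  exact sub_nonneg.1 this

theorem minimax {R I : Type} [Fintype R] [Fintype I] (x : R → I → A) (K p : R → ℝ)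
    (hK : ∀ r, 0 < K r) (hKs : ∑ r, 1 / K r ≤ 1)
    (hp : ∀ r, ‖∑ i, x r i * star (x r i)‖ ≤ p r) (δ : ℝ) (hδ : 0 < δ) :
    ∃ (L : Type) (_ : Fintype L) (z : L → A), Zf z ∧
      ∀ r, ‖Psi z (∑ i, star (x r i) * x r i)‖ ≤ K r * (p r + δ) := by
  classical
  have hp0 : ∀ r, 0 ≤ p r := fun r => (norm_nonneg _).trans (hp r)
  have hpd : ∀ r, 0 < p r + δ := fun r => add_pos_of_nonneg_of_pos (hp0 r) hδ
  obtain ⟨S, hS⟩ : ∃ S : R → A, ∀ r, S r = ∑ i, star (x r i) * x r i := ⟨_, fun r => rfl⟩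
  have hS0 : ∀ r, 0 ≤ S r := fun r => by
    rw [hS]
    exact Finset.sum_nonneg fun i _ => star_mul_self_nonneg _
  obtain ⟨c, hcdef⟩ : ∃ c : R → ℝ, ∀ r, c r = (K r * (p r + δ))⁻¹ := ⟨_, fun r => rfl⟩
  have hc : ∀ r, 0 < c r := fun r => by
    rw [hcdef]
    exact inv_pos.2 (mul_pos (hK r) (hpd r))
  obtain ⟨q, hq⟩ : ∃ q : R → A, ∀ r, q r = c r • S r := ⟨_, fun r => rfl⟩
  have hq0 : ∀ r, 0 ≤ q r := fun r => by
    rw [hq]
    exact smul_nonneg (hc r).le (hS0 r)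
  suffices H : ∃ (L : Type) (_ : Fintype L) (z : L → A), Zf z ∧ ∀ r, ‖Psi z (q r)‖ ≤ 1 by
    obtain ⟨L, hL, z, hz, h⟩ := H
    refine ⟨L, hL, z, hz, fun r => ?_⟩
    have h1 := h r
    rw [hq, Psi_smul, norm_smul, Real.norm_of_nonneg (hc r).le, hcdef,
      inv_mul_le_iff₀ (mul_pos (hK r) (hpd r)), mul_one, hS] at h1
    exact h1
  by_contra hcon
  let U : Set (R → A) := {y | ∀ r, ‖y r‖ < 1}
  let C : Set (R → A) :=
    {y | ∃ (L : Type) (_ : Fintype L) (z : L → A), Zf z ∧ ∀ r, Psi z (q r) ≤ y r}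
  have hU1 : Convex ℝ U := by
    intro y hy y' hy' s t hs ht hst r
    have h1 : ‖(s • y + t • y') r‖ ≤ s * ‖y r‖ + t * ‖y' r‖ := by
      rw [Pi.add_apply, Pi.smul_apply, Pi.smul_apply]
      refine (norm_add_le _ _).trans ?_
      rw [norm_smul, norm_smul, Real.norm_of_nonneg hs, Real.norm_of_nonneg ht]
    have h2 := hy r
    have h3 := hy' r
    refine h1.trans_lt ?_
    rcases hs.eq_or_lt with h | h
    · have ht1 : t = 1 := by rw [← h, zero_add] at hst; exact hst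
      rw [← h, ht1, zero_mul, zero_add, one_mul]
      exact h3
    · have h4 : s * ‖y r‖ < s := by nlinarith
      have h5 : t * ‖y' r‖ ≤ t := by nlinarith
      linarith
  have hU2 : IsOpen U := by
    have : U = ⋂ r, {y : R → A | ‖y r‖ < 1} := by
      ext y
      simp [U]
    rw [this]
    exact isOpen_iInter_of_finite fun r =>
      isOpen_lt ((continuous_apply r).norm) continuous_const
  have hC : Convex ℝ C := by
    rintro y ⟨L, hL, z, hz, hy⟩ y' ⟨L', hL', z', hz', hy'⟩ s t hs ht hst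
    obtain ⟨w, hw, hww⟩ := Psi_join hz hz' hs ht hst
    refine ⟨L ⊕ L', inferInstance, w, hw, fun r => ?_⟩
    rw [hww, Pi.add_apply, Pi.smul_apply, Pi.smul_apply]
    exact add_le_add (smul_le_smul_of_nonneg_left (hy r) hs)
      (smul_le_smul_of_nonneg_left (hy' r) ht)
  have hdis : Disjoint U C := by
    rw [Set.disjoint_left]
    rintro y hyU ⟨L, hL, z, hz, hy⟩
    refine hcon ⟨L, hL, z, hz, fun r => ?_⟩
    exact (CStarAlgebra.norm_le_norm_of_nonneg_of_le (Psi_nonneg z (hq0 r)) (hy r)).trans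
      (hyU r).le
  obtain ⟨f, u, hfU, hfC⟩ := geometric_hahn_banach_open hU1 hU2 hC hdis
  obtain ⟨fr, hfr⟩ : ∃ fr : R → A →ₗ[ℝ] ℝ, ∀ r a, fr r a = f (Pi.single r a) :=
    ⟨fun r => (f : (R → A) →ₗ[ℝ] ℝ).comp (LinearMap.single ℝ (fun _ : R => A) r),
      fun r a => rfl⟩
  have hfsum : ∀ y : R → A, f y = ∑ r, fr r (y r) := by
    intro y
    rw [Finset.sum_congr rfl fun r _ => hfr r (y r)]
    exact Minimax_sum_single (f : (R → A) →ₗ[ℝ] ℝ) y
  have hqC : q ∈ C := ⟨Unit, inferInstance, fun _ => 1, Minimax_one_family.1, fun r => by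
    rw [Minimax_one_family.2]⟩
  have hpos : ∀ r a, 0 ≤ a → 0 ≤ fr r a := by
    intro r a ha
    by_contra hneg
    push Not at hneg
    -- `f (q + n • single r a) = f q + n * fr r a ≥ u` for all `n`
    obtain ⟨n, hn⟩ := exists_nat_gt ((f q - u) / (-(fr r a)))
    have h1 : q + (n : ℝ) • (Pi.single r a : R → A) ∈ C := by
      refine ⟨Unit, inferInstance, fun _ => 1, Minimax_one_family.1, fun s => ?_⟩
      rw [Minimax_one_family.2, Pi.add_apply, Pi.smul_apply]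
      refine le_add_of_nonneg_right (smul_nonneg (Nat.cast_nonneg n) ?_)
      by_cases hs : s = r
      · subst hs
        rw [Pi.single_eq_same]
        exact ha
      · rw [Pi.single_eq_of_ne hs]
    have h2 := hfC _ h1
    rw [map_add, map_smul, smul_eq_mul, ← hfr] at h2
    rw [div_lt_iff₀ (neg_pos.2 hneg)] at hn
    linarith
  have hone : ∀ θ : ℝ, 0 < θ → θ < 1 → θ * ∑ r, fr r 1 < u := by
    intro θ h0 h1
    have h2 : (fun _ : R => θ • (1 : A)) ∈ U := by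
      intro r
      rw [norm_smul, Real.norm_of_nonneg h0.le]
      have := Minimax_norm_one_le (A := A)
      nlinarith [norm_nonneg (1 : A)]
    have h3 := hfU _ h2
    rw [hfsum] at h3
    have h4 : ∑ r, fr r (θ • (1 : A)) = θ * ∑ r, fr r 1 := by
      rw [Finset.mul_sum]
      refine Finset.sum_congr rfl fun r _ => ?_
      rw [map_smul, smul_eq_mul]
    rwa [h4] at h3
  have hu0 : 0 < u := by
    have h1 : (0 : R → A) ∈ U := by
      intro r
      rw [Pi.zero_apply, norm_zero]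
      exact zero_lt_one
    have := hfU _ h1
    rwa [map_zero] at this
  obtain ⟨X, hX⟩ : ∃ X : ℝ, X = ∑ r, fr r 1 := ⟨_, rfl⟩
  rw [← hX] at hone
  have hXle : X ≤ u := by
    by_contra h
    push Not at h
    have hXpos : 0 < X := hu0.trans h
    have h1 := hone (u / X) (div_pos hu0 hXpos) ((div_lt_one hXpos).2 h)
    rw [div_mul_cancel₀ _ hXpos.ne'] at h1
    exact lt_irrefl _ h1
  -- nonnegative functionals: monotone
  have hmono : ∀ r a b, a ≤ b → fr r a ≤ fr r b := by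
    intro r a b hab
    have := hpos r (b - a) (sub_nonneg.2 hab)
    rw [map_sub] at this
    linarith
  have hbound : ∀ r a, 0 ≤ a → fr r a ≤ ‖a‖ * fr r 1 := by
    intro r a ha
    have := hmono r a _ (Minimax_le_norm_smul ha le_rfl)
    rwa [map_smul, smul_eq_mul] at this
  have h1nn : ∀ r, 0 ≤ fr r 1 := fun r => hpos r 1 zero_le_one
  have hX0 : 0 < X := by
    by_contra h
    push Not at h
    have hX1 : ∑ r, fr r 1 = 0 := le_antisymm (hX ▸ h) (Finset.sum_nonneg fun r _ => h1nn r)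
    have h2 : ∀ r, fr r 1 = 0 := fun r =>
      (Finset.sum_eq_zero_iff_of_nonneg fun r _ => h1nn r).1 hX1 r (Finset.mem_univ r)
    have h3 := hfC q hqC
    rw [hfsum] at h3
    have h4 : ∑ r, fr r (q r) ≤ 0 := by
      refine Finset.sum_nonpos fun r _ => ?_
      have := hbound r (q r) (hq0 r)
      rwa [h2, mul_zero] at this
    linarith
  -- the functional `χ`
  obtain ⟨χ, hχ⟩ : ∃ χ : A →ₗ[ℝ] ℝ, ∀ a, χ a = ∑ r, fr r a :=
    ⟨∑ r, fr r, fun a => by rw [LinearMap.sum_apply]⟩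
  have hχ0 : ∀ a, 0 ≤ a → 0 ≤ χ a := by
    intro a ha
    rw [hχ]
    exact Finset.sum_nonneg fun r _ => hpos r a ha
  have hχ1 : χ 1 = X := by rw [hχ, hX]
  have hχm : ∀ a b, a ≤ b → χ a ≤ χ b := by
    intro a b hab
    have := hχ0 (b - a) (sub_nonneg.2 hab)
    rw [map_sub] at this
    linarith
  -- constants
  obtain ⟨N, hN⟩ : ∃ N : R → ℝ, ∀ r, N r = ∑ i, ‖x r i‖ ^ 2 := ⟨_, fun r => rfl⟩
  have hN0 : ∀ r, 0 ≤ N r := fun r => by
    rw [hN]
    exact Finset.sum_nonneg fun i _ => by positivity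
  obtain ⟨M, hM⟩ : ∃ M : ℝ, M = ∑ r, c r * N r := ⟨_, rfl⟩
  have hM0 : 0 ≤ M := by
    rw [hM]
    exact Finset.sum_nonneg fun r _ => mul_nonneg (hc r).le (hN0 r)
  obtain ⟨P, hP⟩ : ∃ P : ℝ, P = ∑ r, p r := ⟨_, rfl⟩
  have hP0 : 0 ≤ P := by
    rw [hP]
    exact Finset.sum_nonneg fun r _ => hp0 r
  have hpP : ∀ r, p r ≤ P := fun r => by
    rw [hP]
    exact Finset.single_le_sum (fun r _ => hp0 r) (Finset.mem_univ r)
  obtain ⟨θ, hθ⟩ : ∃ θ : ℝ, θ = P / (P + δ) := ⟨_, rfl⟩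
  have hPd : 0 < P + δ := add_pos_of_nonneg_of_pos hP0 hδ
  have hθ0 : 0 ≤ θ := by rw [hθ]; positivity
  have hθ1 : θ < 1 := by
    rw [hθ, div_lt_one hPd]
    linarith
  have hcp : ∀ r, c r * p r ≤ θ * (1 / K r) := by
    intro r
    rw [hcdef, hθ]
    have h1 : p r / (p r + δ) ≤ P / (P + δ) := by
      rw [div_le_div_iff₀ (hpd r) hPd]
      nlinarith [hpP r]
    have h2 : (K r * (p r + δ))⁻¹ * p r = p r / (p r + δ) * (1 / K r) := by
      have := (hK r).ne'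
      have := (hpd r).ne'
      field_simp
    rw [h2]
    exact mul_le_mul_of_nonneg_right h1 (one_div_nonneg.2 (hK r).le)
  obtain ⟨d, hd, hdM⟩ : ∃ d : ℝ, 0 < d ∧ d * M < (1 - θ) * X := by
    have h1 : 0 < (1 - θ) * X := mul_pos (sub_pos.2 hθ1) hX0
    refine ⟨(1 - θ) * X / (M + 1), div_pos h1 (by linarith), ?_⟩
    rw [div_mul_eq_mul_div, div_lt_iff₀ (by linarith)]
    nlinarith
  obtain ⟨L, hL, z, hz, hz1, hzw⟩ := min_mass χ hχ0 d hd
  rw [hχ1] at hz1
  have hPs : ∀ (J : Type) (T : Finset J) (v : J → A),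
      Psi z (∑ i ∈ T, v i) = ∑ i ∈ T, Psi z (v i) := by
    intro J T v
    induction T using Finset.induction_on with
    | empty => simp [Psi]
    | insert a s ha ih => rw [Finset.sum_insert ha, Finset.sum_insert ha, Psi_add, ih]
  have hkey : ∀ r, fr r (Psi z (q r)) ≤ θ * (1 / K r) * X + d * (c r * N r) := by
    intro r
    have h1 : fr r (Psi z (q r)) ≤ χ (Psi z (q r)) := by
      rw [hχ]
      exact Finset.single_le_sum (f := fun s => fr s (Psi z (q r)))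
        (fun s _ => hpos s _ (Psi_nonneg z (hq0 r))) (Finset.mem_univ r)
    have h2 : χ (Psi z (q r)) = c r * χ (Psi z (S r)) := by
      rw [hq, Psi_smul, map_smul, smul_eq_mul]
    have h3 : χ (Psi z (S r)) ≤ χ (Psi z (∑ i, x r i * star (x r i))) + d * N r := by
      rw [hS, hPs, hPs, map_sum, map_sum, hN, Finset.mul_sum, ← Finset.sum_add_distrib]
      exact Finset.sum_le_sum fun i _ => hzw (x r i)
    have h4 : χ (Psi z (∑ i, x r i * star (x r i))) ≤ p r * X := by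
      have h5 : ∑ i, x r i * star (x r i) ≤ (p r) • (1 : A) :=
        Minimax_le_norm_smul (Finset.sum_nonneg fun i _ => mul_star_self_nonneg _) (hp r)
      have h6 : Psi z (∑ i, x r i * star (x r i)) ≤ Psi z ((p r) • (1 : A)) := by
        have h7 := Psi_nonneg z (sub_nonneg.2 h5)
        have h8 : Psi z ((p r) • (1 : A)) =
            Psi z ((p r) • (1 : A) - ∑ i, x r i * star (x r i)) +
              Psi z (∑ i, x r i * star (x r i)) := by
          rw [← Psi_add, sub_add_cancel]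
        rw [h8]
        exact le_add_of_nonneg_left h7
      have h9 := hχm _ _ h6
      rw [Psi_smul, map_smul, smul_eq_mul] at h9
      exact h9.trans (mul_le_mul_of_nonneg_left hz1 (hp0 r))
    have h5 : c r * χ (Psi z (S r)) ≤ c r * (p r * X + d * N r) :=
      mul_le_mul_of_nonneg_left (h3.trans (by linarith)) (hc r).le
    have h6 : c r * p r * X ≤ θ * (1 / K r) * X := mul_le_mul_of_nonneg_right (hcp r) hX0.le
    calc fr r (Psi z (q r)) ≤ c r * χ (Psi z (S r)) := h1.trans h2.le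
      _ ≤ c r * (p r * X + d * N r) := h5
      _ = c r * p r * X + d * (c r * N r) := by ring
      _ ≤ θ * (1 / K r) * X + d * (c r * N r) := by linarith
  have hfin1 : u ≤ ∑ r, fr r (Psi z (q r)) := by
    rw [← hfsum (fun r => Psi z (q r))]
    exact hfC _ ⟨L, hL, z, hz, fun r => le_rfl⟩
  have hfin2 : ∑ r, fr r (Psi z (q r)) ≤ θ * (∑ r, 1 / K r) * X + d * M := by
    refine (Finset.sum_le_sum fun r _ => hkey r).trans (le_of_eq ?_)
    rw [Finset.sum_add_distrib, hM, Finset.mul_sum, Finset.mul_sum, Finset.sum_mul]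
  have hfin3 : θ * (∑ r, 1 / K r) * X ≤ θ * X := by
    have : θ * (∑ r, 1 / K r) ≤ θ := by nlinarith
    exact mul_le_mul_of_nonneg_right this hX0.le
  linarith

end Pool.Agent.MP_86f3ed.Am
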