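import Pool.Agent.H.MP_86f3ed_an.Am.Sum

/-!
# Am/Near: a nearly central tensor from `KCP`

Given `F` and `ε`, take `KCP` for the finite set `F' = F ∪ F* ∪ {a* a, a a* : a ∈ F}` and `ε'`.
Index set `I = Fin m × Fin n`, `t (k,i) = t_ki`, `T = kT t`. For `a ∈ A`
`d a (k,i) = t_ki a* - ∑_j ent (S (a*)) i j • t_kj`,
`e a (k,i) = ∑_j ent (S a) i j • t_kj - t_ki a`.

* Identity (for every bilinear `V`, every `a`):
  `∑ V(d_ki*, t_ki) = ∑ V(a t_ki*, t_ki) - ∑_{k,i,j} ent (S a) j i V(t_kj*, t_ki)`, because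
  `conj (ent (S (a*)) i j) = conj (ent (star (S a)) i j) = ent (S a) j i` (`ent_star`), and
  `∑ V(t_ki*, e_ki) = ∑_{k,i,j} ent (S a) i j V(t_ki*, t_kj) - ∑ V(t_ki*, t_ki a)`.
  Add: the two triple sums cancel (swap the names `i`, `j`).
* Norms: `∑ e* e = T(S(a)* S(a)) - T(S(a*)) a - a* T(S(a)) + a* a` (`kT_star_mul` and
  `∑ (∑_j s_ij t_kj)* t_ki = T(S(a)*)`: `kT_star_mul` with `c = 1`, `ent_one`). And
  `0 ≤ T(S(a)* S(a)) ≤ T(S(a* a))` (`kT_nonneg` for `P = S(a* a) - S(a)* S(a)`, which is positive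
  by the Schwarz inequality). So `0 ≤ ∑ e* e ≤ T(S(a* a)) - T(S(a*)) a - a* T(S(a)) + a* a`, and the
  right side equals `(T(S(a* a)) - a* a) - (T(S(a*)) - a*) a - a* (T(S(a)) - a)`, of norm
  `≤ ε' (1 + 2‖a‖)`.
  `d a = - e (a*)` literally, so `∑ d* d = ∑ e(a*)* e(a*)`: the same estimate for `a*`.
* Choose `ε' = ε / (1 + 2 ∑_{a ∈ F} ‖a‖)`.
-/

open scoped InnerProductSpace ComplexConjugate

namespace Pool.Agent.MP_86f3ed.Am

universe u

variable {A : Type u} [CStarAlgebra A] [PartialOrder A] [StarOrderedRing A]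

/-- the norm estimate -/
theorem Near_norm {n m : ℕ} (S : A →ₗ[ℂ] (EE n →L[ℂ] EE n)) (t : Fin m → Fin n → A)
    (hstar : ∀ a, S (star a) = star (S a))
    (hsch : ∀ a ξ, ‖S a ξ‖ ^ 2 ≤ (⟪ξ, S (star a * a) ξ⟫_ℂ).re)
    (ht : ∑ k, ∑ i, star (t k i) * t k i = 1) (a : A) {η : ℝ}
    (h1 : ‖kT t (S (star a * a)) - star a * a‖ ≤ η) (h2 : ‖kT t (S (star a)) - star a‖ ≤ η)
    (h3 : ‖kT t (S a) - a‖ ≤ η) :
    ‖∑ k, ∑ i, star ((∑ j, ent (S a) i j • t k j) - t k i * a) *
      ((∑ j, ent (S a) i j • t k j) - t k i * a)‖ ≤ η * (1 + 2 * ‖a‖) := by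
  have hone : ∀ k i, ∑ j, ent (1 : EE n →L[ℂ] EE n) i j • t k j = t k i := by
    intro k i
    simp only [ent_one, ite_smul, one_smul, zero_smul]
    rw [Finset.sum_ite_eq, if_pos (Finset.mem_univ _)]
  have e1 : ∑ k, ∑ i, star (∑ j, ent (S a) i j • t k j) * t k i = kT t (S (star a)) := by
    have h := kT_star_mul t (S a) 1
    rw [mul_one, ← hstar] at h
    rw [← h]
    exact Finset.sum_congr rfl fun k _ => Finset.sum_congr rfl fun i _ => by rw [hone]
  have e2 : ∑ k, ∑ i, star (t k i) * (∑ j, ent (S a) i j • t k j) = kT t (S a) := by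
    have h := kT_star_mul t 1 (S a)
    rw [star_one, one_mul] at h
    rw [← h]
    exact Finset.sum_congr rfl fun k _ => Finset.sum_congr rfl fun i _ => by rw [hone]
  have e3 := kT_star_mul t (S a) (S a)
  set E : A := ∑ k, ∑ i, star ((∑ j, ent (S a) i j • t k j) - t k i * a) *
      ((∑ j, ent (S a) i j • t k j) - t k i * a) with hE
  have e4 : E = kT t (star (S a) * S a) - kT t (S (star a)) * a - star a * kT t (S a) +
      star a * a := by
    have h4 : ∀ k i, star ((∑ j, ent (S a) i j • t k j) - t k i * a) *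
        ((∑ j, ent (S a) i j • t k j) - t k i * a) =
        star (∑ j, ent (S a) i j • t k j) * (∑ j, ent (S a) i j • t k j) -
        (star (∑ j, ent (S a) i j • t k j) * t k i) * a -
        star a * (star (t k i) * (∑ j, ent (S a) i j • t k j)) +
        star a * (star (t k i) * t k i) * a := by
      intro k i
      rw [star_sub, star_mul]
      noncomm_ring
    rw [hE, Finset.sum_congr rfl fun k _ => Finset.sum_congr rfl fun i _ => h4 k i]
    simp only [Finset.sum_add_distrib, Finset.sum_sub_distrib, ← Finset.sum_mul,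
      ← Finset.mul_sum]
    rw [e1, e2, e3, ht, mul_one]
  have hE0 : 0 ≤ E := Finset.sum_nonneg fun k _ => sum_star_mul_nonneg _
  have hpos : 0 ≤ kT t (S (star a * a) - star (S a) * S a) := by
    refine kT_nonneg t _ ?_ ?_
    · have q1 : star (S (star a * a)) = S (star a * a) := by
        rw [← hstar (star a * a), star_mul, star_star]
      have q2 : star (star (S a) * S a) = star (S a) * S a := by
        rw [star_mul, star_star]
      have q3 : star (S (star a * a) - star (S a) * S a) =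
          star (S (star a * a)) - star (star (S a) * S a) := by
        rw [ContinuousLinearMap.star_eq_adjoint, map_sub]
        rfl
      rw [q3, q1, q2]
    · intro ξ
      have h4 := hsch a ξ
      have h5 : (⟪ξ, (star (S a) * S a) ξ⟫_ℂ).re = ‖S a ξ‖ ^ 2 := by
        rw [ContinuousLinearMap.mul_apply, ContinuousLinearMap.star_eq_adjoint,
          ContinuousLinearMap.adjoint_inner_right, inner_self_eq_norm_sq_to_K]
        norm_cast
      rw [ContinuousLinearMap.sub_apply, inner_sub_right, Complex.sub_re, h5]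
      linarith
  have hsub : kT t (S (star a * a) - star (S a) * S a) =
      kT t (S (star a * a)) - kT t (star (S a) * S a) := by
    rw [← kTl_apply, map_sub, kTl_apply, kTl_apply]
  rw [hsub] at hpos
  set R : A := (kT t (S (star a * a)) - star a * a) - (kT t (S (star a)) - star a) * a -
    star a * (kT t (S a) - a) with hR
  have hER : E ≤ R := by
    rw [← sub_nonneg]
    have h4 : R - E = kT t (S (star a * a)) - kT t (star (S a) * S a) := by
      rw [hR, e4]
      noncomm_ring
    rw [h4]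
    exact hpos
  refine (CStarAlgebra.norm_le_norm_of_nonneg_of_le hE0 hER).trans ?_
  have h4 : ‖(kT t (S (star a)) - star a) * a‖ ≤ η * ‖a‖ :=
    (norm_mul_le _ _).trans (mul_le_mul_of_nonneg_right h2 (norm_nonneg _))
  have h5 : ‖star a * (kT t (S a) - a)‖ ≤ ‖a‖ * η := by
    refine (norm_mul_le _ _).trans ?_
    rw [norm_star]
    exact mul_le_mul_of_nonneg_left h3 (norm_nonneg _)
  calc ‖R‖ ≤ ‖(kT t (S (star a * a)) - star a * a) - (kT t (S (star a)) - star a) * a‖ +
        ‖star a * (kT t (S a) - a)‖ := norm_sub_le _ _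
    _ ≤ ‖kT t (S (star a * a)) - star a * a‖ + ‖(kT t (S (star a)) - star a) * a‖ +
        ‖star a * (kT t (S a) - a)‖ := by
        gcongr
        exact norm_sub_le _ _
    _ ≤ η * (1 + 2 * ‖a‖) := by linarith

theorem near_central (hA : KCP A) (F : Finset A) (ε : ℝ) (hε : 0 < ε) :
    ∃ (I : Type) (_ : Fintype I) (t : I → A) (d e : A → I → A),
      ∑ i, star (t i) * t i = 1 ∧ ∀ a ∈ F,
        (∀ V : A →L[ℂ] A →L[ℂ] ℂ,
          ∑ i, (V (a * star (t i)) (t i) - V (star (t i)) (t i * a)) =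
            ∑ i, V (star (d a i)) (t i) + ∑ i, V (star (t i)) (e a i)) ∧
        ‖∑ i, star (d a i) * d a i‖ ≤ ε ∧ ‖∑ i, star (e a i) * e a i‖ ≤ ε := by
  classical
  set N : ℝ := ∑ a ∈ F, ‖a‖ with hN
  have hN0 : 0 ≤ N := Finset.sum_nonneg fun _ _ => norm_nonneg _
  have hNa : ∀ a ∈ F, ‖a‖ ≤ N := fun a ha =>
    Finset.single_le_sum (f := fun a : A => ‖a‖) (fun _ _ => norm_nonneg _) ha
  set η : ℝ := ε / (1 + 2 * N) with hη
  have hη0 : 0 < η := by positivity
  obtain ⟨n, m, S, t, hS1, hstar, hsch, ht, happ⟩ :=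
    hA (F ∪ F.image star ∪ (F.image (fun a => star a * a) ∪ F.image (fun a => a * star a))) η hη0
  have happ' : ∀ a ∈ F ∪ F.image star ∪ (F.image (fun a => star a * a) ∪
      F.image (fun a => a * star a)), ‖kT t (S a) - a‖ ≤ η := happ
  have a1 : ∀ a ∈ F, ‖kT t (S a) - a‖ ≤ η := fun a ha =>
    happ' a (Finset.mem_union_left _ (Finset.mem_union_left _ ha))
  have a2 : ∀ a ∈ F, ‖kT t (S (star a)) - star a‖ ≤ η := fun a ha =>
    happ' _ (Finset.mem_union_left _ (Finset.mem_union_right _ (Finset.mem_image_of_mem _ ha)))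
  have a3 : ∀ a ∈ F, ‖kT t (S (star a * a)) - star a * a‖ ≤ η := fun a ha =>
    happ' _ (Finset.mem_union_right _ (Finset.mem_union_left _
      (Finset.mem_image_of_mem (fun a => star a * a) ha)))
  have a4 : ∀ a ∈ F, ‖kT t (S (a * star a)) - a * star a‖ ≤ η := fun a ha =>
    happ' _ (Finset.mem_union_right _ (Finset.mem_union_right _
      (Finset.mem_image_of_mem (fun a => a * star a) ha)))
  have hηN : ∀ a ∈ F, η * (1 + 2 * ‖a‖) ≤ ε := by
    intro a ha
    have h1 : η * (1 + 2 * ‖a‖) ≤ η * (1 + 2 * N) :=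
      mul_le_mul_of_nonneg_left (by linarith [hNa a ha]) hη0.le
    have h2 : η * (1 + 2 * N) = ε := by
      rw [hη]
      field_simp
    linarith
  refine ⟨Fin m × Fin n, inferInstance, fun i => t i.1 i.2,
    fun a i => t i.1 i.2 * star a - ∑ j, ent (S (star a)) i.2 j • t i.1 j,
    fun a i => (∑ j, ent (S a) i.2 j • t i.1 j) - t i.1 i.2 * a, ?_, ?_⟩
  · rw [Fintype.sum_prod_type]
    exact ht
  intro a ha
  refine ⟨?_, ?_, ?_⟩
  · intro V
    have h1 : ∀ i : Fin m × Fin n, V (star (t i.1 i.2 * star a -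
        ∑ j, ent (S (star a)) i.2 j • t i.1 j)) (t i.1 i.2) =
        V (a * star (t i.1 i.2)) (t i.1 i.2) -
          ∑ j, ent (S a) j i.2 * V (star (t i.1 j)) (t i.1 i.2) := by
      intro i
      have h2 : star (∑ j, ent (S (star a)) i.2 j • t i.1 j) =
          ∑ j, ent (S a) j i.2 • star (t i.1 j) := by
        rw [star_sum]
        refine Finset.sum_congr rfl fun j _ => ?_
        rw [star_smul, hstar, ent_star]
        simp
      rw [star_sub, star_mul, star_star, h2, map_sub, ContinuousLinearMap.sub_apply, map_sum,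
        ContinuousLinearMap.sum_apply]
      congr 1
      refine Finset.sum_congr rfl fun j _ => ?_
      rw [map_smul, ContinuousLinearMap.smul_apply, smul_eq_mul]
    have h2 : ∀ i : Fin m × Fin n, V (star (t i.1 i.2)) ((∑ j, ent (S a) i.2 j • t i.1 j) -
        t i.1 i.2 * a) = ∑ j, ent (S a) i.2 j * V (star (t i.1 i.2)) (t i.1 j) -
          V (star (t i.1 i.2)) (t i.1 i.2 * a) := by
      intro i
      rw [map_sub, map_sum]
      congr 1
      refine Finset.sum_congr rfl fun j _ => ?_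
      rw [map_smul, smul_eq_mul]
    have h3 : ∑ i : Fin m × Fin n, ∑ j, ent (S a) j i.2 * V (star (t i.1 j)) (t i.1 i.2) =
        ∑ i : Fin m × Fin n, ∑ j, ent (S a) i.2 j * V (star (t i.1 i.2)) (t i.1 j) := by
      rw [Fintype.sum_prod_type, Fintype.sum_prod_type]
      refine Finset.sum_congr rfl fun k _ => ?_
      exact Finset.sum_comm
    show _ = ∑ i : Fin m × Fin n, V (star (t i.1 i.2 * star a -
        ∑ j, ent (S (star a)) i.2 j • t i.1 j)) (t i.1 i.2) +
        ∑ i : Fin m × Fin n, V (star (t i.1 i.2)) ((∑ j, ent (S a) i.2 j • t i.1 j) -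
        t i.1 i.2 * a)
    rw [Finset.sum_congr rfl fun i _ => h1 i, Finset.sum_congr rfl fun i _ => h2 i,
      Finset.sum_sub_distrib, Finset.sum_sub_distrib, Finset.sum_sub_distrib, h3]
    ring
  · have h1 := Near_norm S t hstar hsch ht (star a) (η := η) (by rw [star_star]; exact a4 a ha)
      (by rw [star_star]; exact a1 a ha) (a2 a ha)
    rw [norm_star] at h1
    refine le_trans (le_of_eq ?_) (h1.trans (hηN a ha))
    rw [Fintype.sum_prod_type]
    congr 1
    refine Finset.sum_congr rfl fun k _ => Finset.sum_congr rfl fun i _ => ?_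
    show star (t k i * star a - ∑ j, ent (S (star a)) i j • t k j) *
      (t k i * star a - ∑ j, ent (S (star a)) i j • t k j) = _
    rw [← neg_sub (∑ j, ent (S (star a)) i j • t k j) (t k i * star a), star_neg, neg_mul_neg]
  · have h1 := Near_norm S t hstar hsch ht a (η := η) (a3 a ha) (a2 a ha) (a1 a ha)
    refine le_trans (le_of_eq ?_) (h1.trans (hηN a ha))
    rw [Fintype.sum_prod_type]

end Pool.Agent.MP_86f3ed.Am
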