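import Pool.Agent.H.MP_86f3ed_an.Am.GamA
import Pool.Agent.H.MP_86f3ed_an.Am.Minimax
import Pool.Agent.H.MP_86f3ed_an.Am.Near

/-!
# Am/Bad: `KCP A` gives bounded approximate diagonals (bound `9`)

Given `F`, `ε`. Let `f = card F + 1`. Take `near_central hA F ε'` with `0 < ε' ≤ 1`. Apply
`minimax` (with `δ = ε'`) to the families indexed by `R = Option (Fin F.card × Bool)`
(`F.equivFin.symm` enumerates `F`; the index types must be in `Type`) over the index type `I`: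
* `x none i = star (t i)`, `K = 2`, `p = 1` (`∑ x x* = ∑ t* t = 1`; `‖1‖ ≤ 1`);
* `x (a,0) i = star (d a i)`, `K = 4f`, `p = ε'` (`∑ x x* = ∑ d* d`);
* `x (a,1) i = star (e a i)`, `K = 4f`, `p = ε'`.
`∑ 1/K = 1/2 + 2 card F/(4f) ≤ 1`. Result: `z` with `Zf z`, and
`‖Ψ_z(∑ t t*)‖ ≤ 2(1+ε') `, `‖Ψ_z(∑ d d*)‖ ≤ 8 f ε'`, `‖Ψ_z(∑ e e*)‖ ≤ 8 f ε'`.
The tensor: index type `L × I`, `p (l,i) = star (t i) * star (z l)`, `q (l,i) = z l * t i`.
* `∑ p q = ∑_i t_i* (∑_l z_l* z_l) t_i = 1`.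
* `|∑ V(p,q)| ≤ 4‖V‖ √α √β ≤ 9‖V‖` by `gam_A` with `α = β = 9/4` (take `ε' ≤ 1/8`):
  `∑ p p* = ∑ t_i* z_l* z_l t_i = 1`, `∑ p* p = ∑ z_l t_i t_i* z_l* = Ψ_z(∑ t t*)`, norm
  `≤ 2(1 + 1/8) = 9/4`; `q = p*`.
* For `a ∈ F` let `V_l(u,v) = V(u z_l*, z_l v)` (a bounded bilinear form: compose `V` with the
  continuous linear maps `ContinuousLinearMap.mul` right/left multiplication). Then
  `∑ V(a p,q) - V(p,q a) = ∑_l ∑_i (V_l(a t_i*, t_i) - V_l(t_i*, t_i a))
   = ∑_l ∑_i V(d_i* z_l*, z_l t_i) + ∑_l ∑_i V(t_i* z_l*, z_l e_i)`.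
  `gam_A` for each of the two sums: the family `d_i* z_l*` has
  `∑ (d_i* z_l*)(d_i* z_l*)* = ∑ d_i* z_l* z_l d_i = ∑ d* d`, norm `≤ ε' ≤ 8fε'`, and
  `∑ (d_i* z_l*)* (d_i* z_l*) = ∑ z_l d_i d_i* z_l* = Ψ_z(∑ d d*)`, norm `≤ 8fε'`; the family
  `z_l e_i` in the same way (`∑ (z_l e_i)* (z_l e_i) = ∑ e* e`,
  `∑ (z_l e_i)(z_l e_i)* = Ψ_z(∑ e e*)`). So each sum is `≤ 4‖V‖ √(8fε') (3/2)`, the total is
  `≤ 12 ‖V‖ √(8 f ε') ≤ ε‖V‖` if `ε' ≤ ε²/(1152 f)`.
-/

open scoped InnerProductSpace ComplexConjugate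

namespace Pool.Agent.MP_86f3ed.Am

universe u

variable {A : Type u} [CStarAlgebra A]

/-- The sum of squares of the family `z_l c_i` when `∑ z_l* z_l = 1`. -/
theorem Bad_sum1 {L I : Type} [Fintype L] [Fintype I] {z : L → A} (hz : Zf z) (c : I → A) :
    ∑ p : L × I, star (z p.1 * c p.2) * (z p.1 * c p.2) = ∑ i, star (c i) * c i := by
  have h1 : ∀ p : L × I, star (z p.1 * c p.2) * (z p.1 * c p.2) =
      star (c p.2) * (star (z p.1) * z p.1) * c p.2 := fun p => by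
    rw [star_mul]; simp only [mul_assoc]
  simp only [h1]
  rw [Fintype.sum_prod_type_right]
  refine Finset.sum_congr rfl fun i _ => ?_
  dsimp only
  rw [← Finset.sum_mul, ← Finset.mul_sum, hz, mul_one]

theorem Bad_sum2 {L I : Type} [Fintype L] [Fintype I] (z : L → A) (c : I → A) :
    ∑ p : L × I, (z p.1 * c p.2) * star (z p.1 * c p.2) = Psi z (∑ i, c i * star (c i)) := by
  rw [Psi, Fintype.sum_prod_type]
  refine Finset.sum_congr rfl fun l _ => ?_
  rw [Finset.mul_sum, Finset.sum_mul]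
  refine Finset.sum_congr rfl fun i _ => ?_
  simp only [star_mul, mul_assoc]

/-- The bilinear form `V(u z*, z v)`. -/
noncomputable def Bad_form (V : A →L[ℂ] A →L[ℂ] ℂ) (z : A) : A →L[ℂ] A →L[ℂ] ℂ :=
  ((V.comp ((ContinuousLinearMap.mul ℂ A).flip (star z))).flip.comp
    (ContinuousLinearMap.mul ℂ A z)).flip

theorem Bad_form_apply (V : A →L[ℂ] A →L[ℂ] ℂ) (z u v : A) :
    Bad_form V z u v = V (u * star z) (z * v) := by
  simp [Bad_form]

theorem Bad_pair [PartialOrder A] [StarOrderedRing A] (hA : KCP A) (V : A →L[ℂ] A →L[ℂ] ℂ)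
    {L I : Type} [Fintype L] [Fintype I]
    {z : L → A} (hz : Zf z) (c c' : I → A) {α β : ℝ}
    (h1 : ‖∑ i, star (c i) * c i‖ ≤ α) (h2 : ‖Psi z (∑ i, c i * star (c i))‖ ≤ α)
    (h3 : ‖∑ i, star (c' i) * c' i‖ ≤ β) (h4 : ‖Psi z (∑ i, c' i * star (c' i))‖ ≤ β) :
    ‖∑ p : L × I, V (star (c p.2) * star (z p.1)) (z p.1 * c' p.2)‖ ≤ 4 * ‖V‖ * (√α * √β) := by
  have h := gam_A hA V (fun p : L × I => star (z p.1 * c p.2)) (fun p : L × I => z p.1 * c' p.2)
    (α := α) (β := β)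
    (by simp only [star_star]; rw [Bad_sum2]; exact h2)
    (by simp only [star_star]; rw [Bad_sum1 hz]; exact h1)
    (by rw [Bad_sum1 hz]; exact h3)
    (by rw [Bad_sum2]; exact h4)
  simpa only [star_mul] using h

theorem Bad_eps (f ε : ℝ) (hf : 0 < f) (hε : 0 < ε) :
    ∃ ε' : ℝ, 0 < ε' ∧ ε' ≤ 1 / 8 ∧ ε' ≤ 8 * f * ε' + ε' ∧ 1152 * f * ε' ≤ ε ^ 2 := by
  have h1 : 0 < ε ^ 2 / (1152 * f) := by positivity
  refine ⟨min (1 / 8) (ε ^ 2 / (1152 * f)), lt_min (by norm_num) h1, min_le_left _ _, ?_, ?_⟩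
  · have h2 : 0 < min (1 / 8) (ε ^ 2 / (1152 * f)) := lt_min (by norm_num) h1
    have : 0 ≤ 8 * f * min (1 / 8) (ε ^ 2 / (1152 * f)) := by positivity
    linarith
  · have h3 : min (1 / 8) (ε ^ 2 / (1152 * f)) ≤ ε ^ 2 / (1152 * f) := min_le_right _ _
    rw [le_div_iff₀ (by positivity)] at h3
    linarith

theorem bad_of_kcp (hA : KCP A) : BAD A 9 := by
  letI : PartialOrder A := CStarAlgebra.spectralOrder A
  haveI : StarOrderedRing A := CStarAlgebra.spectralOrderedRing A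
  classical
  intro F ε hε
  obtain ⟨f, hf⟩ : ∃ f : ℝ, f = (F.card : ℝ) + 1 := ⟨_, rfl⟩
  have hf1 : 1 ≤ f := by
    have : (0 : ℝ) ≤ F.card := Nat.cast_nonneg _
    linarith
  have hf0 : 0 < f := by linarith
  obtain ⟨ε', h0, h18, -, hsm⟩ := Bad_eps f ε hf0 hε
  obtain ⟨I, _, t, d, e, ht, hF⟩ := near_central hA F ε' h0
  have hcard : (F.card : ℝ) = f - 1 := by linarith
  have h8 : ε' ≤ 8 * f * ε' := by nlinarith
  obtain ⟨L, _, z, hz, hPt, hPd, hPe⟩ : ∃ (L : Type) (_ : Fintype L) (z : L → A), Zf z ∧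
      ‖Psi z (∑ i, t i * star (t i))‖ ≤ 9 / 4 ∧
      (∀ a ∈ F, ‖Psi z (∑ i, d a i * star (d a i))‖ ≤ 8 * f * ε') ∧
      (∀ a ∈ F, ‖Psi z (∑ i, e a i * star (e a i))‖ ≤ 8 * f * ε') := by
    obtain ⟨en, hen⟩ : ∃ en : Fin F.card → A, (∀ k, en k ∈ F) ∧ ∀ a ∈ F, ∃ k, en k = a :=
      ⟨fun k => (F.equivFin.symm k : A), fun k => (F.equivFin.symm k).2,
        fun a ha => ⟨F.equivFin ⟨a, ha⟩, by simp⟩⟩
    obtain ⟨L, hL, z, hz, h⟩ := minimax (R := Option (Fin F.card × Bool)) (I := I)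
      (fun r i => Option.elim r (star (t i))
        (fun kb => if kb.2 then star (e (en kb.1) i) else star (d (en kb.1) i)))
      (fun r => Option.elim r 2 (fun _ => 4 * f))
      (fun r => Option.elim r 1 (fun _ => ε'))
      (by rintro (_ | r) <;> simp only [Option.elim] <;> positivity)
      (by
        rw [Fintype.sum_option]
        simp only [Option.elim, Finset.sum_const, Finset.card_univ, Fintype.card_prod,
          Fintype.card_fin, Fintype.card_bool, nsmul_eq_mul, Nat.cast_mul, hcard]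
        have h5 : (f - 1) * (2 : ℕ) * (1 / (4 * f)) ≤ 1 / 2 := by
          rw [mul_one_div, div_le_div_iff₀ (by positivity) (by norm_num)]
          push_cast
          linarith
        linarith)
      (by
        rintro (_ | ⟨k, b⟩)
        · simp only [Option.elim, star_star]
          rw [ht]
          exact Minimax_norm_one_le
        · cases b
          · simp only [Option.elim, Bool.false_eq_true, if_false, star_star]
            exact (hF _ (hen.1 k)).2.1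
          · simp only [Option.elim, if_true, star_star]
            exact (hF _ (hen.1 k)).2.2)
      ε' h0
    refine ⟨L, hL, z, hz, ?_, ?_, ?_⟩
    · have h6 := h none
      simp only [Option.elim, star_star] at h6
      refine h6.trans ?_
      linarith
    · intro a ha
      obtain ⟨k, rfl⟩ := hen.2 a ha
      have h6 := h (some (k, false))
      simp only [Option.elim, Bool.false_eq_true, if_false, star_star] at h6
      refine h6.trans (le_of_eq (by ring))
    · intro a ha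
      obtain ⟨k, rfl⟩ := hen.2 a ha
      have h6 := h (some (k, true))
      simp only [Option.elim, if_true, star_star] at h6
      refine h6.trans (le_of_eq (by ring))
  have ht' : ‖∑ i, star (t i) * t i‖ ≤ 9 / 4 := by
    rw [ht]
    exact Minimax_norm_one_le.trans (by norm_num)
  have hs94 : √((9 : ℝ) / 4) = 3 / 2 := by
    rw [show (9 : ℝ) / 4 = (3 / 2) ^ 2 by norm_num]
    exact Real.sqrt_sq (by norm_num)
  have hs8 : √(8 * f * ε') ≤ ε / 12 := by
    rw [show ε / 12 = √((ε / 12) ^ 2) from (Real.sqrt_sq (by positivity)).symm]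
    refine Real.sqrt_le_sqrt ?_
    nlinarith
  refine ⟨L × I, inferInstance, fun p => star (t p.2) * star (z p.1), fun p => z p.1 * t p.2,
    ?_, ?_, ?_⟩
  · rw [← ht, ← Bad_sum1 hz t]
    exact Finset.sum_congr rfl fun p _ => by rw [star_mul]
  · intro V
    refine (Bad_pair hA V hz t t ht' hPt ht' hPt).trans (le_of_eq ?_)
    rw [hs94]
    ring
  · intro V a ha
    obtain ⟨hid, hd, he⟩ := hF a ha
    have hsplit : ∑ p : L × I, (V (a * (star (t p.2) * star (z p.1))) (z p.1 * t p.2) -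
        V (star (t p.2) * star (z p.1)) (z p.1 * t p.2 * a)) =
        ∑ p : L × I, V (star (d a p.2) * star (z p.1)) (z p.1 * t p.2) +
        ∑ p : L × I, V (star (t p.2) * star (z p.1)) (z p.1 * e a p.2) := by
      rw [Fintype.sum_prod_type, Fintype.sum_prod_type, Fintype.sum_prod_type,
        ← Finset.sum_add_distrib]
      refine Finset.sum_congr rfl fun l _ => ?_
      have h7 := hid (Bad_form V (z l))
      simp only [Bad_form_apply] at h7
      simp only [← mul_assoc] at h7 ⊢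
      exact h7
    rw [hsplit]
    have h8a := Bad_pair hA V hz (d a) t (hd.trans h8) (hPd a ha) ht' hPt
    have h8b := Bad_pair hA V hz t (e a) ht' hPt (he.trans h8) (hPe a ha)
    rw [hs94] at h8a h8b
    refine (norm_add_le _ _).trans ?_
    have h9 : ‖V‖ * √(8 * f * ε') ≤ ‖V‖ * (ε / 12) :=
      mul_le_mul_of_nonneg_left hs8 (norm_nonneg V)
    nlinarith

/-- Passing from subalgebras (more generally: images of *-homomorphisms) to `A`. -/
theorem bad_local {C : ℝ} (hC : 0 ≤ C)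
    (h : ∀ F : Finset A, ∃ (B : Type u) (_ : CStarAlgebra B) (φ : B →⋆ₐ[ℂ] A),
      BAD B C ∧ ∀ a ∈ F, ∃ b, φ b = a) : BAD A C := by
  classical
  intro F ε hε
  obtain ⟨B, _, φ, hB, hF⟩ := h F
  choose! g hg using hF
  obtain ⟨I, hI, p, q, h1, h2, h3⟩ := hB (F.image g) ε hε
  have hφ : ∀ b : B, ‖φ b‖ ≤ ‖b‖ := fun b => NonUnitalStarAlgHom.norm_apply_le φ b
  obtain ⟨Φ, hΦ⟩ : ∃ Φ : B →L[ℂ] A, ∀ b, Φ b = φ b :=
    ⟨LinearMap.mkContinuous (φ.toAlgHom.toLinearMap) 1 (fun b => by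
      rw [one_mul]; exact hφ b), fun b => rfl⟩
  have key : ∀ V : A →L[ℂ] A →L[ℂ] ℂ, ∃ W : B →L[ℂ] B →L[ℂ] ℂ,
      (∀ b c, W b c = V (φ b) (φ c)) ∧ ‖W‖ ≤ ‖V‖ := by
    intro V
    have hW : ∀ b c, ((V.comp Φ).flip.comp Φ).flip b c = V (φ b) (φ c) := fun b c => by
      simp [hΦ]
    refine ⟨((V.comp Φ).flip.comp Φ).flip, hW, ?_⟩
    refine ContinuousLinearMap.opNorm_le_bound₂ _ (norm_nonneg V) fun b c => ?_
    rw [hW]
    refine (V.le_opNorm₂ _ _).trans ?_
    gcongr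
    · exact hφ b
    · exact hφ c
  refine ⟨I, hI, fun i => φ (p i), fun i => φ (q i), ?_, ?_, ?_⟩
  · rw [← map_one φ, ← h1, map_sum]
    exact Finset.sum_congr rfl fun i _ => (map_mul φ _ _).symm
  · intro V
    obtain ⟨W, hW, hWn⟩ := key V
    have h4 := h2 W
    simp only [hW] at h4
    exact h4.trans (mul_le_mul_of_nonneg_left hWn hC)
  · intro V a ha
    obtain ⟨W, hW, hWn⟩ := key V
    have h4 := h3 W (g a) (Finset.mem_image_of_mem g ha)
    simp only [hW, map_mul, hg a ha] at h4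
    exact h4.trans (mul_le_mul_of_nonneg_left hWn hε.le)

end Pool.Agent.MP_86f3ed.Am
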