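import Pool.Agent.H.MP_86f3ed_an.Trc.Public

/-!
# Am/Defs: definitions for: completely positive approximation property implies amenable

* `Amenable A`: B. E. Johnson's amenability, literally: every bounded derivation of `A` into a dual
  Banach bimodule is inner.
* `EE n = ℂⁿ`, matrices `M_n` are the operators `EE n →L[ℂ] EE n`, `ent b i j` the entries.
* `KCP A` (`A` unital): the completely positive approximation property in Kraus form.
* `BAD A C`: bounded approximate diagonals, tested against bounded bilinear forms.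
-/

open scoped InnerProductSpace

namespace Pool.Agent.MP_86f3ed

universe u v

/-- Amenability in the sense of B. E. Johnson: for every Banach bimodule `X`, every bounded
derivation `D` from `A` into the dual of `X` is inner, `D a = a · ξ - ξ · a`. -/
def Amenable (A : Type u) [NonUnitalCStarAlgebra A] : Prop :=
  ∀ (X : Type v) [NormedAddCommGroup X] [NormedSpace ℂ X] [CompleteSpace X]
    (B : BanachBimodule A X) (D : A →L[ℂ] StrongDual ℂ X), IsDualDerivation B D →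
    ∃ ξ : StrongDual ℂ X, ∀ a, D a = ξ.comp (B.R a) - ξ.comp (B.L a)

namespace Am

/-- `ℂⁿ` as a Hilbert space. -/
abbrev EE (n : ℕ) := EuclideanSpace ℂ (Fin n)

/-- The matrix entries of an operator on `ℂⁿ`. -/
noncomputable def ent {n : ℕ} (b : EE n →L[ℂ] EE n) (i j : Fin n) : ℂ :=
  (b (EuclideanSpace.single j 1)) i

/-- The completely positive approximation property in Kraus form: the identity of `A` is
approximated on finite sets by `T ∘ S`, where `S : A → M_n` is unital, *-preserving and satisfies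
the Schwarz inequality `S(a)* S(a) ≤ S(a* a)`, and where `T(b) = ∑ₖ ∑ᵢⱼ tₖᵢ* bᵢⱼ tₖⱼ`,
`∑ₖᵢ tₖᵢ* tₖᵢ = 1`. -/
def KCP (A : Type u) [CStarAlgebra A] : Prop :=
  ∀ (F : Finset A) (ε : ℝ), 0 < ε → ∃ (n m : ℕ) (S : A →ₗ[ℂ] (EE n →L[ℂ] EE n))
    (t : Fin m → Fin n → A),
    S 1 = 1 ∧ (∀ a, S (star a) = star (S a)) ∧
    (∀ a ξ, ‖S a ξ‖ ^ 2 ≤ (⟪ξ, S (star a * a) ξ⟫_ℂ).re) ∧
    ∑ k, ∑ i, star (t k i) * t k i = 1 ∧
    ∀ a ∈ F, ‖∑ k, ∑ i, ∑ j, (ent (S a) i j) • (star (t k i) * t k j) - a‖ ≤ ε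

/-- Bounded approximate diagonals with bound `C`, tested against bounded bilinear forms. -/
def BAD (A : Type u) [CStarAlgebra A] (C : ℝ) : Prop :=
  ∀ (F : Finset A) (ε : ℝ), 0 < ε → ∃ (I : Type) (_ : Fintype I) (p q : I → A),
    ∑ i, p i * q i = 1 ∧
    (∀ V : A →L[ℂ] A →L[ℂ] ℂ, ‖∑ i, V (p i) (q i)‖ ≤ C * ‖V‖) ∧
    ∀ V : A →L[ℂ] A →L[ℂ] ℂ, ∀ a ∈ F,
      ‖∑ i, (V (a * p i) (q i) - V (p i) (q i * a))‖ ≤ ε * ‖V‖

/-- Row and column bound of a finite family of matrices: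
`∑ xⱼ* xⱼ ≤ α` and `∑ xⱼ xⱼ* ≤ α`. -/
def RC {n : ℕ} {J : Type} [Fintype J] (α : ℝ) (x : J → (EE n →L[ℂ] EE n)) : Prop :=
  ∀ ξ, ∑ j, ‖x j ξ‖ ^ 2 ≤ α * ‖ξ‖ ^ 2 ∧ ∑ j, ‖(star (x j)) ξ‖ ^ 2 ≤ α * ‖ξ‖ ^ 2

/-- The `Γ`-inequality for the bilinear form `V` on `M_n`. -/
def Gam {n : ℕ} (V : (EE n →L[ℂ] EE n) →ₗ[ℂ] (EE n →L[ℂ] EE n) →ₗ[ℂ] ℂ) (Γ : ℝ) : Prop :=
  ∀ (J : Type) [Fintype J] (x y : J → (EE n →L[ℂ] EE n)), RC 1 x → RC 1 y →
    ‖∑ j, V (x j) (y j)‖ ≤ Γ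

/-- The map `T(b) = ∑ₖ ∑ᵢⱼ tₖᵢ* bᵢⱼ tₖⱼ`. -/
noncomputable def kT {A : Type u} [CStarAlgebra A] {n m : ℕ} (t : Fin m → Fin n → A)
    (b : EE n →L[ℂ] EE n) : A :=
  ∑ k, ∑ i, ∑ j, (ent b i j) • (star (t k i) * t k j)

/-- Finite families `z` with `∑ z_l* z_l = 1`. -/
def Zf {A : Type u} [CStarAlgebra A] {L : Type} [Fintype L] (z : L → A) : Prop :=
  ∑ l, star (z l) * z l = 1

/-- `Ψ_z(c) = ∑ z_l c z_l*`. -/
noncomputable def Psi {A : Type u} [CStarAlgebra A] {L : Type} [Fintype L] (z : L → A) (c : A) :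
    A :=
  ∑ l, z l * c * star (z l)

end Am

end Pool.Agent.MP_86f3ed
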