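import Pool.Agent.H.MP_86f3ed_an.Am.Defs

/-!
# Am/Der: bounded approximate diagonals make derivations inner

`A` unital with `BAD A C`, `B` a Banach bimodule on which `1` acts as the identity, `D` a bounded
derivation into the dual. Let `M ≥ 0` be the bound of the actions (`B.bounded`; replace `M` by
`max M 0`).

Given a finite set `F` and `ε > 0`, take `p, q` from `BAD` for `F`, `ε` and put
`ξ = ∑ (D (q i)).comp (B.R (p i))`. For `x : X` let `V_x(u,v) = D v (B.R u x)`, a bounded bilinear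
form with `‖V_x‖ ≤ M ‖D‖ ‖x‖` (build it with `LinearMap.mkContinuous₂`).
* `|ξ x| = |∑ V_x(p_i,q_i)| ≤ C M ‖D‖ ‖x‖`, so `‖ξ‖ ≤ r := |C| M ‖D‖`.
* `(ξ.comp (B.R a) - ξ.comp (B.L a)) x = ∑ (V_x(a p_i, q_i) - V_x(p_i, q_i a)) + D a x`:
  `D q (R p (R a x)) = D q (R (a p) x)` (`R_mul : R (ab) = R b ∘ R a`),
  `D q (R p (L a x)) = D q (L a (R p x))` (`L_R`) `= D (q a) (R p x) - D a (R q (R p x))`
  (derivation rule `D (q a) = (D a).comp (R q) + (D q).comp (L a)`), and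
  `R q (R p x) = R (p q) x`, `∑ p q = 1`, `R 1 = 1`.
So `‖(ξ.comp (B.R a) - ξ.comp (B.L a) - D a) x‖ ≤ ε M ‖D‖ ‖x‖` for `a ∈ F`.
* Compactness: let `K ⊂ WeakDual ℂ X` be the closed ball of radius `r`
  (`WeakDual.isCompact_closedBall`). For every triple `(a, x)` and every `ε > 0` the set
  `{ξ ∈ K : |ξ (R a x) - ξ (L a x) - D a x| ≤ ε}` is closed (evaluations are weak*-continuous) and
  finitely many of these sets have a common point in `K` (take `F` = the finite set of the `a`'s and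
  a small `ε`). By `IsCompact.inter_iInter_nonempty` (or the cluster point of a net) there is
  `ξ ∈ K` with `ξ (R a x) - ξ (L a x) = D a x` for all `a`, `x`.
-/

open scoped InnerProductSpace ComplexConjugate

namespace Pool.Agent.MP_86f3ed.Am

universe u v

/-- The bilinear form `V_x(u,v) = D v (B.R u x)`. -/
theorem Der_form {A : Type u} [CStarAlgebra A] {X : Type v}
    [NormedAddCommGroup X] [NormedSpace ℂ X] (B : BanachBimodule A X)
    (D : A →L[ℂ] StrongDual ℂ X) {M : ℝ} (hM0 : 0 ≤ M) (hM : ∀ a, ‖B.R a‖ ≤ M * ‖a‖) (x : X) :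
    ∃ V : A →L[ℂ] A →L[ℂ] ℂ, (∀ p q, V p q = D q (B.R p x)) ∧ ‖V‖ ≤ M * ‖D‖ * ‖x‖ := by
  let f : A →ₗ[ℂ] A →ₗ[ℂ] ℂ := LinearMap.mk₂ ℂ (fun p q => D q (B.R p x))
    (by intro a b c; simp [B.R_add])
    (by intro z a c; simp [B.R_smul])
    (by intro a b c; simp)
    (by intro z a c; simp)
  have hf : ∀ p q, ‖f p q‖ ≤ (M * ‖D‖ * ‖x‖) * ‖p‖ * ‖q‖ := by
    intro p q
    change ‖D q (B.R p x)‖ ≤ _
    calc ‖D q (B.R p x)‖ ≤ ‖D q‖ * ‖B.R p x‖ := (D q).le_opNorm _
      _ ≤ (‖D‖ * ‖q‖) * ((M * ‖p‖) * ‖x‖) := by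
          apply mul_le_mul (D.le_opNorm q) _ (norm_nonneg _) (by positivity)
          exact ((B.R p).le_opNorm x).trans
            (mul_le_mul_of_nonneg_right (hM p) (norm_nonneg _))
      _ = (M * ‖D‖ * ‖x‖) * ‖p‖ * ‖q‖ := by ring
  exact ⟨f.mkContinuous₂ _ hf, fun p q => rfl,
    LinearMap.mkContinuous₂_norm_le f (by positivity) hf⟩

theorem approx_inner {A : Type u} [CStarAlgebra A] {C : ℝ} (hA : BAD A C) {X : Type v}
    [NormedAddCommGroup X] [NormedSpace ℂ X] (B : BanachBimodule A X) (hR : B.R 1 = 1)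
    (D : A →L[ℂ] StrongDual ℂ X) (hD : IsDualDerivation B D) :
    ∃ r : ℝ, ∀ (F : Finset A) (ε : ℝ), 0 < ε → ∃ ξ : StrongDual ℂ X, ‖ξ‖ ≤ r ∧
      ∀ a ∈ F, ‖ξ.comp (B.R a) - ξ.comp (B.L a) - D a‖ ≤ ε := by
  obtain ⟨M', hM'⟩ := B.bounded
  obtain ⟨M, hM0, hM⟩ : ∃ M : ℝ, 0 ≤ M ∧ ∀ a, ‖B.R a‖ ≤ M * ‖a‖ :=
    ⟨max M' 0, le_max_right _ _, fun a => (hM' a).2.trans
      (mul_le_mul_of_nonneg_right (le_max_left _ _) (norm_nonneg _))⟩
  refine ⟨|C| * (M * ‖D‖), fun F ε hε => ?_⟩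
  have hpos : 0 < M * ‖D‖ + 1 := by positivity
  obtain ⟨I, _, p, q, h1, h2, h3⟩ := hA F (ε / (M * ‖D‖ + 1)) (div_pos hε hpos)
  have hξ : ∀ x : X, (∑ i, (D (q i)).comp (B.R (p i)) : StrongDual ℂ X) x
      = ∑ i, D (q i) (B.R (p i) x) := by
    intro x
    rw [sum_apply]
    rfl
  refine ⟨∑ i, (D (q i)).comp (B.R (p i)), ?_, ?_⟩
  · refine ContinuousLinearMap.opNorm_le_bound _ (by positivity) fun x => ?_
    obtain ⟨V, hV, hVn⟩ := Der_form B D hM0 hM x
    rw [hξ]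
    have := h2 V
    simp only [hV] at this
    calc _ ≤ C * ‖V‖ := this
      _ ≤ |C| * ‖V‖ := by
          have hV0 := ContinuousLinearMap.opNorm_nonneg V
          exact mul_le_mul_of_nonneg_right (le_abs_self _) hV0
      _ ≤ |C| * (M * ‖D‖ * ‖x‖) := mul_le_mul_of_nonneg_left hVn (abs_nonneg _)
      _ = |C| * (M * ‖D‖) * ‖x‖ := by ring
  · intro a ha
    refine ContinuousLinearMap.opNorm_le_bound _ hε.le fun x => ?_
    obtain ⟨V, hV, hVn⟩ := Der_form B D hM0 hM x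
    have key : ((∑ i, (D (q i)).comp (B.R (p i)) : StrongDual ℂ X).comp (B.R a)
        - (∑ i, (D (q i)).comp (B.R (p i)) : StrongDual ℂ X).comp (B.L a) - D a) x
        = ∑ i, (V (a * p i) (q i) - V (p i) (q i * a)) := by
      have e1 : ((∑ i, (D (q i)).comp (B.R (p i)) : StrongDual ℂ X).comp (B.R a)
          - (∑ i, (D (q i)).comp (B.R (p i)) : StrongDual ℂ X).comp (B.L a) - D a) x
          = ∑ i, D (q i) (B.R (p i) (B.R a x)) - ∑ i, D (q i) (B.R (p i) (B.L a x)) - D a x := by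
        rw [sub_apply, sub_apply,
          ContinuousLinearMap.comp_apply, ContinuousLinearMap.comp_apply, hξ, hξ]
      rw [e1]
      have e2 : D a x = ∑ i, D a (B.R (q i) (B.R (p i) x)) := by
        have : ∀ i, B.R (q i) (B.R (p i) x) = B.R (p i * q i) x := by
          intro i
          rw [B.R_mul]
          rfl
        simp only [this]
        rw [← map_sum]
        congr 1
        let φ : A →ₗ[ℂ] X :=
          { toFun := fun u => B.R u x
            map_add' := by intro u w; simp [B.R_add]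
            map_smul' := by intro z w; simp [B.R_smul] }
        have h5 : ∑ i, B.R (p i * q i) x = φ (∑ i, p i * q i) := by
          rw [map_sum]
          rfl
        rw [h5, h1]
        change x = B.R 1 x
        rw [hR]
        rfl
      rw [e2, ← Finset.sum_sub_distrib, ← Finset.sum_sub_distrib]
      refine Finset.sum_congr rfl fun i _ => ?_
      rw [hV, hV, hD (q i) a, B.R_mul]
      have e3 : B.R (p i) (B.L a x) = B.L a (B.R (p i) x) := by
        have := congrArg (fun T : X →L[ℂ] X => T x) (B.L_R a (p i))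
        exact this.symm
      rw [e3]
      simp only [ContinuousLinearMap.comp_apply, add_apply]
      ring
    rw [key]
    calc _ ≤ ε / (M * ‖D‖ + 1) * ‖V‖ := h3 V a ha
      _ ≤ ε / (M * ‖D‖ + 1) * (M * ‖D‖ * ‖x‖) :=
          mul_le_mul_of_nonneg_left hVn (div_pos hε hpos).le
      _ ≤ ε / (M * ‖D‖ + 1) * ((M * ‖D‖ + 1) * ‖x‖) := by
          apply mul_le_mul_of_nonneg_left _ (div_pos hε hpos).le
          apply mul_le_mul_of_nonneg_right _ (norm_nonneg _)
          linarith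
      _ = ε * ‖x‖ := by field_simp

theorem inner_of_approx {A : Type u} [CStarAlgebra A] {X : Type v}
    [NormedAddCommGroup X] [NormedSpace ℂ X] (B : BanachBimodule A X)
    (D : A →L[ℂ] StrongDual ℂ X) (r : ℝ)
    (h : ∀ (F : Finset A) (ε : ℝ), 0 < ε → ∃ ξ : StrongDual ℂ X, ‖ξ‖ ≤ r ∧
      ∀ a ∈ F, ‖ξ.comp (B.R a) - ξ.comp (B.L a) - D a‖ ≤ ε) :
    ∃ ξ : StrongDual ℂ X, ∀ a, D a = ξ.comp (B.R a) - ξ.comp (B.L a) := by
  classical
  let K : Set (WeakDual ℂ X) := WeakDual.toStrongDual ⁻¹' Metric.closedBall (0 : StrongDual ℂ X) r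
  have hK : IsCompact K := WeakDual.isCompact_closedBall (0 : StrongDual ℂ X) r
  let t : (A × X × {e : ℝ // 0 < e}) → Set (WeakDual ℂ X) := fun w =>
    {ξ | ‖ξ (B.R w.1 w.2.1) - ξ (B.L w.1 w.2.1) - D w.1 w.2.1‖ ≤ w.2.2.1}
  have ht : ∀ w, IsClosed (t w) := by
    intro w
    have hc : Continuous fun ξ : WeakDual ℂ X =>
        ‖ξ (B.R w.1 w.2.1) - ξ (B.L w.1 w.2.1) - D w.1 w.2.1‖ := by
      have c1 : Continuous fun ξ : WeakDual ℂ X => ξ (B.R w.1 w.2.1) :=
        WeakDual.eval_continuous _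
      have c2 : Continuous fun ξ : WeakDual ℂ X => ξ (B.L w.1 w.2.1) :=
        WeakDual.eval_continuous _
      exact ((c1.sub c2).sub continuous_const).norm
    exact isClosed_le hc continuous_const
  obtain ⟨ξ, hξK, hξ⟩ := hK.inter_iInter_nonempty t ht (by
    intro u
    -- a common small parameter
    obtain ⟨δ, hδ, hδu⟩ : ∃ δ : ℝ, 0 < δ ∧ ∀ w ∈ u, δ * ‖w.2.1‖ ≤ w.2.2.1 := by
      induction u using Finset.induction_on with
      | empty => exact ⟨1, one_pos, by simp⟩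
      | insert w u _ ih =>
        obtain ⟨δ, hδ, hδu⟩ := ih
        have hw : 0 < w.2.2.1 / (‖w.2.1‖ + 1) := div_pos w.2.2.2 (by positivity)
        refine ⟨min δ (w.2.2.1 / (‖w.2.1‖ + 1)), lt_min hδ hw, ?_⟩
        intro w' hw'
        rcases Finset.mem_insert.1 hw' with rfl | hw'
        · calc min δ (w'.2.2.1 / (‖w'.2.1‖ + 1)) * ‖w'.2.1‖
                ≤ (w'.2.2.1 / (‖w'.2.1‖ + 1)) * (‖w'.2.1‖ + 1) := by
                  apply mul_le_mul (min_le_right _ _) (by linarith) (norm_nonneg _) hw.le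
            _ = w'.2.2.1 := by
                  have : ‖w'.2.1‖ + 1 ≠ 0 := by positivity
                  field_simp
        · exact (mul_le_mul_of_nonneg_right (min_le_left _ _) (norm_nonneg _)).trans (hδu w' hw')
    obtain ⟨ξ, hξr, hξ⟩ := h (u.image fun w => w.1) δ hδ
    refine ⟨StrongDual.toWeakDual ξ, ?_, ?_⟩
    · change WeakDual.toStrongDual (StrongDual.toWeakDual ξ) ∈ Metric.closedBall (0 : StrongDual ℂ X) r
      rw [mem_closedBall_zero_iff]
      exact hξr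
    · simp only [Set.mem_iInter]
      intro w hw
      change ‖ξ (B.R w.1 w.2.1) - ξ (B.L w.1 w.2.1) - D w.1 w.2.1‖ ≤ w.2.2.1
      have h1 := hξ w.1 (Finset.mem_image_of_mem (fun w => w.1) hw)
      calc _ = ‖(ξ.comp (B.R w.1) - ξ.comp (B.L w.1) - D w.1) w.2.1‖ := rfl
        _ ≤ δ * ‖w.2.1‖ := ContinuousLinearMap.le_of_opNorm_le _ h1 _
        _ ≤ _ := hδu w hw)
  refine ⟨WeakDual.toStrongDual ξ, fun a => ?_⟩
  ext x
  have h0 : ‖ξ (B.R a x) - ξ (B.L a x) - D a x‖ ≤ 0 := by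
    refine le_of_forall_pos_le_add fun e he => ?_
    have := Set.mem_iInter.1 hξ (a, x, ⟨e, he⟩)
    have h2 : ‖ξ (B.R a x) - ξ (B.L a x) - D a x‖ ≤ e := this
    linarith
  have h1 : ξ (B.R a x) - ξ (B.L a x) - D a x = 0 := norm_le_zero_iff.1 h0
  have h2 : D a x = ξ (B.R a x) - ξ (B.L a x) := (sub_eq_zero.1 h1).symm
  exact h2

theorem inner_of_bad {A : Type u} [CStarAlgebra A] {C : ℝ} (hA : BAD A C) {X : Type v}
    [NormedAddCommGroup X] [NormedSpace ℂ X] (B : BanachBimodule A X) (hR : B.R 1 = 1)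
    (D : A →L[ℂ] StrongDual ℂ X) (hD : IsDualDerivation B D) :
    ∃ ξ : StrongDual ℂ X, ∀ a, D a = ξ.comp (B.R a) - ξ.comp (B.L a) := by
  obtain ⟨r, hr⟩ := approx_inner hA B hR D hD
  exact inner_of_approx B D r hr

end Pool.Agent.MP_86f3ed.Am
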