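import Pool.Agent.H.MP_86f3ed_an.Am.Defs

/-!
# Am/Ent: matrix entries and the map `kT`

Everything here is elementary. `EuclideanSpace.single j 1` is the `j`-th basis vector `e_j` and
`ent b i j = (b e_j) i = ⟪e_i, b e_j⟫`.

* `ent_mul`: `b (c e_j) = b (∑ l, (c e_j) l • e_l) = ∑ l, (c e_j) l • b e_l`, coordinate `i`
  (the expansion `ξ = ∑ l, ξ l • e_l` is `(EuclideanSpace.basisFun (Fin n) ℂ).sum_repr ξ`).
* `ent_star`: `⟪e_i, b† e_j⟫ = ⟪b e_i, e_j⟫ = conj ⟪e_j, b e_i⟫` (`star b = adjoint b`).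
* `norm_sq_le_hs`: `‖b ξ‖ = ‖∑ ξ_i • b e_i‖ ≤ ∑ ‖ξ_i‖ ‖b e_i‖ ≤ ‖ξ‖ (∑ ‖b e_i‖²)^{1/2}`
  (Cauchy–Schwarz; `EuclideanSpace.norm_sq_eq`), then `ContinuousLinearMap.opNorm_le_bound`.
* `kTl`: `kT` is linear in `b` since `ent` is.
-/

open scoped InnerProductSpace

namespace Pool.Agent.MP_86f3ed.Am

universe u v

variable {n m : ℕ}

theorem ent_add (b c : EE n →L[ℂ] EE n) (i j : Fin n) : ent (b + c) i j = ent b i j + ent c i j := by
  simp [ent]

theorem ent_smul (z : ℂ) (b : EE n →L[ℂ] EE n) (i j : Fin n) :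
    ent (z • b) i j = z * ent b i j := by
  simp [ent]

theorem ent_one (i j : Fin n) : ent (1 : EE n →L[ℂ] EE n) i j = if i = j then 1 else 0 := by
  simp [ent]

/-- expansion in the standard basis -/
theorem ent_expand (ξ : EE n) : ξ = ∑ l, ξ l • (EuclideanSpace.single l (1 : ℂ) : EE n) := by
  have h := (EuclideanSpace.basisFun (Fin n) ℂ).sum_repr ξ
  refine h.symm.trans (Finset.sum_congr rfl fun l _ => ?_)
  simp

theorem ent_apply (b : EE n →L[ℂ] EE n) (ξ : EE n) (i : Fin n) :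
    (b ξ) i = ∑ l, ent b i l * ξ l := by
  conv_lhs => rw [ent_expand ξ]
  rw [map_sum, WithLp.ofLp_sum, Finset.sum_apply]
  refine Finset.sum_congr rfl fun l _ => ?_
  rw [map_smul, PiLp.smul_apply, smul_eq_mul, mul_comm]
  rfl

theorem ent_mul (b c : EE n →L[ℂ] EE n) (i j : Fin n) :
    ent (b * c) i j = ∑ l, ent b i l * ent c l j := by
  change (b (c (EuclideanSpace.single j 1))) i = _
  rw [ent_apply]
  rfl

theorem ent_star (b : EE n →L[ℂ] EE n) (i j : Fin n) :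
    ent (star b) i j = (starRingEnd ℂ) (ent b j i) := by
  have h1 : ∀ (c : EE n →L[ℂ] EE n) (i j : Fin n),
      ent c i j = ⟪(EuclideanSpace.single i (1 : ℂ) : EE n), c (EuclideanSpace.single j 1)⟫_ℂ := by
    intro c i j
    rw [EuclideanSpace.inner_single_left]
    simp [ent]
  rw [h1, h1, ContinuousLinearMap.star_eq_adjoint, ContinuousLinearMap.adjoint_inner_right,
    inner_conj_symm]

theorem norm_sq_le_hs (b : EE n →L[ℂ] EE n) :
    ‖b‖ ^ 2 ≤ ∑ i, ‖b (EuclideanSpace.single i 1)‖ ^ 2 := by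
  have h0 : 0 ≤ ∑ i, ‖b (EuclideanSpace.single i 1)‖ ^ 2 :=
    Finset.sum_nonneg fun i _ => sq_nonneg _
  have h1 : ‖b‖ ≤ Real.sqrt (∑ i, ‖b (EuclideanSpace.single i 1)‖ ^ 2) := by
    refine ContinuousLinearMap.opNorm_le_bound _ (Real.sqrt_nonneg _) fun ξ => ?_
    have h2 : b ξ = ∑ l, ξ l • b (EuclideanSpace.single l 1) := by
      conv_lhs => rw [ent_expand ξ]
      rw [map_sum]
      exact Finset.sum_congr rfl fun l _ => map_smul _ _ _
    have h3 : ‖b ξ‖ ≤ ∑ l, ‖ξ l‖ * ‖b (EuclideanSpace.single l 1)‖ := by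
      rw [h2]
      refine (norm_sum_le _ _).trans (le_of_eq ?_)
      exact Finset.sum_congr rfl fun l _ => norm_smul _ _
    have h4 : (∑ l, ‖ξ l‖ * ‖b (EuclideanSpace.single l 1)‖) ^ 2 ≤
        (∑ l, ‖ξ l‖ ^ 2) * ∑ l, ‖b (EuclideanSpace.single l 1)‖ ^ 2 :=
      Finset.sum_mul_sq_le_sq_mul_sq _ _ _
    have h5 : (∑ l, ‖ξ l‖ ^ 2) = ‖ξ‖ ^ 2 := (EuclideanSpace.norm_sq_eq ξ).symm
    have h6 : ‖b ξ‖ ^ 2 ≤
        (Real.sqrt (∑ i, ‖b (EuclideanSpace.single i 1)‖ ^ 2) * ‖ξ‖) ^ 2 := by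
      rw [mul_pow, Real.sq_sqrt h0]
      calc ‖b ξ‖ ^ 2 ≤ (∑ l, ‖ξ l‖ * ‖b (EuclideanSpace.single l 1)‖) ^ 2 := by gcongr
        _ ≤ _ := h4
        _ = _ := by rw [h5]; ring
    exact le_of_sq_le_sq h6 (mul_nonneg (Real.sqrt_nonneg _) (norm_nonneg _))
  calc ‖b‖ ^ 2 ≤ (Real.sqrt (∑ i, ‖b (EuclideanSpace.single i 1)‖ ^ 2)) ^ 2 := by gcongr
    _ = _ := Real.sq_sqrt h0

/-- `kT` as a linear map. -/
noncomputable def kTl {A : Type u} [CStarAlgebra A] (t : Fin m → Fin n → A) :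
    (EE n →L[ℂ] EE n) →ₗ[ℂ] A where
  toFun := kT t
  map_add' b c := by
    simp only [kT, ent_add, add_smul, Finset.sum_add_distrib]
  map_smul' z b := by
    simp only [kT, ent_smul, mul_smul, Finset.smul_sum, RingHom.id_apply]

theorem kTl_apply {A : Type u} [CStarAlgebra A] (t : Fin m → Fin n → A) (b : EE n →L[ℂ] EE n) :
    kTl t b = kT t b := rfl

theorem kT_one {A : Type u} [CStarAlgebra A] (t : Fin m → Fin n → A)
    (ht : ∑ k, ∑ i, star (t k i) * t k i = 1) : kT t 1 = 1 := by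
  rw [← ht]
  unfold kT
  refine Finset.sum_congr rfl fun k _ => Finset.sum_congr rfl fun i _ => ?_
  simp only [ent_one, ite_smul, one_smul, zero_smul]
  simp

theorem kT_star {A : Type u} [CStarAlgebra A] (t : Fin m → Fin n → A) (b : EE n →L[ℂ] EE n) :
    kT t (star b) = star (kT t b) := by
  unfold kT
  rw [star_sum]
  refine Finset.sum_congr rfl fun k _ => ?_
  rw [star_sum, Finset.sum_comm]
  refine (Finset.sum_congr rfl fun i _ => ?_)
  rw [star_sum]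
  refine (Finset.sum_congr rfl fun j _ => ?_)
  rw [ent_star, star_smul, star_mul, star_star, Complex.star_def]

/-- `∑_k ∑_i (∑_j b_ij t_kj)* (∑_j c_ij t_kj) = T(b* c)`. -/
theorem kT_star_mul {A : Type u} [CStarAlgebra A] (t : Fin m → Fin n → A)
    (b c : EE n →L[ℂ] EE n) :
    ∑ k, ∑ i, star (∑ j, ent b i j • t k j) * (∑ j, ent c i j • t k j) = kT t (star b * c) := by
  unfold kT
  refine Finset.sum_congr rfl fun k _ => ?_
  have h1 : ∀ i : Fin n, star (∑ j, ent b i j • t k j) * (∑ j, ent c i j • t k j) =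
      ∑ p, ∑ q, ((starRingEnd ℂ) (ent b i p) * ent c i q) • (star (t k p) * t k q) := by
    intro i
    rw [star_sum, Finset.sum_mul_sum]
    refine Finset.sum_congr rfl fun p _ => Finset.sum_congr rfl fun q _ => ?_
    rw [star_smul, smul_mul_smul_comm, Complex.star_def]
  rw [Finset.sum_congr rfl fun i _ => h1 i, Finset.sum_comm]
  refine Finset.sum_congr rfl fun p _ => ?_
  rw [Finset.sum_comm]
  refine Finset.sum_congr rfl fun q _ => ?_
  rw [← Finset.sum_smul, ent_mul]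
  congr 1
  refine Finset.sum_congr rfl fun l _ => ?_
  rw [ent_star]

end Pool.Agent.MP_86f3ed.Am
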