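import Pool.Agent.H.MP_86f3ed_an.Am.Defs

/-!
# Am/Ext: extending bimodules and derivations to the unitization

`A` is a (not necessarily unital) C*-algebra and `U = Unitization ℂ A` (a `CStarAlgebra`,
`Unitization.instCStarAlgebra`). For a Banach bimodule `B` over `A`:
`L (λ + a) = λ • 1 + L a`, `R (λ + a) = λ • 1 + R a`, and `D (λ + a) = D a`.
* `‖fst w‖ ≤ ‖w‖` (`fst` is a *-homomorphism into `ℂ`: `Unitization.fstHom`,
  `NonUnitalStarAlgHom.norm_apply_le`, or the existing norm lemmas of `Unitization`), and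
  `‖snd w‖ = ‖w - fst w‖ ≤ 2‖w‖` (`Unitization.norm_inr`, `norm_inl`).
* all bimodule laws: `simp` with `Unitization.fst_mul`, `Unitization.snd_mul`, ...
* `D ((λ+a)(μ+b)) = D(λb + μa + ab) = λ D b + μ D a + (D b)∘R a + (D a)∘L b`.
-/

open scoped InnerProductSpace ComplexConjugate

namespace Pool.Agent.MP_86f3ed.Am

universe u v

variable {A : Type u} [NonUnitalCStarAlgebra A] {X : Type v} [NormedAddCommGroup X]
  [NormedSpace ℂ X]

theorem norm_fst_le (w : Unitization ℂ A) : ‖w.fst‖ ≤ ‖w‖ := by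
  rw [Unitization.norm_eq_sup]
  exact le_sup_left

theorem norm_snd_le (w : Unitization ℂ A) : ‖w.snd‖ ≤ 2 * ‖w‖ := by
  have h1 : (w.snd : Unitization ℂ A) = w - Unitization.inl w.fst := by
    rw [eq_sub_iff_add_eq', Unitization.inl_fst_add_inr_snd_eq]
  have h2 : ‖(Unitization.inl w.fst : Unitization ℂ A)‖ = ‖w.fst‖ :=
    norm_algebraMap' (Unitization ℂ A) w.fst
  rw [← Unitization.norm_inr (𝕜 := ℂ) (A := A) w.snd, h1]
  refine (norm_sub_le _ _).trans ?_
  rw [h2]
  linarith [norm_fst_le w]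

theorem Ext_smul_one_comp (z : ℂ) (T : X →L[ℂ] X) : (z • (1 : X →L[ℂ] X)).comp T = z • T := by
  ext x; simp

theorem Ext_comp_smul_one (z : ℂ) (T : X →L[ℂ] X) : T.comp (z • (1 : X →L[ℂ] X)) = z • T := by
  ext x; simp

/-- The common part of the extension of the two actions. -/
theorem Ext_bound (f : A → X →L[ℂ] X) {M : ℝ} (hM : 0 ≤ M) (hf : ∀ a, ‖f a‖ ≤ M * ‖a‖)
    (w : Unitization ℂ A) :
    ‖w.fst • (1 : X →L[ℂ] X) + f w.snd‖ ≤ (1 + 2 * M) * ‖w‖ := by
  have h1 : ‖w.fst • (1 : X →L[ℂ] X)‖ ≤ ‖w‖ := by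
    rw [norm_smul]
    calc ‖w.fst‖ * ‖(1 : X →L[ℂ] X)‖ ≤ ‖w‖ * 1 :=
          mul_le_mul (norm_fst_le w) ContinuousLinearMap.norm_id_le (norm_nonneg _) (norm_nonneg _)
      _ = ‖w‖ := mul_one _
  have h2 : ‖f w.snd‖ ≤ M * (2 * ‖w‖) :=
    (hf _).trans (mul_le_mul_of_nonneg_left (norm_snd_le w) hM)
  refine (norm_add_le _ _).trans ?_
  linarith

/-- The extension of a bimodule to the unitization. -/
noncomputable def extB (B : BanachBimodule A X) : BanachBimodule (Unitization ℂ A) X where
  L w := w.fst • (1 : X →L[ℂ] X) + B.L w.snd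
  R w := w.fst • (1 : X →L[ℂ] X) + B.R w.snd
  L_add := by
    intro a b
    rw [Unitization.fst_add, Unitization.snd_add, B.L_add, add_smul]
    abel
  R_add := by
    intro a b
    rw [Unitization.fst_add, Unitization.snd_add, B.R_add, add_smul]
    abel
  L_smul := by
    intro z a
    rw [Unitization.fst_smul, Unitization.snd_smul, B.L_smul, smul_add, smul_eq_mul, mul_smul]
  R_smul := by
    intro z a
    rw [Unitization.fst_smul, Unitization.snd_smul, B.R_smul, smul_add, smul_eq_mul, mul_smul]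
  L_mul := by
    intro a b
    rw [Unitization.fst_mul, Unitization.snd_mul, B.L_add, B.L_add, B.L_smul, B.L_smul, B.L_mul,
      ContinuousLinearMap.add_comp, ContinuousLinearMap.comp_add, ContinuousLinearMap.comp_add,
      Ext_smul_one_comp, Ext_smul_one_comp, Ext_comp_smul_one, mul_smul]
    abel
  R_mul := by
    intro a b
    rw [Unitization.fst_mul, Unitization.snd_mul, B.R_add, B.R_add, B.R_smul, B.R_smul, B.R_mul,
      ContinuousLinearMap.add_comp, ContinuousLinearMap.comp_add, ContinuousLinearMap.comp_add,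
      Ext_smul_one_comp, Ext_smul_one_comp, Ext_comp_smul_one, mul_comm, mul_smul]
    abel
  L_R := by
    intro a b
    rw [ContinuousLinearMap.add_comp, ContinuousLinearMap.comp_add, ContinuousLinearMap.comp_add,
      ContinuousLinearMap.add_comp, ContinuousLinearMap.comp_add, ContinuousLinearMap.comp_add,
      Ext_smul_one_comp, Ext_smul_one_comp, Ext_smul_one_comp, Ext_smul_one_comp,
      Ext_comp_smul_one, Ext_comp_smul_one, B.L_R, smul_comm a.fst b.fst]
    abel
  bounded := by
    obtain ⟨M, hM⟩ := B.bounded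
    refine ⟨1 + 2 * max M 0, fun w => ⟨?_, ?_⟩⟩
    · exact Ext_bound B.L (le_max_right _ _) (fun a => (hM a).1.trans
        (mul_le_mul_of_nonneg_right (le_max_left _ _) (norm_nonneg _))) w
    · exact Ext_bound B.R (le_max_right _ _) (fun a => (hM a).2.trans
        (mul_le_mul_of_nonneg_right (le_max_left _ _) (norm_nonneg _))) w

theorem Ext_R_zero (B : BanachBimodule A X) : B.R 0 = 0 := by
  have h := B.R_smul 0 0
  rwa [zero_smul, zero_smul] at h

theorem Ext_L_zero (B : BanachBimodule A X) : B.L 0 = 0 := by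
  have h := B.L_smul 0 0
  rwa [zero_smul, zero_smul] at h

theorem extB_R_one (B : BanachBimodule A X) : (extB B).R 1 = 1 := by
  show (1 : Unitization ℂ A).fst • (1 : X →L[ℂ] X) + B.R (1 : Unitization ℂ A).snd = 1
  rw [Unitization.fst_one, Unitization.snd_one, Ext_R_zero, one_smul, add_zero]

theorem ext_inner (B : BanachBimodule A X) (D : A →L[ℂ] StrongDual ℂ X)
    (hD : IsDualDerivation B D) :
    ∃ D' : Unitization ℂ A →L[ℂ] StrongDual ℂ X, IsDualDerivation (extB B) D' ∧
      ∀ a : A, D' (a : Unitization ℂ A) = D a := by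
  let f : Unitization ℂ A →ₗ[ℂ] StrongDual ℂ X :=
    { toFun := fun w => D w.snd
      map_add' := fun x y => by rw [Unitization.snd_add, map_add]
      map_smul' := fun z x => by rw [Unitization.snd_smul, map_smul]; rfl }
  refine ⟨f.mkContinuous (‖D‖ * 2) fun w => ?_, ?_, ?_⟩
  · show ‖D w.snd‖ ≤ _
    refine (D.le_opNorm _).trans ?_
    rw [mul_assoc]
    exact mul_le_mul_of_nonneg_left (norm_snd_le w) (norm_nonneg _)
  · intro a b
    show D (a * b).snd = (D b.snd).comp (a.fst • (1 : X →L[ℂ] X) + B.R a.snd) +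
      (D a.snd).comp (b.fst • (1 : X →L[ℂ] X) + B.L b.snd)
    rw [Unitization.snd_mul, map_add, map_add, map_smul, map_smul, hD,
      ContinuousLinearMap.comp_add, ContinuousLinearMap.comp_add]
    have h1 : ∀ (z : ℂ) (φ : StrongDual ℂ X), φ.comp (z • (1 : X →L[ℂ] X)) = z • φ := by
      intro z φ; ext x; simp
    rw [h1, h1]
    abel
  · intro a
    show D (a : Unitization ℂ A).snd = D a
    rw [Unitization.snd_inr]

theorem extB_R_inr (B : BanachBimodule A X) (a : A) :
    (extB B).R (a : Unitization ℂ A) = B.R a := by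
  show (a : Unitization ℂ A).fst • (1 : X →L[ℂ] X) + B.R (a : Unitization ℂ A).snd = B.R a
  rw [Unitization.fst_inr, Unitization.snd_inr, zero_smul, zero_add]

theorem extB_L_inr (B : BanachBimodule A X) (a : A) :
    (extB B).L (a : Unitization ℂ A) = B.L a := by
  show (a : Unitization ℂ A).fst • (1 : X →L[ℂ] X) + B.L (a : Unitization ℂ A).snd = B.L a
  rw [Unitization.fst_inr, Unitization.snd_inr, zero_smul, zero_add]

end Pool.Agent.MP_86f3ed.Am
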