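import Pool.Agent.H.MP_86f3ed_an.Am.Bad
import Pool.Agent.H.MP_86f3ed_an.Am.Der
import Pool.Agent.H.MP_86f3ed_an.Am.Ext

/-!
# Am/Fin: local completely positive approximations in the unitization imply amenability
-/

namespace Pool.Agent.MP_86f3ed.Am

universe u v

theorem amenable_of_bad {A : Type u} [NonUnitalCStarAlgebra A] {C : ℝ}
    (h : BAD (Unitization ℂ A) C) : Amenable.{u, v} A := by
  intro X _ _ _ B D hD
  obtain ⟨D', hD', hDD⟩ := ext_inner B D hD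
  obtain ⟨ξ, hξ⟩ := inner_of_bad h (extB B) (extB_R_one B) D' hD'
  refine ⟨ξ, fun a => ?_⟩
  rw [← hDD a, hξ, extB_R_inr, extB_L_inr]

theorem amenable_of_local_kcp {A : Type u} [NonUnitalCStarAlgebra A]
    (h : ∀ F : Finset (Unitization ℂ A), ∃ (B : Type u) (_ : CStarAlgebra B)
      (φ : B →⋆ₐ[ℂ] Unitization ℂ A), KCP B ∧ ∀ a ∈ F, ∃ b, φ b = a) : Amenable.{u, v} A := by
  refine amenable_of_bad (C := 9) (bad_local (by norm_num) fun F => ?_)
  obtain ⟨B, iB, φ, hB, hF⟩ := h F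
  exact ⟨B, iB, φ, bad_of_kcp hB, hF⟩

end Pool.Agent.MP_86f3ed.Am
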