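import Pool.Agent.H.MP_86f3ed_an.Am.Defs

/-!
# Am/Four: independent cube roots of unity

`J` is a finite index set and the probability space is `J → ZMod 3` with the counting measure
(`3^|J|` points). `zc ω j = stdAddChar (ω j)` is the `j`-th coordinate as a cube root of unity.

* `zc_orth`: the map `ω ↦ stdAddChar (∑ a_j ω_j)` is an additive character of the finite group
  `J → ZMod 3`; it is trivial iff `a = 0` (evaluate at `Pi.single j 1` and use
  `ZMod.injective_stdAddChar`, `AddChar.map_zero_eq_one`); now `AddChar.sum_eq_ite`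
  (or prove directly: if `a j ≠ 0`, translating `ω` by `Pi.single j 1` multiplies the sum by
  `stdAddChar (a j) ≠ 1`, so the sum vanishes: `Equiv.sum_comp (Equiv.addRight _)`).
* `zc_mul`: `conj (zc ω i) * zc ω j * conj (conj (zc ω k) * zc ω l) = stdAddChar(∑ a_p ω_p)` with
  `a = single j 1 - single i 1 - single l 1 + single k 1`; conjugate = value at the negative
  (`AddChar.map_neg_eq_conj`).
* `zc_second`: expand `‖∑ z_j w_j‖² = re ∑_{i,j} conj z_i z_j ⟪w_i, w_j⟫` and use `zc_cross`.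
* `zc_fourth`: the functions `χ_ij = conj z_i z_j`, `i ≠ j`, together with the constant function
  `1`, are orthogonal for the counting measure: for `(i,j) ≠ (k,l)`, `i ≠ j`, `k ≠ l`, the vector
  `a = single j 1 - single i 1 - single l 1 + single k 1` is nonzero: if `j ≠ l` its value at `j`
  is `1 + [k = j] ≠ 0` in `ZMod 3`; if `j = l` then `i ≠ k` and its value at `i` is `-1`
  (note `i ≠ j = l`). Also `single j 1 - single i 1 ≠ 0`. Hence, with `v₀ = ∑ v_ii`,
  `∑_ω ‖v₀ + ∑_{i≠j} χ_ij v_ij‖² = 3^|J| (‖v₀‖² + ∑_{i≠j} ‖v_ij‖²)`.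
-/

open scoped InnerProductSpace ComplexConjugate

namespace Pool.Agent.MP_86f3ed.Am

/-- The `j`-th cube root of unity. -/
noncomputable def zc {J : Type} (ω : J → ZMod 3) (j : J) : ℂ := ZMod.stdAddChar (ω j)

variable {J : Type} [Fintype J] [DecidableEq J]

omit [Fintype J] [DecidableEq J] in
theorem zc_norm (ω : J → ZMod 3) (j : J) : ‖zc ω j‖ = 1 :=
  AddChar.norm_apply _ _

omit [Fintype J] [DecidableEq J] in
/-- Conjugation of the phases is the reflection `ω ↦ -ω`. -/
theorem zc_neg (ω : J → ZMod 3) (j : J) : zc (-ω) j = conj (zc ω j) := by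
  rw [zc, zc, Pi.neg_apply, AddChar.map_neg_eq_conj]

omit [Fintype J] [DecidableEq J] in
theorem four_add (x y : ZMod 3) : (ZMod.stdAddChar (x + y) : ℂ) =
    ZMod.stdAddChar x * ZMod.stdAddChar y := AddChar.map_add_eq_mul _ x y

omit [Fintype J] [DecidableEq J] in
theorem four_negc (x : ZMod 3) : (ZMod.stdAddChar (-x) : ℂ) = conj (ZMod.stdAddChar x : ℂ) :=
  AddChar.map_neg_eq_conj _ x

theorem four_shift (f : (J → ZMod 3) → ℂ) (c : J → ZMod 3) : ∑ ω, f (ω + c) = ∑ ω, f ω :=
  Equiv.sum_comp (Equiv.addRight c) f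

theorem zc_orth (a : J → ZMod 3) :
    ∑ ω : J → ZMod 3, (ZMod.stdAddChar (∑ j, a j * ω j) : ℂ) =
      if a = 0 then (3 : ℂ) ^ Fintype.card J else 0 := by
  split_ifs with h
  · subst h
    have h1 : ∀ ω : J → ZMod 3, (ZMod.stdAddChar (∑ j, (0 : J → ZMod 3) j * ω j) : ℂ) = 1 := by
      intro ω
      simp
    rw [Finset.sum_congr rfl fun ω _ => h1 ω, Finset.sum_const, Finset.card_univ,
      Fintype.card_fun, ZMod.card, nsmul_eq_mul, mul_one]
    push_cast
    rfl
  · obtain ⟨j, hj⟩ : ∃ j, a j ≠ 0 := by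
      by_contra hcon
      push Not at hcon
      exact h (funext hcon)
    obtain ⟨f, hf⟩ : ∃ f : (J → ZMod 3) → ℂ,
        f = fun ω => (ZMod.stdAddChar (∑ j, a j * ω j) : ℂ) := ⟨_, rfl⟩
    obtain ⟨c, hc⟩ : ∃ c : J → ZMod 3, c = Pi.single j 1 := ⟨_, rfl⟩
    have hac : ∑ k, a k * c k = a j := by
      rw [Finset.sum_eq_single j]
      · rw [hc, Pi.single_eq_same, mul_one]
      · intro b _ hb
        rw [hc, Pi.single_eq_of_ne hb, mul_zero]
      · intro hcon
        exact absurd (Finset.mem_univ j) hcon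
    have hfc : ∀ ω, f (ω + c) = ZMod.stdAddChar (a j) * f ω := by
      intro ω
      rw [hf]
      dsimp only
      rw [← four_add]
      have h4 : ∑ k, a k * (ω + c) k = a j + ∑ k, a k * ω k := by
        rw [← hac, add_comm, ← Finset.sum_add_distrib]
        refine Finset.sum_congr rfl fun k _ => ?_
        rw [Pi.add_apply, mul_add]
      rw [h4]
    have hgoal : ∑ ω, f ω = 0 := by
      have h1 : ∑ ω, f ω = ZMod.stdAddChar (a j) * ∑ ω, f ω := by
        rw [← four_shift f c, Finset.mul_sum]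
        rw [Finset.sum_congr rfl fun ω _ => hfc ω, ← Finset.mul_sum, ← Finset.mul_sum]
        rw [four_shift f c]
      have h2 : (ZMod.stdAddChar (a j) : ℂ) ≠ 1 := by
        intro hcon
        rw [← AddChar.map_zero_eq_one (ZMod.stdAddChar (N := 3))] at hcon
        exact hj (ZMod.injective_stdAddChar hcon)
      have h3 : (1 - (ZMod.stdAddChar (a j) : ℂ)) * ∑ ω, f ω = 0 := by
        rw [sub_mul, one_mul, ← h1, sub_self]
      exact (mul_eq_zero.1 h3).resolve_left (sub_ne_zero.2 (Ne.symm h2))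
    rw [← hgoal, hf]

/-- The exponents of `conj z_i z_j`. -/
def fourD (i j : J) : J → ZMod 3 := Pi.single j 1 - Pi.single i 1

omit [Fintype J] in
theorem fourD_apply (i j k : J) :
    fourD i j k = (if k = j then 1 else 0) - (if k = i then 1 else 0) := by
  rw [fourD, Pi.sub_apply, Pi.single_apply, Pi.single_apply]

theorem four_sum_single (j : J) (ω : J → ZMod 3) :
    ∑ k, (Pi.single j (1 : ZMod 3) : J → ZMod 3) k * ω k = ω j := by
  rw [Finset.sum_eq_single j]
  · rw [Pi.single_eq_same, one_mul]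
  · intro b _ hb
    rw [Pi.single_eq_of_ne hb, zero_mul]
  · intro hcon
    exact absurd (Finset.mem_univ j) hcon

theorem four_phase (ω : J → ZMod 3) (i j : J) :
    conj (zc ω i) * zc ω j = (ZMod.stdAddChar (∑ k, fourD i j k * ω k) : ℂ) := by
  rw [← zc_neg, zc, zc, ← four_add]
  congr 1
  simp only [fourD, Pi.sub_apply, sub_mul, Finset.sum_sub_distrib]
  rw [four_sum_single, four_sum_single, Pi.neg_apply]
  ring

omit [Fintype J] in
theorem fourD_self (i : J) : fourD i i = 0 := by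
  rw [fourD, sub_self]

omit [Fintype J] in
theorem fourD_ne_zero {i j : J} (h : i ≠ j) : fourD i j ≠ 0 := by
  intro h1
  have h2 := congrFun h1 j
  rw [fourD_apply, if_pos rfl, if_neg (Ne.symm h), sub_zero, Pi.zero_apply] at h2
  exact absurd h2 (by decide)

omit [Fintype J] in
theorem fourD_inj {i j k l : J} (hij : i ≠ j) (h : fourD i j = fourD k l) :
    i = k ∧ j = l := by
  have h1 := congrFun h j
  rw [fourD_apply, fourD_apply, if_pos rfl, if_neg (Ne.symm hij), sub_zero] at h1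
  have hjl : j = l := by
    by_contra hne
    rw [if_neg hne] at h1
    split_ifs at h1
    · exact absurd h1 (by decide)
    · exact absurd h1 (by decide)
  have h2 := congrFun h i
  rw [fourD_apply, fourD_apply, if_neg hij, if_pos rfl, ← hjl, if_neg hij] at h2
  refine ⟨?_, hjl⟩
  by_contra hne
  rw [if_neg hne] at h2
  exact absurd h2 (by decide)

theorem zc_cross (i j : J) :
    ∑ ω : J → ZMod 3, conj (zc ω i) * zc ω j = if i = j then (3 : ℂ) ^ Fintype.card J else 0 := by
  simp only [four_phase]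
  rw [zc_orth]
  by_cases h : i = j
  · rw [if_pos h, if_pos (by rw [h, fourD_self])]
  · rw [if_neg h, if_neg (fourD_ne_zero h)]

variable {E : Type*} [NormedAddCommGroup E] [InnerProductSpace ℂ E]

theorem four_split {F : Type*} [AddCommMonoid F] (g : J → J → F) :
    ∑ i, ∑ j, g i j = ∑ i, g i i + ∑ p : {p : J × J // p.1 ≠ p.2}, g p.1.1 p.1.2 := by
  have e1 : ∑ i, ∑ j, g i j = ∑ p : J × J, g p.1 p.2 :=
    (Fintype.sum_prod_type (fun p : J × J => g p.1 p.2)).symm
  have e2 : ∑ p : {p : J × J // p.1 ≠ p.2}, g p.1.1 p.1.2 =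
      ∑ p ∈ Finset.univ.filter (fun p : J × J => p.1 ≠ p.2), g p.1 p.2 :=
    (Finset.sum_subtype (Finset.univ.filter (fun p : J × J => p.1 ≠ p.2)) (by simp)
      (fun p : J × J => g p.1 p.2)).symm
  have e3 : ∑ i, g i i = ∑ p ∈ Finset.univ.filter (fun p : J × J => ¬ p.1 ≠ p.2), g p.1 p.2 := by
    refine Finset.sum_bij (fun i _ => (i, i)) ?_ ?_ ?_ ?_
    · intro i _
      simp
    · intro i _ i' _ h
      exact (Prod.ext_iff.1 h).1
    · rintro ⟨i, j⟩ h
      rw [Finset.mem_filter, not_not] at h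
      exact ⟨i, Finset.mem_univ _, Prod.ext rfl h.2⟩
    · intro i _
      rfl
  rw [e1, e2, e3, add_comm, Finset.sum_filter_add_sum_filter_not]

/-- Orthogonality of distinct characters. -/
theorem four_gen {P : Type*} [Fintype P] (a : P → (J → ZMod 3)) (ha : Function.Injective a)
    (w : P → E) :
    ∑ ω : J → ZMod 3, ‖∑ p, (ZMod.stdAddChar (∑ k, a p k * ω k) : ℂ) • w p‖ ^ 2 =
      3 ^ Fintype.card J * ∑ p, ‖w p‖ ^ 2 := by
  classical
  have h1 : ∀ (ω : J → ZMod 3) (p p' : P),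
      conj (ZMod.stdAddChar (∑ k, a p k * ω k) : ℂ) * (ZMod.stdAddChar (∑ k, a p' k * ω k) : ℂ) =
        (ZMod.stdAddChar (∑ k, (a p' - a p) k * ω k) : ℂ) := by
    intro ω p p'
    rw [← four_negc, ← four_add]
    congr 1
    simp only [Pi.sub_apply, sub_mul, Finset.sum_sub_distrib]
    ring
  have h2 : ∀ ω : J → ZMod 3,
      ((‖∑ p, (ZMod.stdAddChar (∑ k, a p k * ω k) : ℂ) • w p‖ ^ 2 : ℝ) : ℂ) =
        ∑ p, ∑ p', (ZMod.stdAddChar (∑ k, (a p' - a p) k * ω k) : ℂ) * ⟪w p, w p'⟫_ℂ := by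
    intro ω
    have h3 := inner_self_eq_norm_sq_to_K (𝕜 := ℂ)
      (∑ p, (ZMod.stdAddChar (∑ k, a p k * ω k) : ℂ) • w p)
    push_cast
    refine h3.symm.trans ?_
    rw [sum_inner]
    refine Finset.sum_congr rfl fun p _ => ?_
    rw [inner_sum]
    refine Finset.sum_congr rfl fun p' _ => ?_
    rw [inner_smul_left, inner_smul_right, ← mul_assoc, h1]
  have h4 : ((∑ ω : J → ZMod 3,
      ‖∑ p, (ZMod.stdAddChar (∑ k, a p k * ω k) : ℂ) • w p‖ ^ 2 : ℝ) : ℂ) =
      ((3 ^ Fintype.card J * ∑ p, ‖w p‖ ^ 2 : ℝ) : ℂ) := by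
    rw [Complex.ofReal_sum, Finset.sum_congr rfl fun ω _ => h2 ω, Finset.sum_comm]
    have h5 : ∀ p : P, ∑ ω : J → ZMod 3, ∑ p',
        (ZMod.stdAddChar (∑ k, (a p' - a p) k * ω k) : ℂ) * ⟪w p, w p'⟫_ℂ =
          (3 : ℂ) ^ Fintype.card J * ((‖w p‖ ^ 2 : ℝ) : ℂ) := by
      intro p
      rw [Finset.sum_comm, Finset.sum_eq_single p]
      · rw [← Finset.sum_mul, zc_orth, if_pos (sub_self _), inner_self_eq_norm_sq_to_K]
        push_cast
        rfl
      · intro p' _ hp'
        rw [← Finset.sum_mul, zc_orth, if_neg, zero_mul]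
        intro hcon
        exact hp' (ha (sub_eq_zero.1 hcon))
      · intro hcon
        exact absurd (Finset.mem_univ p) hcon
    rw [Finset.sum_congr rfl fun p _ => h5 p, ← Finset.mul_sum]
    push_cast
    rfl
  exact_mod_cast h4

theorem zc_second (w : J → E) :
    ∑ ω : J → ZMod 3, ‖∑ j, zc ω j • w j‖ ^ 2 = 3 ^ Fintype.card J * ∑ j, ‖w j‖ ^ 2 := by
  have h1 := four_gen (fun j : J => (Pi.single j (1 : ZMod 3) : J → ZMod 3)) (by
    intro j j' hjj
    by_contra hne
    have h2 := congrFun hjj j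
    simp only [Pi.single_eq_same, Pi.single_eq_of_ne hne] at h2
    exact absurd h2 (by decide)) w
  simp only [four_sum_single] at h1
  exact h1

theorem zc_fourth (v : J → J → E) :
    ∑ ω : J → ZMod 3, ‖∑ i, ∑ j, (conj (zc ω i) * zc ω j) • v i j‖ ^ 2 ≤
      3 ^ Fintype.card J * (‖∑ i, v i i‖ ^ 2 + ∑ i, ∑ j, ‖v i j‖ ^ 2) := by
  classical
  let a : Option {p : J × J // p.1 ≠ p.2} → (J → ZMod 3) := fun o =>
    o.elim 0 (fun p => fourD p.1.1 p.1.2)
  let w : Option {p : J × J // p.1 ≠ p.2} → E := fun o =>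
    o.elim (∑ i, v i i) (fun p => v p.1.1 p.1.2)
  have ha : Function.Injective a := by
    intro o o' hoo
    match o, o', hoo with
    | none, none, _ => rfl
    | none, some p, hoo => exact absurd hoo.symm (fourD_ne_zero p.2)
    | some p, none, hoo => exact absurd hoo (fourD_ne_zero p.2)
    | some p, some p', hoo =>
      obtain ⟨e1, e2⟩ := fourD_inj p.2 hoo
      congr 1
      exact Subtype.ext (Prod.ext e1 e2)
  have h1 := four_gen a ha w
  have h2 : ∀ ω : J → ZMod 3, ∑ i, ∑ j, (conj (zc ω i) * zc ω j) • v i j =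
      ∑ p, (ZMod.stdAddChar (∑ k, a p k * ω k) : ℂ) • w p := by
    intro ω
    rw [four_split, Fintype.sum_option]
    congr 1
    · have h3 : (ZMod.stdAddChar (∑ k, a none k * ω k) : ℂ) = 1 := by
        show (ZMod.stdAddChar (∑ k, (0 : J → ZMod 3) k * ω k) : ℂ) = 1
        simp
      rw [h3, one_smul]
      refine Finset.sum_congr rfl fun i _ => ?_
      have h4 : conj (zc ω i) * zc ω i = 1 := by
        rw [four_phase, fourD_self]
        simp
      rw [h4, one_smul]
    · refine Finset.sum_congr rfl fun p _ => ?_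
      rw [four_phase]
      rfl
  rw [Finset.sum_congr rfl fun ω _ => by rw [h2 ω], h1]
  refine mul_le_mul_of_nonneg_left ?_ (by positivity)
  rw [Fintype.sum_option]
  refine add_le_add le_rfl ?_
  rw [four_split (fun i j => ‖v i j‖ ^ 2)]
  have h5 : 0 ≤ ∑ i, ‖v i i‖ ^ 2 := Finset.sum_nonneg fun i _ => sq_nonneg _
  have h6 : ∑ p : {p : J × J // p.1 ≠ p.2}, ‖w (some p)‖ ^ 2 =
      ∑ p : {p : J × J // p.1 ≠ p.2}, ‖v p.1.1 p.1.2‖ ^ 2 := rfl
  rw [h6]
  linarith

end Pool.Agent.MP_86f3ed.Am
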