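import Pool.Agent.H.MP_86f3ed_an.Am.Defs

/-!
# Am/Res: resolvent truncation

Let `X` be a bounded operator on the Hilbert space `E` and `a > 0`. The operator
`G = 1 + a X* X` is self-adjoint and bounded below (`‖G ξ‖ ‖ξ‖ ≥ re ⟪ξ, G ξ⟫ ≥ ‖ξ‖²`), hence
invertible; the same for `G' = 1 + a X X*`. Let `Q = G⁻¹`, `Q' = G'⁻¹` and `X^c = X Q = Q' X`
(since `X G = G' X`). Then `‖Q ξ‖ ≤ ‖ξ‖`, `‖Q' ξ‖ ≤ ‖ξ‖`, `Q`, `Q'` are self-adjoint.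

* `‖X^c‖² ≤ 1/(4a)`: let `η = G ξ`; `‖η‖² = ‖ξ‖² + 2a‖Xξ‖² + a²‖X*Xξ‖² ≥ 4a‖Xξ‖²`, because
  `‖Xξ‖² = re ⟪ξ, X*Xξ⟫ ≤ ‖ξ‖‖X*Xξ‖` gives `‖ξ‖² + a²‖X*Xξ‖² ≥ 2a‖ξ‖‖X*Xξ‖ ≥ 2a‖Xξ‖²`. And
  `X^c η = X ξ`; every vector is of the form `η`.
* `‖X^c ξ‖ = ‖Q' X ξ‖ ≤ ‖X ξ‖`, `‖X^c* ξ‖ = ‖Q X* ξ‖ ≤ ‖X* ξ‖`.
* `X - X^c = X Q (G - 1) = a X^c X* X`, so `‖(X-X^c)ξ‖² ≤ a² ‖X^c‖² ‖X*Xξ‖² ≤ (a/4) ‖X*Xξ‖²`.
* `X - X^c = (G' - 1) Q' X = a X X* X^c`, so `(X-X^c)* = a X^c* X X*` and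
  `‖(X-X^c)*ξ‖² ≤ a² ‖X^c‖² ‖XX*ξ‖² ≤ (a/4) ‖XX*ξ‖²`.
(Invertibility: e.g. Lax–Milgram `IsCoercive.continuousLinearEquivOfBilin`, or
`ContinuousLinearMap.isUnit_iff_bijective` with antilipschitz + dense range, or, in the star
ordered ring `E →L[ℂ] E`, `CStarAlgebra.isUnit_of_le`; see also the invertibility lemmas in
`Sf/` and `Ty/TomA.lean`.)
-/

open scoped InnerProductSpace

namespace Pool.Agent.MP_86f3ed.Am

variable {E : Type*} [NormedAddCommGroup E] [InnerProductSpace ℂ E] [CompleteSpace E]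

theorem Res_re_inner (X : E →L[ℂ] E) (a : ℝ) (ξ : E) :
    (⟪(1 + (a : ℂ) • (star X * X)) ξ, ξ⟫_ℂ).re = ‖ξ‖ ^ 2 + a * ‖X ξ‖ ^ 2 := by
  have h1 : (1 + (a : ℂ) • (star X * X)) ξ = ξ + (a : ℂ) • (star X (X ξ)) := rfl
  rw [h1, inner_add_left, inner_smul_left, Complex.conj_ofReal, Complex.add_re,
    Complex.re_ofReal_mul, ContinuousLinearMap.star_eq_adjoint,
    ContinuousLinearMap.adjoint_inner_left]
  have h2 : ∀ v : E, (⟪v, v⟫_ℂ).re = ‖v‖ ^ 2 := fun v => inner_self_eq_norm_sq (𝕜 := ℂ) v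
  rw [h2, h2]

theorem Res_le (X : E →L[ℂ] E) (a : ℝ) (ha : 0 < a) (ξ : E) :
    ‖ξ‖ ^ 2 ≤ (⟪(1 + (a : ℂ) • (star X * X)) ξ, ξ⟫_ℂ).re := by
  rw [Res_re_inner]
  have : 0 ≤ a * ‖X ξ‖ ^ 2 := by positivity
  linarith

/-- Two-sided inverse of `1 + a X* X`. -/
theorem res_inv (X : E →L[ℂ] E) (a : ℝ) (ha : 0 < a) :
    ∃ Q : E →L[ℂ] E, Q * (1 + (a : ℂ) • (star X * X)) = 1 ∧
      (1 + (a : ℂ) • (star X * X)) * Q = 1 ∧ star Q = Q ∧ ∀ ξ, ‖Q ξ‖ ≤ ‖ξ‖ := by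
  set G : E →L[ℂ] E := 1 + (a : ℂ) • (star X * X) with hG
  have hGle : ∀ ξ, ‖ξ‖ ^ 2 ≤ (⟪G ξ, ξ⟫_ℂ).re := Res_le X a ha
  have hGs : star G = G := by
    rw [hG, star_add, star_one, star_smul, star_mul, star_star]
    congr 1
    congr 1
    exact Complex.conj_ofReal a
  have hU : IsUnit G := by
    refine ContinuousLinearMap.isUnit_of_forall_le_norm_inner_map G (c := 1) one_pos fun x => ?_
    rw [NNReal.coe_one, mul_one]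
    exact (hGle x).trans (Complex.re_le_norm _)
  obtain ⟨U, hU⟩ := hU
  have h1 : (↑U⁻¹ : E →L[ℂ] E) * G = 1 := by rw [← hU]; exact U.inv_mul
  have h2 : G * (↑U⁻¹ : E →L[ℂ] E) = 1 := by rw [← hU]; exact U.mul_inv
  refine ⟨(↑U⁻¹ : E →L[ℂ] E), h1, h2, ?_, fun ξ => ?_⟩
  · have h3 : star (↑U⁻¹ : E →L[ℂ] E) * G = 1 := by
      have := congrArg star h2
      rwa [star_mul, hGs, star_one] at this
    calc star (↑U⁻¹ : E →L[ℂ] E) = star (↑U⁻¹ : E →L[ℂ] E) * (G * (↑U⁻¹ : E →L[ℂ] E)) := by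
          rw [h2, mul_one]
      _ = (star (↑U⁻¹ : E →L[ℂ] E) * G) * (↑U⁻¹ : E →L[ℂ] E) := by rw [mul_assoc]
      _ = (↑U⁻¹ : E →L[ℂ] E) := by rw [h3, one_mul]
  · have h4 : G ((↑U⁻¹ : E →L[ℂ] E) ξ) = ξ := congrArg (fun T : E →L[ℂ] E => T ξ) h2
    have h5 := hGle ((↑U⁻¹ : E →L[ℂ] E) ξ)
    rw [h4] at h5
    have h6 : (⟪ξ, (↑U⁻¹ : E →L[ℂ] E) ξ⟫_ℂ).re ≤ ‖ξ‖ * ‖(↑U⁻¹ : E →L[ℂ] E) ξ‖ :=
      (Complex.re_le_norm _).trans (norm_inner_le_norm _ _)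
    by_contra hlt
    push Not at hlt
    have h7 : 0 < ‖(↑U⁻¹ : E →L[ℂ] E) ξ‖ := (norm_nonneg _).trans_lt hlt
    nlinarith

theorem Res_four (X : E →L[ℂ] E) (a : ℝ) (ha : 0 < a) (ξ : E) :
    4 * a * ‖X ξ‖ ^ 2 ≤ ‖(1 + (a : ℂ) • (star X * X)) ξ‖ ^ 2 := by
  set w : E := star X (X ξ) with hw
  have h1 : (1 + (a : ℂ) • (star X * X)) ξ = ξ + (a : ℂ) • w := rfl
  have h2 : (⟪ξ, w⟫_ℂ).re = ‖X ξ‖ ^ 2 := by
    rw [hw, ContinuousLinearMap.star_eq_adjoint, ContinuousLinearMap.adjoint_inner_right]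
    exact inner_self_eq_norm_sq (𝕜 := ℂ) (X ξ)
  have h3 : ‖X ξ‖ ^ 2 ≤ ‖ξ‖ * ‖w‖ := by
    rw [← h2]
    exact (Complex.re_le_norm _).trans (norm_inner_le_norm _ _)
  have h4 : ‖ξ + (a : ℂ) • w‖ ^ 2 = ‖ξ‖ ^ 2 + 2 * a * ‖X ξ‖ ^ 2 + a ^ 2 * ‖w‖ ^ 2 := by
    have h5 := norm_add_sq (𝕜 := ℂ) ξ ((a : ℂ) • w)
    rw [inner_smul_right, norm_smul, Complex.norm_real, Real.norm_eq_abs, abs_of_pos ha] at h5
    have h6 : RCLike.re ((a : ℂ) * ⟪ξ, w⟫_ℂ) = a * ‖X ξ‖ ^ 2 := by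
      rw [← h2]
      exact Complex.re_ofReal_mul _ _
    rw [h6] at h5
    rw [h5]; ring
  rw [h1, h4]
  nlinarith [sq_nonneg (‖ξ‖ - a * ‖w‖), mul_le_mul_of_nonneg_left h3 ha.le]

theorem trunc (X : E →L[ℂ] E) (a : ℝ) (ha : 0 < a) :
    ∃ Xc : E →L[ℂ] E, ‖Xc‖ ^ 2 ≤ 1 / (4 * a) ∧ (∀ ξ, ‖Xc ξ‖ ≤ ‖X ξ‖) ∧
      (∀ ξ, ‖(star Xc) ξ‖ ≤ ‖(star X) ξ‖) ∧
      (∀ ξ, ‖(X - Xc) ξ‖ ^ 2 ≤ a / 4 * ‖(star X) (X ξ)‖ ^ 2) ∧
      (∀ ξ, ‖(star (X - Xc)) ξ‖ ^ 2 ≤ a / 4 * ‖X ((star X) ξ)‖ ^ 2) := by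
  obtain ⟨Q, hQG, hGQ, hQs, hQn⟩ := res_inv X a ha
  obtain ⟨Q', hQG', hGQ', hQs', hQn'⟩ := res_inv (star X) a ha
  rw [star_star] at hQG' hGQ'
  have hXQ : X * Q = Q' * X := by
    calc X * Q = (Q' * (1 + (a : ℂ) • (X * star X))) * X * Q := by rw [hQG', one_mul]
      _ = Q' * X * ((1 + (a : ℂ) • (star X * X)) * Q) := by
          simp only [mul_add, add_mul, mul_one, one_mul, smul_mul_assoc, mul_smul_comm, mul_assoc]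
      _ = Q' * X := by rw [hGQ, mul_one]
  have ha4 : 0 ≤ 1 / (4 * a) := by positivity
  have hn : ∀ ζ, ‖(X * Q) ζ‖ ^ 2 ≤ 1 / (4 * a) * ‖ζ‖ ^ 2 := by
    intro ζ
    have h1 : (1 + (a : ℂ) • (star X * X)) (Q ζ) = ζ :=
      congrArg (fun T : E →L[ℂ] E => T ζ) hGQ
    have h2 := Res_four X a ha (Q ζ)
    rw [h1] at h2
    have h3 : (X * Q) ζ = X (Q ζ) := rfl
    rw [h3, one_div, inv_mul_eq_div, le_div_iff₀ (by positivity)]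
    linarith
  have hnorm : ‖X * Q‖ ^ 2 ≤ 1 / (4 * a) := by
    have h1 : ‖X * Q‖ ≤ √(1 / (4 * a)) := by
      refine ContinuousLinearMap.opNorm_le_bound _ (Real.sqrt_nonneg _) fun ζ => ?_
      refine abs_le_of_sq_le_sq' ?_ (by positivity) |>.2
      rw [mul_pow, Real.sq_sqrt ha4]
      exact hn ζ
    calc ‖X * Q‖ ^ 2 ≤ (√(1 / (4 * a))) ^ 2 := pow_le_pow_left₀ (norm_nonneg _) h1 2
      _ = _ := Real.sq_sqrt ha4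
  refine ⟨X * Q, hnorm, fun ξ => ?_, fun ξ => ?_, fun ξ => ?_, fun ξ => ?_⟩
  · rw [hXQ]
    exact hQn' (X ξ)
  · rw [star_mul, hQs]
    exact hQn (star X ξ)
  · have h1 : X - X * Q = (a : ℂ) • (X * Q * (star X * X)) := by
      calc X - X * Q = X * (Q * (1 + (a : ℂ) • (star X * X))) - X * Q := by rw [hQG, mul_one]
        _ = (a : ℂ) • (X * Q * (star X * X)) := by
          rw [mul_add, mul_one, mul_add, add_sub_cancel_left, mul_smul_comm, mul_smul_comm,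
            mul_assoc]
    rw [h1]
    have h2 : ((a : ℂ) • (X * Q * (star X * X))) ξ = (a : ℂ) • ((X * Q) (star X (X ξ))) := rfl
    rw [h2, norm_smul, Complex.norm_real, Real.norm_eq_abs, abs_of_pos ha, mul_pow]
    have h3 := hn (star X (X ξ))
    calc a ^ 2 * ‖(X * Q) (star X (X ξ))‖ ^ 2 ≤ a ^ 2 * (1 / (4 * a) * ‖star X (X ξ)‖ ^ 2) :=
          mul_le_mul_of_nonneg_left h3 (sq_nonneg _)
      _ = _ := by field_simp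
  · have h1 : X - X * Q = (a : ℂ) • (X * star X * (X * Q)) := by
      calc X - X * Q = ((1 + (a : ℂ) • (X * star X)) * Q') * X - Q' * X := by
            rw [hGQ', one_mul, hXQ]
        _ = (a : ℂ) • (X * star X * (Q' * X)) := by
          rw [mul_assoc, add_mul, one_mul, add_sub_cancel_left, smul_mul_assoc]
        _ = _ := by rw [hXQ]
    have h2 : star (X - X * Q) = (a : ℂ) • (star (X * Q) * (X * star X)) := by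
      rw [h1, star_smul, star_mul (X * star X) (X * Q), star_mul X (star X), star_star]
      congr 1
      exact Complex.conj_ofReal a
    rw [h2]
    have h3 : ((a : ℂ) • (star (X * Q) * (X * star X))) ξ =
        (a : ℂ) • ((star (X * Q)) (X (star X ξ))) := rfl
    rw [h3, norm_smul, Complex.norm_real, Real.norm_eq_abs, abs_of_pos ha, mul_pow]
    have h4 : ‖(star (X * Q)) (X (star X ξ))‖ ^ 2 ≤ 1 / (4 * a) * ‖X (star X ξ)‖ ^ 2 := by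
      have h5 := (star (X * Q)).le_opNorm (X (star X ξ))
      rw [norm_star] at h5
      calc ‖(star (X * Q)) (X (star X ξ))‖ ^ 2 ≤ (‖X * Q‖ * ‖X (star X ξ)‖) ^ 2 :=
            pow_le_pow_left₀ (norm_nonneg _) h5 2
        _ = ‖X * Q‖ ^ 2 * ‖X (star X ξ)‖ ^ 2 := by rw [mul_pow]
        _ ≤ _ := mul_le_mul_of_nonneg_right hnorm (sq_nonneg _)
    calc a ^ 2 * ‖(star (X * Q)) (X (star X ξ))‖ ^ 2 ≤
          a ^ 2 * (1 / (4 * a) * ‖X (star X ξ)‖ ^ 2) :=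
          mul_le_mul_of_nonneg_left h4 (sq_nonneg _)
      _ = _ := by field_simp

end Pool.Agent.MP_86f3ed.Am
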