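import Pool.Agent.H.MP_86f3ed_an.Am.Mom
import Pool.Agent.H.MP_86f3ed_an.Am.Res
import Pool.Agent.H.MP_86f3ed_an.Am.Ent

/-!
# Am/Gam: the `Γ`-inequality in `M_n` with constant `4K`

`V` is a bilinear form on `M_n` with `|V(x,y)| ≤ K ‖x‖ ‖y‖`.

* `gam_apriori`: `|∑ V(x_j,y_j)| ≤ K ∑ ‖x_j‖‖y_j‖ ≤ K (∑‖x_j‖²)^{1/2} (∑‖y_j‖²)^{1/2} ≤ K n`,
  since `∑_j ‖x_j‖² ≤ ∑_j ∑_i ‖x_j e_i‖² = ∑_i ∑_j ‖x_j e_i‖² ≤ ∑_i ‖e_i‖² = n`
  (`norm_sq_le_hs`).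
* `0 ≤ Γ` whenever `Gam V Γ`: use the empty family (`J = Empty` or `Fin 0`).
* `gam_scale`: if `α, β > 0` apply the inequality to `α^{-1/2} x_j`, `β^{-1/2} y_j`. If `α = 0`
  then all `x_j = 0` (`∑ ‖x_j ξ‖² ≤ 0`), and the same for `β`.
* `gam_improve`: let `N = 3^|J|` and `a = 1/8`. For `ω : J → ZMod 3` let `X = Xs x ω`,
  `Y = Xs y (-ω)` and let `X^c`, `Y^c` be their truncations (`trunc`, `a = 1/8`, chosen with
  `Classical.choose`), `R_X = X - X^c`, `R_Y = Y - Y^c`. Then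
  `N ∑_j V(x_j,y_j) = ∑_ω V(X,Y) = ∑_ω V(X^c,Y^c) + ∑_ω V(R_X,Y) + ∑_ω V(X^c,R_Y)`.
  First sum: each term is `≤ K ‖X^c‖‖Y^c‖ ≤ K/(4a) = 2K` (`‖X^c‖² ≤ 2`), total `≤ 2KN`.
  Second sum: the family `(R_X)_ω` indexed by `J → ZMod 3` satisfies `RC (N/16)`:
  `∑_ω ‖R_X ξ‖² ≤ (a/4) ∑_ω ‖X*Xξ‖² ≤ (1/32)·2N ‖ξ‖²` (`mom4`), the same for the adjoints
  (`mom4'`); the family `(Y)_ω` satisfies `RC N` (`mom2`, `mom2'`, and the bijection `ω ↦ -ω`).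
  `gam_scale`: `|∑_ω V(R_X,Y)| ≤ Γ √(N/16) √N = Γ N/4`.
  Third sum: `(X^c)_ω` satisfies `RC N` (`‖X^cξ‖ ≤ ‖Xξ‖`, ...), `(R_Y)_ω` satisfies `RC (N/16)`:
  again `≤ Γ N / 4`. Divide by `N`: `|∑ V(x_j,y_j)| ≤ 2K + Γ/2`.
* `gam_four`: iterate: `Gam V Γ_k` with `Γ_0 = nK`, `Γ_{k+1} = 2K + Γ_k/2`, that is
  `Γ_k = 4K + (nK - 4K)/2^k → 4K`; pass to the limit for every family (`ge_of_tendsto'`).
-/

open scoped InnerProductSpace ComplexConjugate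

namespace Pool.Agent.MP_86f3ed.Am

variable {n : ℕ} {V : (EE n →L[ℂ] EE n) →ₗ[ℂ] (EE n →L[ℂ] EE n) →ₗ[ℂ] ℂ} {K Γ : ℝ}

theorem gam_nonneg (hG : Gam V Γ) : 0 ≤ Γ := by
  have h := hG (Fin 0) (fun _ => 0) (fun _ => 0) (fun ξ => by simp) (fun ξ => by simp)
  exact (norm_nonneg _).trans h

theorem gam_sum_norm {J : Type} [Fintype J] {x : J → (EE n →L[ℂ] EE n)} (hx : RC 1 x) :
    ∑ j, ‖x j‖ ^ 2 ≤ n := by
  calc ∑ j, ‖x j‖ ^ 2 ≤ ∑ j, ∑ i, ‖x j (EuclideanSpace.single i 1)‖ ^ 2 :=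
        Finset.sum_le_sum fun j _ => norm_sq_le_hs (x j)
    _ = ∑ i : Fin n, ∑ j, ‖x j (EuclideanSpace.single i 1)‖ ^ 2 := Finset.sum_comm
    _ ≤ ∑ i : Fin n, 1 := by
        refine Finset.sum_le_sum fun i _ => ?_
        have h := (hx (EuclideanSpace.single i 1)).1
        have h1 : ‖(EuclideanSpace.single i (1 : ℂ) : EE n)‖ = 1 := by
          rw [EuclideanSpace.norm_single, norm_one]
        rw [h1] at h
        linarith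
    _ = n := by simp

theorem gam_apriori (hK : 0 ≤ K) (hV : ∀ x y, ‖V x y‖ ≤ K * (‖x‖ * ‖y‖)) :
    Gam V (n * K) := by
  intro J _ x y hx hy
  calc ‖∑ j, V (x j) (y j)‖ ≤ ∑ j, ‖V (x j) (y j)‖ := norm_sum_le _ _
    _ ≤ ∑ j, K * ((‖x j‖ ^ 2 + ‖y j‖ ^ 2) / 2) := by
        refine Finset.sum_le_sum fun j _ => (hV _ _).trans ?_
        refine mul_le_mul_of_nonneg_left ?_ hK
        nlinarith [sq_nonneg (‖x j‖ - ‖y j‖)]
    _ = K * ((∑ j, ‖x j‖ ^ 2 + ∑ j, ‖y j‖ ^ 2) / 2) := by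
        rw [← Finset.mul_sum, ← Finset.sum_div, Finset.sum_add_distrib]
    _ ≤ K * ((n + n) / 2) := by
        refine mul_le_mul_of_nonneg_left ?_ hK
        have h1 := gam_sum_norm hx
        have h2 := gam_sum_norm hy
        linarith
    _ = n * K := by ring

theorem gam_zero {J : Type} [Fintype J] {x : J → (EE n →L[ℂ] EE n)} (hx : RC 0 x) (j : J) :
    x j = 0 := by
  ext1 ξ
  have h := (hx ξ).1
  rw [zero_mul] at h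
  have h1 : ‖x j ξ‖ ^ 2 ≤ 0 :=
    (Finset.single_le_sum (f := fun j => ‖x j ξ‖ ^ 2) (fun i _ => sq_nonneg _)
      (Finset.mem_univ j)).trans h
  have h2 : ‖x j ξ‖ = 0 := by
    have := sq_nonneg ‖x j ξ‖
    exact pow_eq_zero_iff two_ne_zero |>.1 (le_antisymm h1 this)
  rw [norm_eq_zero] at h2
  rw [h2]; rfl

theorem gam_RC_smul {J : Type} [Fintype J] {α : ℝ} (hα : 0 < α)
    {x : J → (EE n →L[ℂ] EE n)} (hx : RC α x) :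
    RC 1 (fun j => (((√α)⁻¹ : ℝ) : ℂ) • x j) := by
  intro ξ
  have hs : ((√α)⁻¹) ^ 2 * α = 1 := by
    rw [inv_pow, Real.sq_sqrt hα.le]
    exact inv_mul_cancel₀ hα.ne'
  have h0 : 0 ≤ ((√α)⁻¹) ^ 2 := sq_nonneg _
  have hn : ∀ v : EE n, ‖(((√α)⁻¹ : ℝ) : ℂ) • v‖ ^ 2 = ((√α)⁻¹) ^ 2 * ‖v‖ ^ 2 := by
    intro v
    rw [norm_smul, Complex.norm_real, mul_pow, Real.norm_eq_abs, sq_abs]
  constructor
  · have h1 : ∀ j, ‖((((√α)⁻¹ : ℝ) : ℂ) • x j) ξ‖ ^ 2 = ((√α)⁻¹) ^ 2 * ‖x j ξ‖ ^ 2 := fun j =>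
      hn (x j ξ)
    simp only [h1]
    rw [← Finset.mul_sum]
    calc ((√α)⁻¹) ^ 2 * ∑ j, ‖x j ξ‖ ^ 2 ≤ ((√α)⁻¹) ^ 2 * (α * ‖ξ‖ ^ 2) :=
          mul_le_mul_of_nonneg_left (hx ξ).1 h0
      _ = 1 * ‖ξ‖ ^ 2 := by rw [← mul_assoc, hs]
  · have h1 : ∀ j, ‖(star ((((√α)⁻¹ : ℝ) : ℂ) • x j)) ξ‖ ^ 2 =
        ((√α)⁻¹) ^ 2 * ‖(star (x j)) ξ‖ ^ 2 := by
      intro j
      have e : star ((((√α)⁻¹ : ℝ) : ℂ) • x j) = (((√α)⁻¹ : ℝ) : ℂ) • star (x j) := by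
        rw [star_smul]
        congr 1
        exact Complex.conj_ofReal _
      rw [e]
      exact hn ((star (x j)) ξ)
    simp only [h1]
    rw [← Finset.mul_sum]
    calc ((√α)⁻¹) ^ 2 * ∑ j, ‖(star (x j)) ξ‖ ^ 2 ≤ ((√α)⁻¹) ^ 2 * (α * ‖ξ‖ ^ 2) :=
          mul_le_mul_of_nonneg_left (hx ξ).2 h0
      _ = 1 * ‖ξ‖ ^ 2 := by rw [← mul_assoc, hs]

theorem gam_scale (hG : Gam V Γ) {J : Type} [Fintype J] {α β : ℝ} (hα : 0 ≤ α) (hβ : 0 ≤ β)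
    {x y : J → (EE n →L[ℂ] EE n)} (hx : RC α x) (hy : RC β y) :
    ‖∑ j, V (x j) (y j)‖ ≤ Γ * (√α * √β) := by
  rcases hα.eq_or_lt with h | h
  · subst h
    simp only [gam_zero hx]
    simp
  rcases hβ.eq_or_lt with h' | h'
  · subst h'
    simp only [gam_zero hy]
    simp
  have h1 := hG J _ _ (gam_RC_smul h hx) (gam_RC_smul h' hy)
  have ha : 0 < √α := Real.sqrt_pos.2 h
  have hb : 0 < √β := Real.sqrt_pos.2 h'
  have h2 : ∀ j, V ((((√α)⁻¹ : ℝ) : ℂ) • x j) ((((√β)⁻¹ : ℝ) : ℂ) • y j) =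
      (((√α)⁻¹ * (√β)⁻¹ : ℝ) : ℂ) * V (x j) (y j) := by
    intro j
    rw [map_smul, map_smul, LinearMap.smul_apply, smul_eq_mul, smul_eq_mul]
    push_cast
    ring
  simp only [h2] at h1
  rw [← Finset.mul_sum, norm_mul, Complex.norm_real, Real.norm_eq_abs,
    abs_of_pos (by positivity)] at h1
  have h3 : ‖∑ j, V (x j) (y j)‖ =
      (√α * √β) * ((√α)⁻¹ * (√β)⁻¹ * ‖∑ j, V (x j) (y j)‖) := by
    field_simp
  rw [h3, mul_comm Γ]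
  exact mul_le_mul_of_nonneg_left h1 (by positivity)

theorem gam_improve (hK : 0 ≤ K) (hV : ∀ x y, ‖V x y‖ ≤ K * (‖x‖ * ‖y‖)) (hG : Gam V Γ) :
    Gam V (2 * K + Γ / 2) := by
  intro J _ x y hx hy
  classical
  have hΓ := gam_nonneg hG
  set N : ℝ := 3 ^ Fintype.card J with hN
  have hN0 : 0 < N := by positivity
  choose Xc x1 x2 x3 x4 x5 using fun ω : J → ZMod 3 =>
    trunc (Xs x ω) (1 / 8) (by norm_num)
  choose Yc y1 y2 y3 y4 y5 using fun ω : J → ZMod 3 =>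
    trunc (Xs y (-ω)) (1 / 8) (by norm_num)
  have neg_sum : ∀ f : (J → ZMod 3) → ℝ, ∑ ω, f (-ω) = ∑ ω, f ω := fun f =>
    Equiv.sum_comp (Equiv.neg _) f
  -- the four families
  have hRX : RC (N / 16) (fun ω => Xs x ω - Xc ω) := by
    intro ξ
    constructor
    · calc ∑ ω, ‖(Xs x ω - Xc ω) ξ‖ ^ 2
          ≤ ∑ ω, (1 / 8) / 4 * ‖(star (Xs x ω)) (Xs x ω ξ)‖ ^ 2 :=
            Finset.sum_le_sum fun ω _ => x4 ω ξ
        _ = (1 / 8) / 4 * ∑ ω, ‖(star (Xs x ω)) (Xs x ω ξ)‖ ^ 2 := (Finset.mul_sum _ _ _).symm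
        _ ≤ (1 / 8) / 4 * (N * (2 * ‖ξ‖ ^ 2)) :=
            mul_le_mul_of_nonneg_left (mom4 hx ξ) (by norm_num)
        _ = N / 16 * ‖ξ‖ ^ 2 := by ring
    · calc ∑ ω, ‖(star (Xs x ω - Xc ω)) ξ‖ ^ 2
          ≤ ∑ ω, (1 / 8) / 4 * ‖Xs x ω ((star (Xs x ω)) ξ)‖ ^ 2 :=
            Finset.sum_le_sum fun ω _ => x5 ω ξ
        _ = (1 / 8) / 4 * ∑ ω, ‖Xs x ω ((star (Xs x ω)) ξ)‖ ^ 2 := (Finset.mul_sum _ _ _).symm
        _ ≤ (1 / 8) / 4 * (N * (2 * ‖ξ‖ ^ 2)) :=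
            mul_le_mul_of_nonneg_left (mom4' hx ξ) (by norm_num)
        _ = N / 16 * ‖ξ‖ ^ 2 := by ring
  have hRY : RC (N / 16) (fun ω => Xs y (-ω) - Yc ω) := by
    intro ξ
    constructor
    · calc ∑ ω, ‖(Xs y (-ω) - Yc ω) ξ‖ ^ 2
          ≤ ∑ ω, (1 / 8) / 4 * ‖(star (Xs y (-ω))) (Xs y (-ω) ξ)‖ ^ 2 :=
            Finset.sum_le_sum fun ω _ => y4 ω ξ
        _ = (1 / 8) / 4 * ∑ ω, ‖(star (Xs y (-ω))) (Xs y (-ω) ξ)‖ ^ 2 :=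
            (Finset.mul_sum _ _ _).symm
        _ = (1 / 8) / 4 * ∑ ω, ‖(star (Xs y ω)) (Xs y ω ξ)‖ ^ 2 := by
            rw [neg_sum (fun ω => ‖(star (Xs y ω)) (Xs y ω ξ)‖ ^ 2)]
        _ ≤ (1 / 8) / 4 * (N * (2 * ‖ξ‖ ^ 2)) :=
            mul_le_mul_of_nonneg_left (mom4 hy ξ) (by norm_num)
        _ = N / 16 * ‖ξ‖ ^ 2 := by ring
    · calc ∑ ω, ‖(star (Xs y (-ω) - Yc ω)) ξ‖ ^ 2
          ≤ ∑ ω, (1 / 8) / 4 * ‖Xs y (-ω) ((star (Xs y (-ω))) ξ)‖ ^ 2 :=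
            Finset.sum_le_sum fun ω _ => y5 ω ξ
        _ = (1 / 8) / 4 * ∑ ω, ‖Xs y (-ω) ((star (Xs y (-ω))) ξ)‖ ^ 2 :=
            (Finset.mul_sum _ _ _).symm
        _ = (1 / 8) / 4 * ∑ ω, ‖Xs y ω ((star (Xs y ω)) ξ)‖ ^ 2 := by
            rw [neg_sum (fun ω => ‖Xs y ω ((star (Xs y ω)) ξ)‖ ^ 2)]
        _ ≤ (1 / 8) / 4 * (N * (2 * ‖ξ‖ ^ 2)) :=
            mul_le_mul_of_nonneg_left (mom4' hy ξ) (by norm_num)
        _ = N / 16 * ‖ξ‖ ^ 2 := by ring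
  have hY : RC N (fun ω => Xs y (-ω)) := by
    intro ξ
    constructor
    · rw [neg_sum (fun ω => ‖Xs y ω ξ‖ ^ 2)]
      exact mom2 hy ξ
    · rw [neg_sum (fun ω => ‖(star (Xs y ω)) ξ‖ ^ 2)]
      exact mom2' hy ξ
  have hXc : RC N Xc := by
    intro ξ
    constructor
    · exact (Finset.sum_le_sum fun ω _ => pow_le_pow_left₀ (norm_nonneg _) (x2 ω ξ) 2).trans
        (mom2 hx ξ)
    · exact (Finset.sum_le_sum fun ω _ => pow_le_pow_left₀ (norm_nonneg _) (x3 ω ξ) 2).trans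
        (mom2' hx ξ)
  -- the three sums
  have s1 : ‖∑ ω, V (Xc ω) (Yc ω)‖ ≤ N * (2 * K) := by
    have hcard : (Fintype.card (J → ZMod 3) : ℝ) = N := by
      rw [Fintype.card_fun, ZMod.card, hN]
      push_cast; rfl
    calc ‖∑ ω, V (Xc ω) (Yc ω)‖ ≤ ∑ ω, ‖V (Xc ω) (Yc ω)‖ := norm_sum_le _ _
      _ ≤ ∑ _ω : J → ZMod 3, 2 * K := by
          refine Finset.sum_le_sum fun ω _ => (hV _ _).trans ?_
          have h1 := x1 ω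
          have h2 := y1 ω
          have h3 : (1 : ℝ) / (4 * (1 / 8)) = 2 := by norm_num
          rw [h3] at h1 h2
          have h4 : ‖Xc ω‖ * ‖Yc ω‖ ≤ 2 := by nlinarith [sq_nonneg (‖Xc ω‖ - ‖Yc ω‖)]
          calc K * (‖Xc ω‖ * ‖Yc ω‖) ≤ K * 2 := mul_le_mul_of_nonneg_left h4 hK
            _ = 2 * K := by ring
      _ = N * (2 * K) := by
          rw [Finset.sum_const, Finset.card_univ, nsmul_eq_mul, hcard]
  have hsq : √(N / 16) * √N = N / 4 := by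
    rw [← Real.sqrt_mul (by positivity)]
    have : N / 16 * N = (N / 4) ^ 2 := by ring
    rw [this, Real.sqrt_sq (by positivity)]
  have s2 : ‖∑ ω, V (Xs x ω - Xc ω) (Xs y (-ω))‖ ≤ Γ * (N / 4) := by
    have := gam_scale hG (by positivity) hN0.le hRX hY
    rwa [hsq] at this
  have s3 : ‖∑ ω, V (Xc ω) (Xs y (-ω) - Yc ω)‖ ≤ Γ * (N / 4) := by
    have := gam_scale hG hN0.le (by positivity) hXc hRY
    rwa [mul_comm (√N), hsq] at this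
  have e : ∑ ω, V (Xs x ω) (Xs y (-ω)) = ∑ ω, V (Xc ω) (Yc ω) +
      ∑ ω, V (Xs x ω - Xc ω) (Xs y (-ω)) + ∑ ω, V (Xc ω) (Xs y (-ω) - Yc ω) := by
    rw [← Finset.sum_add_distrib, ← Finset.sum_add_distrib]
    refine Finset.sum_congr rfl fun ω _ => ?_
    rw [map_sub, LinearMap.sub_apply, map_sub]
    ring
  have m := momV V x y
  rw [e] at m
  have hn : N * ‖∑ j, V (x j) (y j)‖ ≤ N * (2 * K) + Γ * (N / 4) + Γ * (N / 4) := by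
    have h1 : N * ‖∑ j, V (x j) (y j)‖ = ‖(3 : ℂ) ^ Fintype.card J * ∑ j, V (x j) (y j)‖ := by
      rw [norm_mul, norm_pow]
      simp [hN]
    rw [h1, ← m]
    exact (norm_add₃_le).trans (add_le_add (add_le_add s1 s2) s3)
  have h5 : N * (2 * K) + Γ * (N / 4) + Γ * (N / 4) = N * (2 * K + Γ / 2) := by ring
  rw [h5] at hn
  exact le_of_mul_le_mul_left hn hN0

theorem gam_iter (hK : 0 ≤ K) (hV : ∀ x y, ‖V x y‖ ≤ K * (‖x‖ * ‖y‖)) (k : ℕ) :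
    Gam V (4 * K + (n * K - 4 * K) * (1 / 2) ^ k) := by
  induction k with
  | zero =>
    have h := gam_apriori hK hV
    have e : 4 * K + (n * K - 4 * K) * (1 / 2) ^ 0 = n * K := by ring
    rw [e]
    exact h
  | succ k ih =>
    have h := gam_improve hK hV ih
    have e : 4 * K + (n * K - 4 * K) * (1 / 2) ^ (k + 1) =
        2 * K + (4 * K + (n * K - 4 * K) * (1 / 2) ^ k) / 2 := by
      rw [pow_succ]; ring
    rw [e]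
    exact h

theorem gam_four (hK : 0 ≤ K) (hV : ∀ x y, ‖V x y‖ ≤ K * (‖x‖ * ‖y‖)) : Gam V (4 * K) := by
  intro J _ x y hx hy
  have ht : Filter.Tendsto (fun k : ℕ => 4 * K + (n * K - 4 * K) * (1 / 2 : ℝ) ^ k)
      Filter.atTop (nhds (4 * K)) := by
    have h := (tendsto_pow_atTop_nhds_zero_of_lt_one (r := (1 / 2 : ℝ)) (by norm_num)
      (by norm_num)).const_mul (n * K - 4 * K)
    have h2 := h.const_add (4 * K)
    rw [mul_zero, add_zero] at h2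
    exact h2
  exact ge_of_tendsto' ht fun k => gam_iter hK hV k J x y hx hy

end Pool.Agent.MP_86f3ed.Am
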