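import Pool.Agent.H.MP_86f3ed_an.Am.Ent

/-!
# Am/Sum: finite sums in a C*-algebra, positivity and contractivity of `kT`

`A` is a unital C*-algebra with its order (`[PartialOrder A] [StarOrderedRing A]`).

* `cs_sum` (Cauchy–Schwarz): put `c = ∑ s_j* u_j`, `P = ∑ s_j* s_j`, `Q = ∑ u_j* u_j`,
  `α = ‖P‖`. If `α = 0` then every `s_j* s_j = 0` (`0 ≤ s_j* s_j ≤ P = 0`), so `s_j = 0`
  (`CStarRing.norm_star_mul_self`) and both sides are `0`. If `α > 0`:
  `0 ≤ ∑ (u_j - α⁻¹ s_j c)* (u_j - α⁻¹ s_j c) = Q - 2α⁻¹ c* c + α⁻² c* P c ≤ Q - α⁻¹ c* c`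
  because `P ≤ α 1` gives `c* P c ≤ α c* c` (`star_left_conjugate_le_conjugate` or
  `conjugate_le_conjugate`). Hence `c* c ≤ α Q`, and `‖c‖² = ‖c* c‖ ≤ α ‖Q‖`
  (`CStarAlgebra.norm_le_norm_of_nonneg_of_le`).
* `kT_star_mul_nonneg`: `T(b* b) = ∑ (∑_j b_ij t_kj)* (∑_j b_ij t_kj)` by `kT_star_mul`.
* `kT_nonneg`: `P` is a positive operator on `ℂⁿ`, so `P = star c * c`
  (`ContinuousLinearMap.IsPositive`, `ContinuousLinearMap.nonneg_iff_isPositive`,
  `CStarAlgebra.nonneg_iff_eq_star_mul_self`).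
* `kT_norm`: `T(b) = ∑_{k,i} t_ki* u_ki`, `u_ki = ∑_j b_ij t_kj` and by `cs_sum` over the index
  type `Fin m × Fin n` and `∑ t* t = 1`: `‖T(b)‖² ≤ ‖∑ u* u‖ = ‖T(b* b)‖ ≤ ‖b‖²`; the last step:
  `‖b‖² 1 - b* b` satisfies the hypotheses of `kT_nonneg`, so
  `0 ≤ T(b* b) ≤ ‖b‖² T(1) = ‖b‖² 1`, and `CStarAlgebra.norm_le_norm_of_nonneg_of_le`.
  (If `A` is the zero ring everything is `0`: `Subsingleton`; or use `norm_algebraMap'`-free
  bounds such as `CStarAlgebra.norm_le_iff_le_algebraMap`.)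
* `sum_le_algebraMap`: for a nonnegative element: `‖P‖ ≤ α ↔ P ≤ algebraMap ℝ A α`
  (`CStarAlgebra.norm_le_iff_le_algebraMap`).
-/

open scoped InnerProductSpace

namespace Pool.Agent.MP_86f3ed.Am

universe u v

variable {A : Type u} [CStarAlgebra A] [PartialOrder A] [StarOrderedRing A]

theorem sum_star_mul_nonneg {J : Type*} [Fintype J] (s : J → A) : 0 ≤ ∑ j, star (s j) * s j :=
  Finset.sum_nonneg fun j _ => star_mul_self_nonneg (s j)

theorem cs_sum {J : Type*} [Fintype J] (s u : J → A) :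
    ‖∑ j, star (s j) * u j‖ ^ 2 ≤ ‖∑ j, star (s j) * s j‖ * ‖∑ j, star (u j) * u j‖ := by
  set c : A := ∑ j, star (s j) * u j with hc
  set P : A := ∑ j, star (s j) * s j with hP
  set Q : A := ∑ j, star (u j) * u j with hQ
  have hP0 : 0 ≤ P := sum_star_mul_nonneg s
  have hQ0 : 0 ≤ Q := sum_star_mul_nonneg u
  rcases (norm_nonneg P).eq_or_lt with h0 | h0
  · have hPz : P = 0 := norm_eq_zero.mp h0.symm
    have hs : ∀ j, s j = 0 := by
      intro j
      have h1 : star (s j) * s j ≤ P := Finset.single_le_sum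
        (f := fun j => star (s j) * s j) (fun i _ => star_mul_self_nonneg (s i))
        (Finset.mem_univ j)
      rw [hPz] at h1
      have h2 : star (s j) * s j = 0 := le_antisymm h1 (star_mul_self_nonneg _)
      have h3 := CStarRing.norm_star_mul_self (x := s j)
      rw [h2, norm_zero] at h3
      exact norm_eq_zero.mp (mul_self_eq_zero.mp h3.symm)
    have hc0 : c = 0 := by
      rw [hc]
      exact Finset.sum_eq_zero fun j _ => by rw [hs j, star_zero, zero_mul]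
    rw [hc0, norm_zero, hPz, norm_zero]
    norm_num
  · set α : ℝ := ‖P‖ with hα
    have hstar : ∑ j, star (u j) * s j = star c := by
      rw [hc, star_sum]
      exact Finset.sum_congr rfl fun j _ => by rw [star_mul, star_star]
    have h1 : 0 ≤ ∑ j, star (u j - α⁻¹ • (s j * c)) * (u j - α⁻¹ • (s j * c)) :=
      sum_star_mul_nonneg _
    have h2 : ∑ j, star (u j - α⁻¹ • (s j * c)) * (u j - α⁻¹ • (s j * c)) =
        Q - α⁻¹ • (star c * c) - α⁻¹ • (star c * c) + (α⁻¹ * α⁻¹) • (star c * P * c) := by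
      have h3 : ∀ j, star (u j - α⁻¹ • (s j * c)) * (u j - α⁻¹ • (s j * c)) =
          star (u j) * u j - α⁻¹ • ((star (u j) * s j) * c) -
            α⁻¹ • (star c * (star (s j) * u j)) +
            (α⁻¹ * α⁻¹) • (star c * (star (s j) * s j) * c) := by
        intro j
        rw [star_sub, star_smul, star_mul, star_trivial α⁻¹, sub_mul, mul_sub, mul_sub,
          smul_mul_smul_comm, mul_smul_comm, smul_mul_assoc]
        simp only [mul_assoc]
        abel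
      rw [Finset.sum_congr rfl fun j _ => h3 j, Finset.sum_add_distrib, Finset.sum_sub_distrib,
        Finset.sum_sub_distrib, ← Finset.smul_sum, ← Finset.smul_sum, ← Finset.smul_sum,
        ← Finset.sum_mul, ← Finset.mul_sum, ← Finset.sum_mul, ← Finset.mul_sum, hstar]
    have h4 : star c * P * c ≤ α • (star c * c) := by
      have h5 : P ≤ algebraMap ℝ A α :=
        (CStarAlgebra.norm_le_iff_le_algebraMap P (norm_nonneg P) hP0).mp le_rfl
      have h6 := star_left_conjugate_le_conjugate h5 c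
      rwa [Algebra.algebraMap_eq_smul_one, mul_smul_comm, mul_one, smul_mul_assoc] at h6
    have h7 : (α⁻¹ * α⁻¹) • (star c * P * c) ≤ α⁻¹ • (star c * c) := by
      calc (α⁻¹ * α⁻¹) • (star c * P * c) ≤ (α⁻¹ * α⁻¹) • (α • (star c * c)) :=
            smul_le_smul_of_nonneg_left h4 (by positivity)
        _ = α⁻¹ • (star c * c) := by
            rw [smul_smul]
            congr 1
            field_simp
    have h8 : α⁻¹ • (star c * c) ≤ Q := by
      rw [h2] at h1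
      have h9 : 0 ≤ Q - α⁻¹ • (star c * c) - α⁻¹ • (star c * c) + α⁻¹ • (star c * c) :=
        h1.trans (add_le_add_right h7 _)
      rw [sub_add_cancel] at h9
      exact sub_nonneg.mp h9
    have h10 : 0 ≤ α⁻¹ • (star c * c) := smul_nonneg (by positivity) (star_mul_self_nonneg c)
    have h11 := CStarAlgebra.norm_le_norm_of_nonneg_of_le h10 h8
    rw [norm_smul, CStarRing.norm_star_mul_self, Real.norm_eq_abs,
      abs_of_pos (inv_pos.mpr h0)] at h11
    have h12 : ‖c‖ * ‖c‖ ≤ α * ‖Q‖ := by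
      calc ‖c‖ * ‖c‖ = α * (α⁻¹ * (‖c‖ * ‖c‖)) := by field_simp
        _ ≤ α * ‖Q‖ := mul_le_mul_of_nonneg_left h11 h0.le
    rw [pow_two]
    exact h12

variable {n m : ℕ}

theorem kT_star_mul_nonneg (t : Fin m → Fin n → A) (b : EE n →L[ℂ] EE n) :
    0 ≤ kT t (star b * b) := by
  rw [← kT_star_mul]
  exact Finset.sum_nonneg fun k _ => sum_star_mul_nonneg _

theorem kT_nonneg (t : Fin m → Fin n → A) (P : EE n →L[ℂ] EE n) (hsa : star P = P)
    (hP : ∀ ξ, 0 ≤ (⟪ξ, P ξ⟫_ℂ).re) : 0 ≤ kT t P := by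
  have h1 : 0 ≤ P := by
    rw [ContinuousLinearMap.nonneg_iff_isPositive, ContinuousLinearMap.isPositive_def']
    refine ⟨hsa, fun x => ?_⟩
    rw [ContinuousLinearMap.reApplyInnerSelf_apply, ← inner_re_symm]
    exact hP x
  obtain ⟨b, hb⟩ := CStarAlgebra.nonneg_iff_eq_star_mul_self.mp h1
  rw [hb]
  exact kT_star_mul_nonneg t b

theorem kT_norm (t : Fin m → Fin n → A) (ht : ∑ k, ∑ i, star (t k i) * t k i = 1)
    (b : EE n →L[ℂ] EE n) : ‖kT t b‖ ≤ ‖b‖ := by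
  have h1 := cs_sum (J := Fin m × Fin n) (fun k => t k.1 k.2)
    (fun k => ∑ j, ent b k.2 j • t k.1 j)
  have e1 : ∑ k : Fin m × Fin n, star (t k.1 k.2) * ∑ j, ent b k.2 j • t k.1 j = kT t b := by
    rw [Fintype.sum_prod_type, kT]
    refine Finset.sum_congr rfl fun k _ => Finset.sum_congr rfl fun i _ => ?_
    rw [Finset.mul_sum]
    exact Finset.sum_congr rfl fun j _ => by rw [mul_smul_comm]
  have e2 : ∑ k : Fin m × Fin n, star (t k.1 k.2) * t k.1 k.2 = 1 := by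
    rw [Fintype.sum_prod_type, ht]
  have e3 : ∑ k : Fin m × Fin n, star (∑ j, ent b k.2 j • t k.1 j) *
      (∑ j, ent b k.2 j • t k.1 j) = kT t (star b * b) := by
    rw [Fintype.sum_prod_type, kT_star_mul]
  rw [e1, e2, e3] at h1
  have h2 : 0 ≤ kT t (star b * b) := kT_star_mul_nonneg t b
  have h3 : kT t (star b * b) ≤ algebraMap ℝ A (‖b‖ ^ 2) := by
    have h4 : 0 ≤ kT t (((‖b‖ ^ 2 : ℝ) : ℂ) • (1 : EE n →L[ℂ] EE n) - star b * b) := by
      refine kT_nonneg t _ ?_ fun ξ => ?_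
      · have hs1 : IsSelfAdjoint (((‖b‖ ^ 2 : ℝ) : ℂ) • (1 : EE n →L[ℂ] EE n)) := by
          unfold IsSelfAdjoint
          rw [star_smul, star_one, Complex.star_def, Complex.conj_ofReal]
        have hs2 : IsSelfAdjoint (star b * b) := IsSelfAdjoint.star_mul_self b
        exact IsSelfAdjoint.sub (R := EE n →L[ℂ] EE n) hs1 hs2
      · show 0 ≤ (⟪ξ, ((‖b‖ ^ 2 : ℝ) : ℂ) • ξ - (star b * b) ξ⟫_ℂ).re
        have h5 : ⟪ξ, (star b * b) ξ⟫_ℂ = ⟪b ξ, b ξ⟫_ℂ := by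
          show ⟪ξ, (star b) (b ξ)⟫_ℂ = _
          rw [ContinuousLinearMap.star_eq_adjoint, ContinuousLinearMap.adjoint_inner_right]
        rw [inner_sub_right, h5, inner_smul_right, inner_self_eq_norm_sq_to_K,
          inner_self_eq_norm_sq_to_K, Complex.sub_re]
        have h6 : ((((‖b‖ ^ 2 : ℝ) : ℂ)) * ((‖ξ‖ : ℂ)) ^ 2).re = ‖b‖ ^ 2 * ‖ξ‖ ^ 2 := by
          rw [← Complex.ofReal_pow, ← Complex.ofReal_mul, Complex.ofReal_re]
        have h7 : (((‖b ξ‖ : ℂ)) ^ 2).re = ‖b ξ‖ ^ 2 := by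
          rw [← Complex.ofReal_pow, Complex.ofReal_re]
        have h8 : ‖b ξ‖ ^ 2 ≤ ‖b‖ ^ 2 * ‖ξ‖ ^ 2 := by
          rw [← mul_pow]
          exact pow_le_pow_left₀ (norm_nonneg _) (b.le_opNorm ξ) 2
        have h9 : (0 : ℝ) ≤ ((((‖b‖ ^ 2 : ℝ) : ℂ)) * ((‖ξ‖ : ℂ)) ^ 2).re -
            (((‖b ξ‖ : ℂ)) ^ 2).re := by
          rw [h6, h7]; linarith
        exact h9
    rw [← kTl_apply, map_sub, map_smul, kTl_apply, kTl_apply, kT_one t ht] at h4
    rw [Algebra.algebraMap_eq_smul_one]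
    have h5 : ((‖b‖ ^ 2 : ℝ) : ℂ) • (1 : A) = (‖b‖ ^ 2 : ℝ) • (1 : A) := rfl
    rw [h5] at h4
    exact sub_nonneg.mp h4
  have h4 : ‖kT t (star b * b)‖ ≤ ‖b‖ ^ 2 :=
    (CStarAlgebra.norm_le_iff_le_algebraMap _ (by positivity) h2).mpr h3
  have h5 : ‖(1 : A)‖ ≤ 1 := by
    rcases subsingleton_or_nontrivial A with h | h
    · rw [Subsingleton.elim (1 : A) 0, norm_zero]; exact zero_le_one
    · rw [CStarRing.norm_one]
  have h6 : ‖kT t b‖ ^ 2 ≤ ‖b‖ ^ 2 := by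
    calc ‖kT t b‖ ^ 2 ≤ ‖(1 : A)‖ * ‖kT t (star b * b)‖ := h1
      _ ≤ 1 * ‖b‖ ^ 2 := mul_le_mul h5 h4 (norm_nonneg _) zero_le_one
      _ = ‖b‖ ^ 2 := one_mul _
  exact (sq_le_sq₀ (norm_nonneg _) (norm_nonneg _)).mp h6

end Pool.Agent.MP_86f3ed.Am
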