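import Pool.Agent.H.MP_86f3ed_an.Am.Gam
import Pool.Agent.H.MP_86f3ed_an.Am.Sum

/-!
# Am/GamA: the `Γ`-inequality in a C*-algebra with `KCP`

`A` unital with `KCP A`, `V` a bounded bilinear form, finite families `x, y : J → A` with
`‖∑ x_j* x_j‖, ‖∑ x_j x_j*‖ ≤ α` and `‖∑ y_j* y_j‖, ‖∑ y_j y_j*‖ ≤ β`. Claim:
`|∑ V(x_j,y_j)| ≤ 4 ‖V‖ √α √β`.

* `rc_of_schwarz`: if `S` is as in `KCP` then `RC α (S ∘ x)`:
  `∑ ‖S(x_j) ξ‖² ≤ ∑ re⟪ξ, S(x_j* x_j) ξ⟫ = re⟪ξ, S(∑ x_j* x_j) ξ⟫ ≤ α ‖ξ‖²`, because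
  `α·1 - ∑ x_j* x_j` is `≥ 0`, hence `= star c * c` (`CStarAlgebra.nonneg_iff_eq_star_mul_self`,
  `CStarAlgebra.norm_le_iff_le_algebraMap`), and `re⟪ξ, S(star c * c) ξ⟫ ≥ ‖S c ξ‖² ≥ 0`,
  `S 1 = 1`. The adjoint half: `star (S x_j) = S (star x_j)` and the same for the family `x_j*`.
* `gam_A`: let `ε > 0`, take `KCP` for the finite set of all `x_j`, `y_j` and put
  `T = kT t`, `x'_j = T(S x_j)`, `y'_j = T(S y_j)`, `‖x'_j - x_j‖ ≤ ε`, `‖y'_j - y_j‖ ≤ ε`.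
  The form `W(b,c) = V(T b, T c)` on `M_n` satisfies `|W(b,c)| ≤ ‖V‖‖b‖‖c‖` (`kT_norm`), so
  `|∑ V(x'_j,y'_j)| = |∑ W(S x_j, S y_j)| ≤ 4‖V‖√α√β` (`gam_four`, `gam_scale`). And
  `|V(x_j,y_j) - V(x'_j,y'_j)| ≤ ‖V‖ (‖x_j-x'_j‖‖y_j‖ + ‖x'_j‖‖y_j-y'_j‖)
   ≤ ‖V‖ ε (‖y_j‖ + ‖x_j‖ + ε)`.
  Let `ε → 0` (e.g. `le_of_forall_pos_le_add` with `ε` chosen small, or
  `ge_of_tendsto`).
* `V : A →L[ℂ] A →L[ℂ] ℂ`; `‖V x y‖ ≤ ‖V‖ * ‖x‖ * ‖y‖` is `ContinuousLinearMap.le_opNorm₂`.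
-/

open scoped InnerProductSpace ComplexConjugate

namespace Pool.Agent.MP_86f3ed.Am

universe u

variable {A : Type u} [CStarAlgebra A] [PartialOrder A] [StarOrderedRing A]

theorem GamA_row {n : ℕ} (S : A →ₗ[ℂ] (EE n →L[ℂ] EE n)) (S1 : S 1 = 1)
    (Ssc : ∀ a ξ, ‖S a ξ‖ ^ 2 ≤ (⟪ξ, S (star a * a) ξ⟫_ℂ).re) {J : Type} [Fintype J]
    (x : J → A) {α : ℝ} (h1 : ‖∑ j, star (x j) * x j‖ ≤ α) (ξ : EE n) :
    ∑ j, ‖S (x j) ξ‖ ^ 2 ≤ α * ‖ξ‖ ^ 2 := by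
  have hα : 0 ≤ α := (norm_nonneg _).trans h1
  have hP : 0 ≤ ∑ j, star (x j) * x j := sum_star_mul_nonneg x
  have h3 : ∑ j, star (x j) * x j ≤ algebraMap ℝ A α :=
    (CStarAlgebra.norm_le_iff_le_algebraMap _ hα hP).mp h1
  rw [← sub_nonneg] at h3
  obtain ⟨c, hc⟩ := CStarAlgebra.nonneg_iff_eq_star_mul_self.mp h3
  have h4 : 0 ≤ (⟪ξ, S (star c * c) ξ⟫_ℂ).re := (sq_nonneg _).trans (Ssc c ξ)
  rw [← hc] at h4
  have h5 : algebraMap ℝ A α = (α : ℂ) • (1 : A) := by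
    rw [Algebra.algebraMap_eq_smul_one, Complex.coe_smul]
  rw [h5, map_sub, map_smul, S1] at h4
  have h6 : ((α : ℂ) • (1 : EE n →L[ℂ] EE n) - S (∑ j, star (x j) * x j)) ξ =
      (α : ℂ) • ξ - S (∑ j, star (x j) * x j) ξ := rfl
  rw [h6, inner_sub_right, inner_smul_right, Complex.sub_re, map_sum,
    ContinuousLinearMap.sum_apply, inner_sum, Complex.re_sum] at h4
  have h7 : ((α : ℂ) * ⟪ξ, ξ⟫_ℂ).re = α * ‖ξ‖ ^ 2 := by
    rw [inner_self_eq_norm_sq_to_K]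
    have : ((α : ℂ) * ((‖ξ‖ : ℝ) : ℂ) ^ 2) = ((α * ‖ξ‖ ^ 2 : ℝ) : ℂ) := by push_cast; rfl
    exact (congrArg Complex.re this).trans (Complex.ofReal_re _)
  rw [h7] at h4
  have h8 : ∑ j, ‖S (x j) ξ‖ ^ 2 ≤ ∑ j, (⟪ξ, S (star (x j) * x j) ξ⟫_ℂ).re :=
    Finset.sum_le_sum fun j _ => Ssc (x j) ξ
  linarith

theorem rc_of_schwarz {n : ℕ} (S : A →ₗ[ℂ] (EE n →L[ℂ] EE n)) (S1 : S 1 = 1)
    (Sst : ∀ a, S (star a) = star (S a))
    (Ssc : ∀ a ξ, ‖S a ξ‖ ^ 2 ≤ (⟪ξ, S (star a * a) ξ⟫_ℂ).re) {J : Type} [Fintype J]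
    (x : J → A) {α : ℝ} (h1 : ‖∑ j, star (x j) * x j‖ ≤ α) (h2 : ‖∑ j, x j * star (x j)‖ ≤ α) :
    RC α (fun j => S (x j)) := by
  intro ξ
  refine ⟨GamA_row S S1 Ssc x h1 ξ, ?_⟩
  have h3 := GamA_row S S1 Ssc (fun j => star (x j)) (α := α) (by simpa using h2) ξ
  refine le_trans (le_of_eq ?_) h3
  exact Finset.sum_congr rfl fun j _ => by rw [Sst]

theorem gam_A (hA : KCP A) (V : A →L[ℂ] A →L[ℂ] ℂ) {J : Type} [Fintype J] (x y : J → A)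
    {α β : ℝ} (hx1 : ‖∑ j, star (x j) * x j‖ ≤ α) (hx2 : ‖∑ j, x j * star (x j)‖ ≤ α)
    (hy1 : ‖∑ j, star (y j) * y j‖ ≤ β) (hy2 : ‖∑ j, y j * star (y j)‖ ≤ β) :
    ‖∑ j, V (x j) (y j)‖ ≤ 4 * ‖V‖ * (√α * √β) := by
  classical
  have hα : 0 ≤ α := (norm_nonneg _).trans hx1
  have hβ : 0 ≤ β := (norm_nonneg _).trans hy1
  set B : ℝ := ∑ j, ‖V‖ * (‖y j‖ + ‖x j‖ + 1) with hB
  have hB0 : 0 ≤ B := Finset.sum_nonneg fun j _ => by positivity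
  have key : ∀ ε : ℝ, 0 < ε → ε ≤ 1 →
      ‖∑ j, V (x j) (y j)‖ ≤ 4 * ‖V‖ * (√α * √β) + ε * B := by
    intro ε hε hε1
    obtain ⟨n, m, S, t, S1, Sst, Ssc, ht, hF⟩ :=
      hA (Finset.univ.image x ∪ Finset.univ.image y) ε hε
    have hF' : ∀ a ∈ Finset.univ.image x ∪ Finset.univ.image y, ‖kTl t (S a) - a‖ ≤ ε :=
      fun a ha => hF a ha
    have hxF : ∀ j, ‖kTl t (S (x j)) - x j‖ ≤ ε := fun j =>
      hF' _ (Finset.mem_union_left _ (Finset.mem_image_of_mem _ (Finset.mem_univ j)))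
    have hyF : ∀ j, ‖kTl t (S (y j)) - y j‖ ≤ ε := fun j =>
      hF' _ (Finset.mem_union_right _ (Finset.mem_image_of_mem _ (Finset.mem_univ j)))
    set W : (EE n →L[ℂ] EE n) →ₗ[ℂ] (EE n →L[ℂ] EE n) →ₗ[ℂ] ℂ :=
      LinearMap.mk₂ ℂ (fun b c => V (kTl t b) (kTl t c))
        (by intro a b c; rw [map_add, map_add]; rfl)
        (by intro z a b; rw [map_smul, map_smul]; rfl)
        (by intro a b c; rw [map_add, map_add])
        (by intro z a b; rw [map_smul, map_smul]) with hW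
    have hWapp : ∀ b c, W b c = V (kTl t b) (kTl t c) := fun b c => rfl
    have hWn : ∀ b c, ‖W b c‖ ≤ ‖V‖ * (‖b‖ * ‖c‖) := by
      intro b c
      rw [hWapp]
      refine (V.le_opNorm₂ _ _).trans ?_
      rw [mul_assoc]
      refine mul_le_mul_of_nonneg_left ?_ (norm_nonneg V)
      exact mul_le_mul (kT_norm t ht b) (kT_norm t ht c) (norm_nonneg _) (norm_nonneg _)
    have h3 := gam_scale (gam_four (norm_nonneg V) hWn) hα hβ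
      (rc_of_schwarz S S1 Sst Ssc x hx1 hx2) (rc_of_schwarz S S1 Sst Ssc y hy1 hy2)
    have h4 : ∑ j, V (x j) (y j) = ∑ j, W (S (x j)) (S (y j)) +
        ∑ j, (V (x j) (y j) - W (S (x j)) (S (y j))) := by
      rw [Finset.sum_sub_distrib]
      ring
    have h5 : ‖∑ j, (V (x j) (y j) - W (S (x j)) (S (y j)))‖ ≤ ε * B := by
      rw [hB, Finset.mul_sum]
      refine (norm_sum_le _ _).trans (Finset.sum_le_sum fun j _ => ?_)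
      set x' := kTl t (S (x j)) with hx'
      set y' := kTl t (S (y j)) with hy'
      have e1 : V (x j) (y j) - W (S (x j)) (S (y j)) =
          V (x j - x') (y j) + V x' (y j - y') := by
        rw [hWapp, map_sub, map_sub, ContinuousLinearMap.sub_apply]
        ring
      have e2 : ‖x j - x'‖ ≤ ε := by rw [norm_sub_rev]; exact hxF j
      have e3 : ‖y j - y'‖ ≤ ε := by rw [norm_sub_rev]; exact hyF j
      have e4 : ‖x'‖ ≤ ‖x j‖ + 1 := by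
        calc ‖x'‖ = ‖x j - (x j - x')‖ := by congr 1; abel
          _ ≤ ‖x j‖ + ‖x j - x'‖ := norm_sub_le _ _
          _ ≤ ‖x j‖ + 1 := by linarith
      rw [e1]
      calc ‖V (x j - x') (y j) + V x' (y j - y')‖
          ≤ ‖V (x j - x') (y j)‖ + ‖V x' (y j - y')‖ := norm_add_le _ _
        _ ≤ ‖V‖ * ‖x j - x'‖ * ‖y j‖ + ‖V‖ * ‖x'‖ * ‖y j - y'‖ :=
            add_le_add (V.le_opNorm₂ _ _) (V.le_opNorm₂ _ _)
        _ ≤ ‖V‖ * ε * ‖y j‖ + ‖V‖ * (‖x j‖ + 1) * ε := by gcongr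
        _ = ε * (‖V‖ * (‖y j‖ + ‖x j‖ + 1)) := by ring
    rw [h4]
    exact (norm_add_le _ _).trans (add_le_add h3 h5)
  refine le_of_forall_pos_le_add fun δ hδ => ?_
  have h6 := key (min 1 (δ / (B + 1))) (lt_min one_pos (by positivity)) (min_le_left _ _)
  refine h6.trans (add_le_add le_rfl ?_)
  calc min 1 (δ / (B + 1)) * B ≤ δ / (B + 1) * (B + 1) :=
        mul_le_mul (min_le_right _ _) (by linarith) hB0 (by positivity)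
    _ = δ := div_mul_cancel₀ _ (by positivity)

end Pool.Agent.MP_86f3ed.Am
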