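import Pool.Agent.H.MP_86f3ed_an.Am.Defs

/-!
# Am/Mass: minimal mass

`Zf z` means `∑ z_l* z_l = 1`, and `Ψ_z(c) = ∑ z_l c z_l*`. Let `χ : A →ₗ[ℝ] ℝ` be nonnegative on
nonnegative elements, `δ > 0`. Put `m = inf { χ(Ψ_z(1)) : Zf z }` (`z` over all finite families; the
set is nonempty — the family `{1}` has `χ(Ψ_z 1) = χ 1` — and bounded below by `0`). Choose `z` with
`χ(Ψ_z 1) ≤ m + δ` and `χ(Ψ_z 1) ≤ χ 1` (if `m + δ ≥ χ 1` take `z = {1}`, otherwise any `z` with
value `< m + δ`).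

Let first `‖w‖ ≤ 1` and `s = (1 - w* w)^{1/2}` (`1 - w* w ≥ 0`, so `1 - w* w = star s * s`;
`CStarAlgebra.nonneg_iff_eq_star_mul_self`; take `s` self-adjoint, e.g. `CFC.sqrt`, or just use
`star s * s` and replace `s s*` below: with `s` self-adjoint `s * star s = 1 - w* w`).
The family `{z_l w} ∪ {z_l s}` indexed by `L ⊕ L` satisfies `Zf`:
`∑ w* z_l* z_l w + ∑ s z_l* z_l s = w* w + s s = 1`; its mass is
`χ(Ψ_z(w w*)) + χ(Ψ_z(s s)) = χ(Ψ_z 1) + χ(Ψ_z(w w*)) - χ(Ψ_z(w* w))`, and it is `≥ m`. Hence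
`χ(Ψ_z(w* w)) - χ(Ψ_z(w w*)) ≤ χ(Ψ_z 1) - m ≤ δ`. For general `w ≠ 0` apply this to `w/‖w‖`
(homogeneity: both sides scale with `‖w‖²`); `w = 0` is trivial.

* `Psi_mono`: `Ψ_z` is additive, real-linear and maps nonnegative elements to nonnegative ones.
* `Psi_join`: for two families `z`, `z'` and `λ ∈ [0,1]` the family `√λ z ∪ √(1-λ) z'` satisfies
  `Zf` and its `Ψ` is `λ Ψ_z + (1-λ) Ψ_{z'}`.
-/

open scoped InnerProductSpace ComplexConjugate

namespace Pool.Agent.MP_86f3ed.Am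

universe u

variable {A : Type u} [CStarAlgebra A] [PartialOrder A] [StarOrderedRing A]

omit [PartialOrder A] [StarOrderedRing A] in
theorem Psi_add {L : Type} [Fintype L] (z : L → A) (c d : A) :
    Psi z (c + d) = Psi z c + Psi z d := by
  simp [Psi, mul_add, add_mul, Finset.sum_add_distrib]

omit [PartialOrder A] [StarOrderedRing A] in
theorem Psi_smul {L : Type} [Fintype L] (z : L → A) (r : ℝ) (c : A) :
    Psi z (r • c) = r • Psi z c := by
  simp [Psi, Finset.smul_sum]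

theorem Psi_nonneg {L : Type} [Fintype L] (z : L → A) {c : A} (hc : 0 ≤ c) : 0 ≤ Psi z c :=
  Finset.sum_nonneg fun l _ => star_right_conjugate_nonneg hc (z l)

theorem Mass_smul_star_mul (r : ℝ) (hr : 0 ≤ r) (a : A) :
    star ((√r : ℝ) • a) * ((√r : ℝ) • a) = r • (star a * a) := by
  rw [star_smul, star_trivial, smul_mul_smul_comm, Real.mul_self_sqrt hr]

theorem Psi_join {L L' : Type} [Fintype L] [Fintype L'] {z : L → A} {z' : L' → A} (hz : Zf z)
    (hz' : Zf z') {s t : ℝ} (hs : 0 ≤ s) (ht : 0 ≤ t) (hst : s + t = 1) :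
    ∃ w : L ⊕ L' → A, Zf w ∧ ∀ c, Psi w c = s • Psi z c + t • Psi z' c := by
  refine ⟨Sum.elim (fun l => (√s : ℝ) • z l) (fun l => (√t : ℝ) • z' l), ?_, ?_⟩
  · unfold Zf at *
    rw [Fintype.sum_sum_type]
    simp only [Sum.elim_inl, Sum.elim_inr]
    rw [Finset.sum_congr rfl fun l _ => Mass_smul_star_mul s hs (z l),
      Finset.sum_congr rfl fun l _ => Mass_smul_star_mul t ht (z' l), ← Finset.smul_sum,
      ← Finset.smul_sum, hz, hz', ← add_smul, hst, one_smul]
  · intro c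
    unfold Psi
    rw [Fintype.sum_sum_type]
    simp only [Sum.elim_inl, Sum.elim_inr]
    have h : ∀ (r : ℝ) (_ : 0 ≤ r) (a : A), (√r : ℝ) • a * c * star ((√r : ℝ) • a) =
        r • (a * c * star a) := by
      intro r hr a
      rw [star_smul, star_trivial, smul_mul_assoc, smul_mul_smul_comm, Real.mul_self_sqrt hr]
    rw [Finset.sum_congr rfl fun l _ => h s hs (z l),
      Finset.sum_congr rfl fun l _ => h t ht (z' l), ← Finset.smul_sum, ← Finset.smul_sum]

omit [PartialOrder A] [StarOrderedRing A] in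
theorem Mass_unit : Zf (fun _ : Unit => (1 : A)) := by
  unfold Zf
  simp

omit [PartialOrder A] [StarOrderedRing A] in
theorem Mass_unit_Psi (c : A) : Psi (fun _ : Unit => (1 : A)) c = c := by
  unfold Psi
  simp

theorem min_mass (χ : A →ₗ[ℝ] ℝ) (hχ : ∀ a, 0 ≤ a → 0 ≤ χ a) (δ : ℝ) (hδ : 0 < δ) :
    ∃ (L : Type) (_ : Fintype L) (z : L → A), Zf z ∧ χ (Psi z 1) ≤ χ 1 ∧
      ∀ w, χ (Psi z (star w * w)) ≤ χ (Psi z (w * star w)) + δ * ‖w‖ ^ 2 := by
  set M : Set ℝ := {v | ∃ (L : Type) (_ : Fintype L) (z : L → A), Zf z ∧ χ (Psi z 1) = v} with hM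
  have hMne : M.Nonempty := ⟨_, Unit, inferInstance, fun _ => 1, Mass_unit, rfl⟩
  have hMb : BddBelow M := by
    refine ⟨0, ?_⟩
    rintro v ⟨L, _, z, -, rfl⟩
    exact hχ _ (Psi_nonneg z zero_le_one)
  set m : ℝ := sInf M with hm
  obtain ⟨L, hL, z, hz, hz1, hz2⟩ : ∃ (L : Type) (_ : Fintype L) (z : L → A), Zf z ∧
      χ (Psi z 1) ≤ χ 1 ∧ χ (Psi z 1) ≤ m + δ := by
    rcases le_or_gt (χ 1) (m + δ) with h | h
    · exact ⟨Unit, inferInstance, fun _ => 1, Mass_unit, by rw [Mass_unit_Psi],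
        by rw [Mass_unit_Psi]; exact h⟩
    · obtain ⟨v, ⟨L, hL, z, hz, rfl⟩, hv⟩ := exists_lt_of_csInf_lt hMne
        (show sInf M < m + δ by rw [← hm]; linarith)
      exact ⟨L, hL, z, hz, by linarith, hv.le⟩
  refine ⟨L, hL, z, hz, hz1, ?_⟩
  -- contractions
  have key : ∀ w : A, ‖w‖ ≤ 1 →
      χ (Psi z (star w * w)) ≤ χ (Psi z (w * star w)) + δ := by
    intro w hw
    have h1 : (0 : A) ≤ 1 - star w * w := by
      rw [sub_nonneg, ← CStarAlgebra.norm_le_one_iff_of_nonneg (star w * w)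
        (star_mul_self_nonneg w), CStarRing.norm_star_mul_self]
      exact mul_le_one₀ hw (norm_nonneg _) hw
    set s : A := CFC.sqrt (1 - star w * w) with hs
    have hss : s * s = 1 - star w * w := CFC.sqrt_mul_sqrt_self _ h1
    have hsa : star s = s := (CFC.sqrt_nonneg (1 - star w * w)).isSelfAdjoint.star_eq
    set v : L ⊕ L → A := Sum.elim (fun l => z l * w) (fun l => z l * s) with hv
    have hvZ : Zf v := by
      unfold Zf at *
      rw [Fintype.sum_sum_type]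
      simp only [hv, Sum.elim_inl, Sum.elim_inr]
      have h2 : ∀ a : A, ∑ l, star (z l * a) * (z l * a) = star a * a := by
        intro a
        have h3 : ∀ l, star (z l * a) * (z l * a) = star a * (star (z l) * z l) * a := by
          intro l
          rw [star_mul]
          noncomm_ring
        rw [Finset.sum_congr rfl fun l _ => h3 l, ← Finset.sum_mul, ← Finset.mul_sum, hz, mul_one]
      rw [h2, h2, hsa, hss]
      abel
    have hvP : Psi v 1 = Psi z (w * star w) + (Psi z 1 - Psi z (star w * w)) := by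
      have h2 : Psi z 1 - Psi z (star w * w) = Psi z (s * s) := by
        rw [sub_eq_iff_eq_add, ← Psi_add, hss]
        congr 1
        abel
      rw [h2]
      unfold Psi
      rw [Fintype.sum_sum_type]
      simp only [hv, Sum.elim_inl, Sum.elim_inr]
      congr 1
      · refine Finset.sum_congr rfl fun l _ => ?_
        rw [star_mul, mul_one]
        noncomm_ring
      · refine Finset.sum_congr rfl fun l _ => ?_
        rw [star_mul, mul_one, hsa]
        noncomm_ring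
    have h2 : m ≤ χ (Psi v 1) := csInf_le hMb ⟨L ⊕ L, inferInstance, v, hvZ, rfl⟩
    rw [hvP, map_add, map_sub] at h2
    linarith
  intro w
  rcases eq_or_ne w 0 with rfl | hw
  · simp
  · have hn : 0 < ‖w‖ := norm_pos_iff.2 hw
    have h1 := key ((‖w‖⁻¹ : ℝ) • w) (by
      rw [norm_smul, norm_inv, norm_norm, inv_mul_cancel₀ hn.ne'])
    have h2 : star ((‖w‖⁻¹ : ℝ) • w) * ((‖w‖⁻¹ : ℝ) • w) = ((‖w‖⁻¹ * ‖w‖⁻¹ : ℝ)) • (star w * w) := by
      rw [star_smul, star_trivial, smul_mul_smul_comm]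
    have h3 : ((‖w‖⁻¹ : ℝ) • w) * star ((‖w‖⁻¹ : ℝ) • w) = ((‖w‖⁻¹ * ‖w‖⁻¹ : ℝ)) • (w * star w) := by
      rw [star_smul, star_trivial, smul_mul_smul_comm]
    rw [h2, h3, Psi_smul, Psi_smul, map_smul, map_smul, smul_eq_mul, smul_eq_mul] at h1
    have h4 := mul_le_mul_of_nonneg_left h1 (sq_nonneg ‖w‖)
    have h5 : ∀ x : ℝ, ‖w‖ ^ 2 * (‖w‖⁻¹ * ‖w‖⁻¹ * x) = x := by
      intro x
      field_simp
    rw [mul_add, h5, h5] at h4
    linarith

end Pool.Agent.MP_86f3ed.Am
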