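import Pool.Agent.H.MP_86f3ed_an.Am.Four

/-!
# Am/Mom: moments of `X_ω = ∑ z_j(ω) x_j`

Let `x : J → M_n` satisfy `RC 1 x`: `∑ ‖x_j ξ‖² ≤ ‖ξ‖²` and `∑ ‖x_j* ξ‖² ≤ ‖ξ‖²`.

* `mom2`: `zc_second` with `w_j = x_j ξ`.
* `mom2'`: `X* = ∑ conj z_j x_j* = ∑ z_j(-ω) x_j*` (`zc_neg`), then `ω ↦ -ω` is a bijection
  (`Equiv.sum_comp (Equiv.neg _)`) and `zc_second`.
* `sum_star_mul_apply`: `‖∑ x_i* (x_i ξ)‖ ≤ ‖ξ‖`: for every `η`,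
  `|⟪η, ∑ x_i* x_i ξ⟫| = |∑ ⟪x_i η, x_i ξ⟫| ≤ (∑‖x_i η‖²)^{1/2}(∑‖x_i ξ‖²)^{1/2} ≤ ‖η‖‖ξ‖`;
  take `η` = the vector itself.
* `mom4`: `X* X ξ = ∑_{i,j} conj z_i z_j x_i* x_j ξ`; `zc_fourth` with `v_ij = x_i* (x_j ξ)`:
  `‖∑ v_ii‖² ≤ ‖ξ‖²` and `∑_{ij} ‖x_i* (x_j ξ)‖² ≤ ∑_j ‖x_j ξ‖² ≤ ‖ξ‖²`.
* `mom4'`: apply `mom4` to the family `x_j*` (`RC 1` is symmetric under `x ↦ x*`) and `ω ↦ -ω`.
* `momV`: `V(X_ω, Y_{-ω}) = ∑_{i,j} z_i(ω) conj(z_j(ω)) V(x_i, y_j)`, then `zc_cross`.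
-/

open scoped InnerProductSpace ComplexConjugate

namespace Pool.Agent.MP_86f3ed.Am

variable {n : ℕ} {J : Type} [Fintype J] [DecidableEq J]

/-- `X_ω = ∑ z_j(ω) x_j`. -/
noncomputable def Xs (x : J → (EE n →L[ℂ] EE n)) (ω : J → ZMod 3) : EE n →L[ℂ] EE n :=
  ∑ j, zc ω j • x j

omit [DecidableEq J] in
theorem RC_star {α : ℝ} {x : J → (EE n →L[ℂ] EE n)} (hx : RC α x) :
    RC α (fun j => star (x j)) := by
  intro ξ
  refine ⟨(hx ξ).2, ?_⟩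
  simpa using (hx ξ).1

omit [DecidableEq J] in
theorem star_Xs (x : J → (EE n →L[ℂ] EE n)) (ω : J → ZMod 3) :
    star (Xs x ω) = Xs (fun j => star (x j)) (-ω) := by
  rw [Xs, Xs]
  refine (star_sum Finset.univ fun j => zc ω j • x j).trans ?_
  refine Finset.sum_congr rfl fun j _ => ?_
  rw [star_smul, zc_neg]
  rfl

omit [DecidableEq J] in
theorem mom_Xs_apply (x : J → (EE n →L[ℂ] EE n)) (ω : J → ZMod 3) (ξ : EE n) :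
    Xs x ω ξ = ∑ j, zc ω j • x j ξ := by
  rw [Xs, sum_apply]
  rfl

/-- Reflection of the phases. -/
theorem mom_neg (f : (J → ZMod 3) → ℝ) : ∑ ω, f (-ω) = ∑ ω, f ω :=
  Equiv.sum_comp (Equiv.neg (J → ZMod 3)) f

omit [DecidableEq J] in
theorem mom_diag {x : J → (EE n →L[ℂ] EE n)} (hx : RC 1 x) (ξ : EE n) :
    ‖∑ i, (star (x i)) (x i ξ)‖ ^ 2 ≤ ‖ξ‖ ^ 2 := by
  set v : EE n := ∑ i, (star (x i)) (x i ξ) with hv
  have h1 : ‖v‖ ^ 2 ≤ ‖v‖ * ‖ξ‖ := by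
    have e1 : ((‖v‖ ^ 2 : ℝ) : ℂ) = ∑ i, ⟪x i v, x i ξ⟫_ℂ := by
      have h2 := inner_self_eq_norm_sq_to_K (𝕜 := ℂ) v
      push_cast
      refine h2.symm.trans ?_
      conv_lhs => rw [hv, inner_sum]
      refine Finset.sum_congr rfl fun i _ => ?_
      rw [ContinuousLinearMap.star_eq_adjoint, ContinuousLinearMap.adjoint_inner_right]
    have e2 : ‖v‖ ^ 2 = ‖∑ i, ⟪x i v, x i ξ⟫_ℂ‖ := by
      rw [← e1, Complex.norm_real, Real.norm_of_nonneg (sq_nonneg _)]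
    rw [e2]
    calc ‖∑ i, ⟪x i v, x i ξ⟫_ℂ‖ ≤ ∑ i, ‖x i v‖ * ‖x i ξ‖ :=
          (norm_sum_le _ _).trans (Finset.sum_le_sum fun i _ => norm_inner_le_norm _ _)
      _ ≤ √(∑ i, ‖x i v‖ ^ 2) * √(∑ i, ‖x i ξ‖ ^ 2) :=
          Real.sum_mul_le_sqrt_mul_sqrt _ _ _
      _ ≤ √(‖v‖ ^ 2) * √(‖ξ‖ ^ 2) := by
          have a1 := (hx v).1
          have a2 := (hx ξ).1
          rw [one_mul] at a1 a2
          exact mul_le_mul (Real.sqrt_le_sqrt a1) (Real.sqrt_le_sqrt a2) (Real.sqrt_nonneg _)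
            (Real.sqrt_nonneg _)
      _ = ‖v‖ * ‖ξ‖ := by
          rw [Real.sqrt_sq (norm_nonneg _), Real.sqrt_sq (norm_nonneg _)]
  have h3 : ‖v‖ ≤ ‖ξ‖ := by
    rcases (norm_nonneg v).eq_or_lt with h | h
    · rw [← h]
      exact norm_nonneg _
    · have h4 : ‖v‖ * ‖v‖ ≤ ‖v‖ * ‖ξ‖ := by
        rw [← sq]
        exact h1
      exact le_of_mul_le_mul_left h4 h
  exact pow_le_pow_left₀ (norm_nonneg _) h3 2

theorem mom2 {x : J → (EE n →L[ℂ] EE n)} (hx : RC 1 x) (ξ : EE n) :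
    ∑ ω : J → ZMod 3, ‖Xs x ω ξ‖ ^ 2 ≤ 3 ^ Fintype.card J * ‖ξ‖ ^ 2 := by
  have h1 := zc_second (fun j => x j ξ)
  have h2 := (hx ξ).1
  rw [one_mul] at h2
  simp only [mom_Xs_apply]
  rw [h1]
  exact mul_le_mul_of_nonneg_left h2 (by positivity)

theorem mom2' {x : J → (EE n →L[ℂ] EE n)} (hx : RC 1 x) (ξ : EE n) :
    ∑ ω : J → ZMod 3, ‖(star (Xs x ω)) ξ‖ ^ 2 ≤ 3 ^ Fintype.card J * ‖ξ‖ ^ 2 := by
  have h1 := mom2 (RC_star hx) ξ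
  rw [← mom_neg] at h1
  simp only [star_Xs]
  exact h1

theorem mom4 {x : J → (EE n →L[ℂ] EE n)} (hx : RC 1 x) (ξ : EE n) :
    ∑ ω : J → ZMod 3, ‖(star (Xs x ω)) (Xs x ω ξ)‖ ^ 2 ≤
      3 ^ Fintype.card J * (2 * ‖ξ‖ ^ 2) := by
  have h1 := zc_fourth (fun i j => (star (x i)) (x j ξ))
  have h2 : ∀ ω : J → ZMod 3, (star (Xs x ω)) (Xs x ω ξ) =
      ∑ i, ∑ j, (conj (zc ω i) * zc ω j) • (star (x i)) (x j ξ) := by
    intro ω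
    rw [star_Xs, mom_Xs_apply]
    refine Finset.sum_congr rfl fun i _ => ?_
    rw [zc_neg, mom_Xs_apply, map_sum, Finset.smul_sum]
    refine Finset.sum_congr rfl fun j _ => ?_
    rw [map_smul, smul_smul]
  rw [Finset.sum_congr rfl fun ω _ => by rw [h2 ω]]
  refine h1.trans (mul_le_mul_of_nonneg_left ?_ (by positivity))
  have h3 := mom_diag hx ξ
  have h4 : ∑ i, ∑ j, ‖(star (x i)) (x j ξ)‖ ^ 2 ≤ ‖ξ‖ ^ 2 := by
    rw [Finset.sum_comm]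
    calc ∑ j, ∑ i, ‖(star (x i)) (x j ξ)‖ ^ 2 ≤ ∑ j, ‖x j ξ‖ ^ 2 := by
          refine Finset.sum_le_sum fun j _ => ?_
          have := (hx (x j ξ)).2
          rwa [one_mul] at this
      _ ≤ ‖ξ‖ ^ 2 := by
          have := (hx ξ).1
          rwa [one_mul] at this
  linarith

theorem mom4' {x : J → (EE n →L[ℂ] EE n)} (hx : RC 1 x) (ξ : EE n) :
    ∑ ω : J → ZMod 3, ‖Xs x ω ((star (Xs x ω)) ξ)‖ ^ 2 ≤
      3 ^ Fintype.card J * (2 * ‖ξ‖ ^ 2) := by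
  have h1 := mom4 (RC_star hx) ξ
  rw [← mom_neg] at h1
  have h2 : ∀ ω : J → ZMod 3, Xs x ω ((star (Xs x ω)) ξ) =
      (star (Xs (fun j => star (x j)) (-ω))) (Xs (fun j => star (x j)) (-ω) ξ) := by
    intro ω
    rw [← star_Xs, star_star]
  rw [Finset.sum_congr rfl fun ω _ => by rw [h2 ω]]
  exact h1

theorem momV (V : (EE n →L[ℂ] EE n) →ₗ[ℂ] (EE n →L[ℂ] EE n) →ₗ[ℂ] ℂ)
    (x y : J → (EE n →L[ℂ] EE n)) :
    ∑ ω : J → ZMod 3, V (Xs x ω) (Xs y (-ω)) = 3 ^ Fintype.card J * ∑ j, V (x j) (y j) := by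
  have h1 : ∀ ω : J → ZMod 3, V (Xs x ω) (Xs y (-ω)) =
      ∑ i, ∑ j, (conj (zc ω j) * zc ω i) * V (x i) (y j) := by
    intro ω
    have e1 : V (Xs x ω) = ∑ i, zc ω i • V (x i) := by
      rw [Xs, map_sum]
      exact Finset.sum_congr rfl fun i _ => map_smul _ _ _
    rw [e1, LinearMap.sum_apply]
    refine Finset.sum_congr rfl fun i _ => ?_
    rw [LinearMap.smul_apply, Xs, map_sum, Finset.smul_sum]
    refine Finset.sum_congr rfl fun j _ => ?_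
    rw [map_smul, smul_smul, zc_neg, smul_eq_mul, mul_comm (zc ω i)]
  rw [Finset.sum_congr rfl fun ω _ => h1 ω, Finset.sum_comm, Finset.mul_sum]
  refine Finset.sum_congr rfl fun i _ => ?_
  rw [Finset.sum_comm, Finset.sum_eq_single i]
  · rw [← Finset.sum_mul, zc_cross, if_pos rfl]
  · intro j _ hj
    rw [← Finset.sum_mul, zc_cross, if_neg hj, zero_mul]
  · intro hcon
    exact absurd (Finset.mem_univ i) hcon

end Pool.Agent.MP_86f3ed.Am
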